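import Mathlib
import Pool.Agent.X19.SS.Stm

set_option autoImplicit false

open MeasureTheory ProbabilityTheory Filter Topology
open scoped ENNReal

namespace Pool.Agent.X226.A3

theorem int_gauss1 (u : ℝ) (hu : 0 < u) :
    ∫ t, Real.exp (-u * t ^ 2) ∂(gaussianReal 0 1) = (1 + 2 * u) ^ (-(1/2) : ℝ) := by
  rw [integral_gaussianReal_eq_integral_smul (by norm_num)]
  have h1 : ∀ t : ℝ, gaussianPDFReal 0 1 t • Real.exp (-u * t ^ 2)
      = (√(2 * Real.pi))⁻¹ * Real.exp (-(u + 1/2) * t ^ 2) := by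
    intro t
    simp only [gaussianPDFReal, smul_eq_mul, NNReal.coe_one, mul_one, sub_zero]
    rw [mul_assoc, ← Real.exp_add]
    congr 2
    ring
  simp_rw [h1]
  rw [integral_const_mul, integral_gaussian, ← Real.sqrt_inv, ← Real.sqrt_mul (by positivity)]
  rw [Real.rpow_neg (by positivity), ← Real.sqrt_eq_rpow, ← Real.sqrt_inv]
  congr 1
  have : Real.pi ≠ 0 := Real.pi_ne_zero
  field_simp
  ring

theorem norm_sum {E : Type} [NormedAddCommGroup E] [InnerProductSpace ℝ E] [FiniteDimensional ℝ E]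
    (x : Fin (Module.finrank ℝ E) → ℝ) :
    ‖∑ i, x i • stdOrthonormalBasis ℝ E i‖ ^ 2 = ∑ i, x i ^ 2 := by
  have := (stdOrthonormalBasis ℝ E).sum_repr_symm (WithLp.toLp 2 x)
  simp only at this
  rw [this, LinearIsometryEquiv.norm_map, EuclideanSpace.real_norm_sq_eq]

theorem int_gaussE {E : Type} [NormedAddCommGroup E] [InnerProductSpace ℝ E] [FiniteDimensional ℝ E]
    [MeasurableSpace E] [BorelSpace E] (u : ℝ) (hu : 0 < u) :
    ∫ x, Real.exp (-u * ‖x‖ ^ 2) ∂(stdGaussian E)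
      = (1 + 2 * u) ^ (-(Module.finrank ℝ E : ℝ) / 2) := by
  rw [stdGaussian, integral_map (Measurable.aemeasurable (by fun_prop))
    (Measurable.aestronglyMeasurable (by fun_prop))]
  simp_rw [norm_sum, Finset.mul_sum, Real.exp_sum]
  rw [integral_fintype_prod_eq_prod (𝕜 := ℝ) (f := fun (_ : Fin (Module.finrank ℝ E)) (t : ℝ) => Real.exp (-u * t ^ 2))]
  simp_rw [int_gauss1 u hu]
  rw [Finset.prod_const, ← Real.rpow_natCast, ← Real.rpow_mul (by positivity)]
  congr 1
  simp
  ring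

theorem lint_gaussE {E : Type} [NormedAddCommGroup E] [InnerProductSpace ℝ E] [FiniteDimensional ℝ E]
    [MeasurableSpace E] [BorelSpace E] (u : ℝ) (hu : 0 < u) :
    ∫⁻ x, ENNReal.ofReal (Real.exp (-u * ‖x‖ ^ 2)) ∂(stdGaussian E)
      = ENNReal.ofReal ((1 + 2 * u) ^ (-(Module.finrank ℝ E : ℝ) / 2)) := by
  rw [← int_gaussE (E := E) u hu, ofReal_integral_eq_lintegral_ofReal]
  · refine Integrable.mono' (g := fun _ => (1:ℝ)) (integrable_const _) ?_ ?_
    · exact (Measurable.aestronglyMeasurable (by fun_prop))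
    · refine ae_of_all _ fun x => ?_
      rw [Real.norm_eq_abs, Real.abs_exp]
      apply Real.exp_le_one_iff.2
      have : 0 ≤ ‖x‖ ^ 2 := by positivity
      nlinarith
  · exact ae_of_all _ fun x => (Real.exp_pos _).le

theorem int_outer (D : ℝ) (hD : 2 < D) :
    ∫⁻ u in Set.Ioi (0:ℝ), ENNReal.ofReal ((1 + 2 * u) ^ (-D / 2)) = ENNReal.ofReal (1 / (D - 2)) := by
  have hder : ∀ x ∈ Set.Ici (0:ℝ), HasDerivAt (fun u : ℝ => -(1 + 2 * u) ^ (1 - D / 2) / (D - 2))
      ((1 + 2 * x) ^ (-D / 2)) x := by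
    intro x hx
    have hx0 : (0:ℝ) ≤ x := hx
    have h1 : HasDerivAt (fun u : ℝ => 1 + 2 * u) 2 x := by
      simpa using ((hasDerivAt_id x).const_mul 2).const_add 1
    have h2 := (h1.rpow_const (p := 1 - D / 2) (Or.inl (by positivity))).neg.div_const (D - 2)
    rw [show 1 - D / 2 - 1 = -D / 2 by ring] at h2
    have h5 : -(2 * (1 - D / 2) * (1 + 2 * x) ^ (-D / 2)) / (D - 2) = (1 + 2 * x) ^ (-D / 2) := by
      have : D - 2 ≠ 0 := by linarith
      field_simp
      ring
    rw [h5] at h2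
    exact h2
  have hpos : ∀ x ∈ Set.Ioi (0:ℝ), 0 ≤ (1 + 2 * x) ^ (-D / 2) := by
    intro x hx
    have : (0:ℝ) < x := hx
    positivity
  have hlim : Tendsto (fun u : ℝ => -(1 + 2 * u) ^ (1 - D / 2) / (D - 2)) atTop (𝓝 0) := by
    have h3 : Tendsto (fun u : ℝ => (1 + 2 * u) ^ (-(D / 2 - 1))) atTop (𝓝 0) := by
      apply (tendsto_rpow_neg_atTop (by linarith : 0 < D / 2 - 1)).comp
      apply tendsto_atTop_add_const_left
      exact tendsto_id.const_mul_atTop (by norm_num)
    have h4 := (h3.neg).div_const (D - 2)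
    simp only [neg_zero, zero_div] at h4
    refine h4.congr fun u => ?_
    rw [show -(D / 2 - 1) = 1 - D / 2 by ring]
  have hint := integrableOn_Ioi_deriv_of_nonneg' hder hpos hlim
  have hval := integral_Ioi_of_hasDerivAt_of_nonneg' hder hpos hlim
  rw [← ofReal_integral_eq_lintegral_ofReal hint, hval]
  · congr 1
    simp
    ring
  · refine (ae_restrict_iff' measurableSet_Ioi).2 (ae_of_all _ fun x hx => hpos x hx)

theorem int_exp (r : ℝ) (hr : 0 < r) :
    ∫⁻ u in Set.Ioi (0:ℝ), ENNReal.ofReal (Real.exp (-u * r)) = ENNReal.ofReal (1 / r) := by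
  have h1 : ∫ u in Set.Ioi (0:ℝ), Real.exp (-u * r) = 1 / r := by
    have := integral_exp_neg_mul_rpow (p := 1) (b := r) (by norm_num) hr
    have h2 : ∀ u : ℝ, Real.exp (-u * r) = Real.exp (-r * u) := by intro u; congr 1; ring
    simp_rw [h2]
    have h3 := integral_exp_mul_Ioi (a := -r) (by linarith) 0
    rw [h3]
    simp
  rw [← h1, ofReal_integral_eq_lintegral_ofReal]
  · have h2 : ∀ u : ℝ, Real.exp (-u * r) = Real.exp (-r * u) := by intro u; congr 1; ring
    simp_rw [h2]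
    exact integrableOn_exp_mul_Ioi (by linarith) 0
  · exact ae_of_all _ fun x => (Real.exp_pos _).le

theorem t_A3 : Pool.Agent.X19.SS.S_A3 := by
  intro E _ _ _ _ _ hD
  set D : ℝ := (Module.finrank ℝ E : ℝ) with hDdef
  have hD' : 2 < D := by rw [hDdef]; exact_mod_cast hD
  have h1 : ∀ x : E, ∫⁻ u in Set.Ioi (0:ℝ), ENNReal.ofReal (Real.exp (-u * ‖x‖ ^ 2))
      ≤ (‖x‖ₑ ^ 2)⁻¹ := by
    intro x
    by_cases hx : x = 0
    · subst hx
      simp
    · have hx' : 0 < ‖x‖ := norm_pos_iff.2 hx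
      rw [int_exp _ (by positivity), one_div, ENNReal.ofReal_inv_of_pos (by positivity),
        ENNReal.ofReal_pow hx'.le, ofReal_norm]
  refine le_trans ?_ (lintegral_mono h1)
  rw [lintegral_lintegral_swap]
  · rw [← int_outer D hD']
    apply le_of_eq
    refine setLIntegral_congr_fun measurableSet_Ioi fun u hu => ?_
    exact (lint_gaussE (E := E) u hu).symm
  · apply Measurable.aemeasurable
    apply ENNReal.measurable_ofReal.comp
    apply Real.measurable_exp.comp
    fun_prop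

end Pool.Agent.X226.A3
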