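import Pool.Agent.X263.AL.Stm

set_option autoImplicit false

namespace Pool.Agent.X226.UNI

open Finset Polynomial Pool.Agent.X263.AL
open Pool.Agent.X328.GN (Ix nu de wrA)

universe u v

theorem Rel_mono {K : Type u} [Field K] [CharZero K] {d N N' : ℕ} (h : N ≤ N') {κ : Ix d → K}
    (hR : Rel d N κ) : Rel d N' κ := by
  obtain ⟨r, len, x, G, hr, hlen, hG, hrel⟩ := hR
  refine ⟨r, len, x, fun i m => if m ≤ N then G i m else 0, hr.trans h,
    fun j => ⟨(hlen j).1, (hlen j).2.1.trans h, (hlen j).2.2⟩, ?_, ?_⟩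
  · intro i m
    dsimp only
    split_ifs
    · exact (hG i m).trans h
    · simp
  · intro i
    obtain ⟨⟨m, hm, hne⟩, hs⟩ := hrel i
    refine ⟨⟨m, hm.trans h, by simpa [hm] using hne⟩, ?_⟩
    rw [← hs]
    symm
    have hsub : range (N + 1) ⊆ range (N' + 1) := Finset.range_mono (by omega)
    have h1 : ∑ m ∈ range (N + 1), MvPolynomial.aeval (fun j => mu d κ (len j) (x j)) (G i m) * κ i ^ m
        = ∑ m ∈ range (N + 1), MvPolynomial.aeval (fun j => mu d κ (len j) (x j))
          (if m ≤ N then G i m else 0) * κ i ^ m := by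
      apply Finset.sum_congr rfl
      intro m hm
      rw [Finset.mem_range] at hm
      rw [if_pos (by omega)]
    rw [h1]
    apply Finset.sum_subset hsub
    intro m _ hm
    rw [Finset.mem_range] at hm
    rw [if_neg (by omega)]
    simp

section deg

variable {A : Type*} [CommRing A]

theorem deg_lo [Nontrivial A] (d : ℕ) (hd : 2 ≤ d) (c : Fin (d - 1) → A) :
    (∑ i : Fin (d - 1), C (c i) * X ^ (i.1 + 1)).degree < (d : WithBot ℕ) := by
  refine lt_of_le_of_lt (Polynomial.degree_sum_le _ _) ?_
  rw [Finset.sup_lt_iff (by exact_mod_cast WithBot.bot_lt_coe d)]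
  intro i _
  refine lt_of_le_of_lt (degree_C_mul_X_pow_le _ _) ?_
  have := i.2
  exact_mod_cast (by omega : i.1 + 1 < d)

theorem nu_monic [Nontrivial A] (d : ℕ) (hd : 2 ≤ d) (t : Ix d → A) : (nu d t).Monic :=
  monic_X_pow_add (deg_lo d hd _)

theorem nu_natDegree [Nontrivial A] (d : ℕ) (hd : 2 ≤ d) (t : Ix d → A) :
    (nu d t).natDegree = d := by
  unfold nu
  rw [natDegree_add_eq_left_of_degree_lt (by rw [degree_X_pow]; exact deg_lo d hd _),
    natDegree_X_pow]

theorem de_natDegree [Nontrivial A] (d : ℕ) (hd : 2 ≤ d) (t : Ix d → A) :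
    (de d t).natDegree ≤ d := by
  unfold de
  rw [natDegree_le_iff_degree_le]
  refine (degree_add_le _ _).trans (max_le ?_ (deg_lo d hd _).le)
  exact degree_C_le.trans (by exact_mod_cast Nat.zero_le d)

theorem nu_map {A' : Type*} [CommRing A'] (φ : A →+* A') (d : ℕ) (t : Ix d → A) :
    (nu d t).map φ = nu d (fun i => φ (t i)) := by
  unfold nu
  simp [Polynomial.map_sum]

theorem de_map {A' : Type*} [CommRing A'] (φ : A →+* A') (d : ℕ) (t : Ix d → A) :
    (de d t).map φ = de d (fun i => φ (t i)) := by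
  unfold de
  simp [Polynomial.map_sum]

theorem res_iff {K : Type*} [Field K] (d : ℕ) (hd : 2 ≤ d) (t : Ix d → K) :
    resultant (nu d t) (de d t) d d ≠ 0 ↔ IsCoprime (nu d t) (de d t) := by
  obtain ⟨k, hk⟩ := Nat.exists_eq_add_of_le (de_natDegree d hd t)
  have h1 : resultant (nu d t) (de d t) d d = resultant (nu d t) (de d t) := by
    conv_lhs => rw [show resultant (nu d t) (de d t) d d =
      resultant (nu d t) (de d t) d ((de d t).natDegree + k) by rw [← hk]]
    rw [resultant_add_right_deg _ _ _ _ _ le_rfl]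
    have h2 : (nu d t).coeff d = 1 := by
      have := (nu_monic d hd t).coeff_natDegree
      rwa [nu_natDegree d hd t] at this
    rw [h2, one_pow, one_mul, nu_natDegree d hd t]
  rw [h1, ne_eq, resultant_eq_zero_iff]
  have h3 : nu d t ≠ 0 := (nu_monic d hd t).ne_zero
  tauto

/-- the generic resultant -/
noncomputable def Rg (d : ℕ) : MvPolynomial (Ix d) ℚ :=
  resultant (nu d (MvPolynomial.X : Ix d → MvPolynomial (Ix d) ℚ))
    (de d (MvPolynomial.X : Ix d → MvPolynomial (Ix d) ℚ)) d d

theorem aeval_Rg {K : Type*} [Field K] [Algebra ℚ K] (d : ℕ) (κ : Ix d → K) :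
    MvPolynomial.aeval κ (Rg d) = resultant (nu d κ) (de d κ) d d := by
  have := resultant_map_map (nu d (MvPolynomial.X : Ix d → MvPolynomial (Ix d) ℚ))
    (de d (MvPolynomial.X : Ix d → MvPolynomial (Ix d) ℚ)) d d
    (MvPolynomial.aeval κ : MvPolynomial (Ix d) ℚ →ₐ[ℚ] K).toRingHom
  have e : (fun i => (MvPolynomial.aeval κ : MvPolynomial (Ix d) ℚ →ₐ[ℚ] K).toRingHom
      (MvPolynomial.X i)) = κ := by
    funext i
    exact MvPolynomial.aeval_X κ i
  rw [nu_map, de_map, e] at this
  exact this.symm

end deg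

theorem main (hSP : S_SP.{u}) (d : ℕ) (hd : 2 ≤ d) (I : Ideal (MvPolynomial (Ix d) ℚ)) :
    ∃ N : ℕ, ∀ (K : Type u) [Field K] [CharZero K] [IsAlgClosed K] (κ : Ix d → K),
      (∀ F ∈ I, MvPolynomial.aeval κ F = 0) → IsCoprime (nu d κ) (de d κ) →
      ¬ Exceptional d κ → Rel d N κ := by
  induction I using WellFoundedGT.induction with
  | ind I ih =>
    by_cases htop : I = ⊤
    · refine ⟨0, fun K _ _ _ κ hκ _ _ => ?_⟩
      exfalso
      have := hκ 1 (by rw [htop]; trivial)
      simp at this
    by_cases hprime : I.IsPrime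
    · -- prime
      let B := MvPolynomial (Ix d) ℚ ⧸ I
      let Ω := AlgebraicClosure (FractionRing B)
      have hinj : Function.Injective (algebraMap B Ω) := by
        rw [IsScalarTower.algebraMap_eq B (FractionRing B) Ω]
        exact (algebraMap (FractionRing B) Ω).injective.comp
          (IsFractionRing.injective B (FractionRing B))
      have halg : ∀ y : Ω, IsAlgebraic B y := by
        intro y
        exact (IsFractionRing.isAlgebraic_iff B (FractionRing B) Ω).2
          (Algebra.IsAlgebraic.isAlgebraic y)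
      have hchar : CharZero Ω :=
        charZero_of_injective_ringHom (f := ((algebraMap B Ω).comp
          ((Ideal.Quotient.mk I).comp (MvPolynomial.C : ℚ →+* MvPolynomial (Ix d) ℚ))))
          (RingHom.injective _)
      let κ' : Ix d → Ω := fun i => algebraMap B Ω (Ideal.Quotient.mk I (MvPolynomial.X i))
      have hev : ∀ F : MvPolynomial (Ix d) ℚ,
          MvPolynomial.aeval κ' F = algebraMap B Ω (Ideal.Quotient.mk I F) := by
        intro F
        induction F using MvPolynomial.induction_on with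
        | C a =>
          rw [MvPolynomial.aeval_C]
          exact RingHom.congr_fun (RingHom.ext_rat (algebraMap ℚ Ω) ((algebraMap B Ω).comp
            ((Ideal.Quotient.mk I).comp (MvPolynomial.C : ℚ →+* MvPolynomial (Ix d) ℚ)))) a
        | add p q hp hq => rw [map_add, map_add, map_add, hp, hq]
        | mul_X p i hp => rw [map_mul, map_mul, map_mul, hp, MvPolynomial.aeval_X]
      by_cases hrig : Rigid d κ'
      · obtain ⟨D, N0, hD, hN0⟩ := hSP d hd I Ω hinj halg hrig
        have hlt : I < I ⊔ Ideal.span {D} := by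
          refine lt_of_le_of_ne le_sup_left fun h => hD ?_
          rw [h]
          exact Ideal.mem_sup_right (Ideal.mem_span_singleton_self D)
        obtain ⟨N1, hN1⟩ := ih _ hlt
        refine ⟨max N0 N1, fun K _ _ _ κ hκ hco hex => ?_⟩
        by_cases hDκ : MvPolynomial.aeval κ D = 0
        · refine Rel_mono (le_max_right _ _) (hN1 K κ ?_ hco hex)
          intro F hF
          obtain ⟨y, hy, z, hz, rfl⟩ := Submodule.mem_sup.1 hF
          obtain ⟨c, rfl⟩ := Ideal.mem_span_singleton'.1 hz
          rw [map_add, map_mul, hκ y hy, hDκ]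
          simp
        · exact Rel_mono (le_max_left _ _) (hN0 K κ hκ hDκ)
      · refine ⟨0, fun K _ _ _ κ hκ hco hex => ?_⟩
        exfalso
        apply hex
        refine ⟨Ω, inferInstance, hchar, inferInstance, κ', hrig, ?_, ?_⟩
        · rw [← res_iff d hd]
          intro h0
          have h1 : MvPolynomial.aeval κ' (Rg d) = 0 := by
            rw [aeval_Rg]
            exact h0
          rw [hev] at h1
          have h2 := (map_eq_zero_iff (algebraMap B Ω) hinj).1 h1
          rw [Ideal.Quotient.eq_zero_iff_mem] at h2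
          have h3 := hκ _ h2
          rw [aeval_Rg] at h3
          exact ((res_iff d hd κ).2 hco) h3
        · intro F hF
          rw [hev] at hF
          have h2 := (map_eq_zero_iff (algebraMap B Ω) hinj).1 hF
          rw [Ideal.Quotient.eq_zero_iff_mem] at h2
          exact hκ _ h2
    · -- not prime
      obtain ⟨a, ha, b, hb, hab⟩ : ∃ a, a ∉ I ∧ ∃ b, b ∉ I ∧ a * b ∈ I := by
        by_contra hcon
        push Not at hcon
        apply hprime
        refine ⟨htop, fun {x y} hxy => ?_⟩
        by_contra h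
        push Not at h
        exact hcon x h.1 y h.2 hxy
      have hlt : ∀ c, c ∉ I → I < I ⊔ Ideal.span {c} := by
        intro c hc
        refine lt_of_le_of_ne le_sup_left fun h => hc ?_
        rw [h]
        exact Ideal.mem_sup_right (Ideal.mem_span_singleton_self c)
      obtain ⟨N1, hN1⟩ := ih _ (hlt a ha)
      obtain ⟨N2, hN2⟩ := ih _ (hlt b hb)
      refine ⟨max N1 N2, fun K _ _ _ κ hκ hco hex => ?_⟩
      have hz : ∀ c, MvPolynomial.aeval κ c = 0 → ∀ F ∈ I ⊔ Ideal.span {c},
          MvPolynomial.aeval κ F = 0 := by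
        intro c hc F hF
        obtain ⟨y, hy, z, hz, rfl⟩ := Submodule.mem_sup.1 hF
        obtain ⟨e, rfl⟩ := Ideal.mem_span_singleton'.1 hz
        rw [map_add, map_mul, hκ y hy, hc]
        simp
      have h1 := hκ _ hab
      rw [map_mul, mul_eq_zero] at h1
      rcases h1 with h1 | h1
      · exact Rel_mono (le_max_left _ _) (hN1 K κ (hz a h1) hco hex)
      · exact Rel_mono (le_max_right _ _) (hN2 K κ (hz b h1) hco hex)

theorem t_UNI (hSP : S_SP.{u}) : S_UNI.{u} := by
  intro d hd
  obtain ⟨N, hN⟩ := main hSP d hd ⊥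
  refine ⟨N, fun K _ _ _ κ hco hex => hN K κ ?_ hco hex⟩
  intro F hF
  rw [Ideal.mem_bot] at hF
  rw [hF, map_zero]

end Pool.Agent.X226.UNI
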