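import Pool.Agent.X238.DW.Stm3

set_option autoImplicit false

namespace Pool.Agent.X226.DW

open Pool.Agent.X238.DW

universe v

/-- **YOS**: the Yosida approximations. -/
theorem t_YOS : S_YOS.{v} := by
  intro H _ _ _ T b hb hsym hpos
  refine ⟨1 / (2 / b + 2), by positivity, ?_⟩
  intro ε hε hε1
  have hTpos : ∀ y : H, 0 ≤ inner ℝ (T y) y := fun y =>
    le_trans (mul_nonneg hb.le (sq_nonneg _)) (hpos y)
  set S : H →L[ℝ] H := T + ε • ContinuousLinearMap.id ℝ H with hS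
  have hSx : ∀ x, S x = T x + ε • x := fun x => by simp [hS]
  set f : H →ₗ[ℝ] H →ₗ[ℝ] ℝ := (innerₗ H) ∘ₗ (S : H →ₗ[ℝ] H) with hf
  have hfx : ∀ x y, f x y = inner ℝ (S x) y := fun x y => by simp [hf]
  set Bf : H →L[ℝ] H →L[ℝ] ℝ := LinearMap.mkContinuous₂ f ‖S‖ (by
    intro x y
    rw [hfx]
    calc ‖inner ℝ (S x) y‖ ≤ ‖S x‖ * ‖y‖ := norm_inner_le_norm _ _
      _ ≤ ‖S‖ * ‖x‖ * ‖y‖ := by
        gcongr
        exact S.le_opNorm x) with hBf
  have hBfx : ∀ x y, Bf x y = inner ℝ (S x) y := fun x y => by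
    rw [hBf, LinearMap.mkContinuous₂_apply, hfx]
  have hco : IsCoercive Bf := by
    refine ⟨ε, hε, fun u => ?_⟩
    rw [hBfx, hSx, inner_add_left, inner_smul_left, real_inner_self_eq_norm_sq]
    have := hTpos u
    simp only [conj_trivial]
    nlinarith
  set e := hco.continuousLinearEquivOfBilin with he
  have hex : ∀ x, e x = S x := fun x => by
    apply ext_inner_right ℝ
    intro y
    rw [he, hco.continuousLinearEquivOfBilin_apply, hBfx]
  set B : H →L[ℝ] H := (e.symm : H →L[ℝ] H) with hB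
  have hBS : ∀ x, B (S x) = x := fun x => by
    rw [← hex]; simp [hB]
  have hSB : ∀ x, S (B x) = x := fun x => by
    rw [← hex]; simp [hB]
  have hST : ∀ x, S (T x) = T (S x) := fun x => by
    rw [hSx, hSx, map_add, map_smul]
  have hcomm : ∀ x, B (T x) = T (B x) := fun x => by
    have h1 : T x = S (T (B x)) := by rw [hST, hSB]
    rw [h1, hBS]
  have hSsym : ∀ x y, inner ℝ (S x) y = inner ℝ x (S y) := fun x y => by
    rw [hSx, hSx, inner_add_left, inner_add_right, hsym, inner_smul_left, inner_smul_right]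
    simp
  refine ⟨B, ⟨?_, hcomm, ⟨?_, ?_⟩, ?_⟩⟩
  · intro x
    rw [← map_smul, ← map_add, ← hSx, hBS]
  · intro x y
    have h1 : inner ℝ (B x) y = inner ℝ (B x) (S (B y)) := by rw [hSB]
    rw [h1, ← hSsym, hSB]
  · intro x
    set y := B x with hy
    have hx : x = T y + ε • y := by rw [← hSx, hy, hSB]
    have h1 : inner ℝ y x = inner ℝ (T y) y + ε * ‖y‖ ^ 2 := by
      rw [hx, inner_add_right, inner_smul_right, real_inner_self_eq_norm_sq, ← hsym]
    have h2 : ‖x‖ ^ 2 ≤ 2 * ‖T y‖ ^ 2 + 2 * ε ^ 2 * ‖y‖ ^ 2 := by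
      have h3 : ‖x‖ ≤ ‖T y‖ + ε * ‖y‖ := by
        rw [hx]
        calc ‖T y + ε • y‖ ≤ ‖T y‖ + ‖ε • y‖ := norm_add_le _ _
          _ = _ := by rw [norm_smul, Real.norm_of_nonneg hε.le]
      have h4 : ‖x‖ ^ 2 ≤ (‖T y‖ + ε * ‖y‖) ^ 2 := by
        apply pow_le_pow_left₀ (norm_nonneg _) h3
      nlinarith [sq_nonneg (‖T y‖ - ε * ‖y‖)]
    rw [h1]
    have h5 := hpos y
    have h6 := hTpos y
    have h7 : ‖T y‖ ^ 2 ≤ inner ℝ (T y) y / b := by
      rw [le_div_iff₀ hb]; linarith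
    have h8 : ε ^ 2 * ‖y‖ ^ 2 ≤ ε * ‖y‖ ^ 2 := by
      have : ε ^ 2 ≤ ε := by nlinarith
      exact mul_le_mul_of_nonneg_right this (sq_nonneg _)
    rw [one_div, inv_mul_le_iff₀ (by positivity)]
    have h9 : 0 ≤ ε * ‖y‖ ^ 2 := by positivity
    have h10 : 0 ≤ 2 / b * (ε * ‖y‖ ^ 2) := by positivity
    have h11 : 2 / b * inner ℝ (T y) y = 2 * (inner ℝ (T y) y / b) := by ring
    nlinarith
  · intro x
    rw [hcomm]
    set y := B x with hy
    have hx : x = T y + ε • y := by rw [← hSx, hy, hSB]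
    have h1 : ‖x‖ ^ 2 = ‖T y‖ ^ 2 + 2 * ε * inner ℝ (T y) y + ε ^ 2 * ‖y‖ ^ 2 := by
      rw [hx, norm_add_sq_real, inner_smul_right, norm_smul, Real.norm_of_nonneg hε.le]
      ring
    have h2 : ‖T y‖ ^ 2 ≤ ‖x‖ ^ 2 := by
      rw [h1]
      have := hTpos y
      have h3 : 0 ≤ 2 * ε * inner ℝ (T y) y := by positivity
      have h4 : 0 ≤ ε ^ 2 * ‖y‖ ^ 2 := by positivity
      linarith
    exact le_of_sq_le_sq h2 (norm_nonneg _) |> fun h => h

end Pool.Agent.X226.DW
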