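import Pool.Agent.X26.LF.Stm

set_option autoImplicit false

namespace Pool.Agent.X226.LF

open Finset Pool.Agent.X26.LF
open scoped Classical

theorem t_SM : S_CNT → S_SM := by
  intro hC m p N _ u s hm hu hT
  have hp0 : 0 < p := (Fact.out : p.Prime).pos
  set coef : (Fin m ↪ Fin N) → Fin N → ZMod p := fun ι i => ∑ j, if ι j = i then u j else 0
    with hcoef
  have hform : ∀ (ι : Fin m ↪ Fin N) (x : Fin N → ZMod p),
      ∑ i, coef ι i * x i = ∑ j, u j * x (ι j) := by
    intro ι x
    simp only [hcoef, Finset.sum_mul]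
    rw [Finset.sum_comm]
    apply Finset.sum_congr rfl
    intro j _
    rw [Finset.sum_eq_single (ι j)]
    · rw [if_pos rfl]
    · intro i _ hi; rw [if_neg (Ne.symm hi), zero_mul]
    · intro h; exact absurd (Finset.mem_univ _) h
  have hat : ∀ (ι : Fin m ↪ Fin N) (j : Fin m), coef ι (ι j) = u j := by
    intro ι j
    simp only [hcoef]
    rw [Finset.sum_eq_single j]
    · rw [if_pos rfl]
    · intro i _ hi; rw [if_neg (fun h => hi (ι.injective h))]
    · intro h; exact absurd (Finset.mem_univ _) h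
  have hoff : ∀ (ι : Fin m ↪ Fin N) (i : Fin N), (¬ ∃ j, ι j = i) → coef ι i = 0 := by
    intro ι i hi
    simp only [hcoef]
    apply Finset.sum_eq_zero
    intro j _
    rw [if_neg (fun h => hi ⟨j, h⟩)]
  have hne : ∀ ι, coef ι ≠ 0 := by
    intro ι h
    have h1 := hat ι ⟨0, hm⟩
    rw [h] at h1
    exact hu _ h1.symm
  set I : (Fin m ↪ Fin N) → (Fin N → ZMod p) → ℝ := fun ι x =>
    if ∑ j, u j * x (ι j) = s then 1 else 0 with hI
  have hsum1 : ∀ ι, (p : ℝ) * ∑ x, I ι x = (p : ℝ) ^ N := by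
    intro ι
    have h1 := (hC p N (coef ι) (coef ι) s s (hne ι)).1
    simp only [hform] at h1
    have h2 : ∑ x, I ι x = ((univ.filter fun x : Fin N → ZMod p => ∑ j, u j * x (ι j) = s).card : ℝ) := by
      rw [Finset.card_filter]; push_cast; rfl
    rw [h2]
    have h3 : ((p * (univ.filter fun x : Fin N → ZMod p => ∑ j, u j * x (ι j) = s).card : ℕ) : ℝ) =
        ((p ^ N : ℕ) : ℝ) := by
      rw [← h1]
    push_cast at h3
    exact h3
  have hsum2 : ∀ ι ι' : Fin m ↪ Fin N, Set.range ι ≠ Set.range ι' →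
      (p : ℝ) ^ 2 * ∑ x, I ι x * I ι' x = (p : ℝ) ^ N := by
    intro ι ι' hr
    have hind : ¬ ∃ l, coef ι' = fun i => l * coef ι i := by
      rintro ⟨l, hl⟩
      -- there is i in range ι' outside range ι
      have hex : ∃ i, (∃ j, ι' j = i) ∧ ¬ ∃ j, ι j = i := by
        by_contra hcon
        push Not at hcon
        apply hr
        have hsub : Set.range ι' ⊆ Set.range ι := by
          rintro i ⟨j, rfl⟩
          exact hcon _ ⟨j, rfl⟩
        have hsub2 : (univ.image ι') ⊆ (univ.image ι) := by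
          intro i hi
          rw [Finset.mem_image] at hi ⊢
          obtain ⟨j, _, hj⟩ := hi
          obtain ⟨k, hk⟩ := hsub ⟨j, hj⟩
          exact ⟨k, Finset.mem_univ _, hk⟩
        have hc : (univ.image ι').card = (univ.image ι).card := by
          rw [Finset.card_image_of_injective _ ι'.injective, Finset.card_image_of_injective _ ι.injective]
        have heq := Finset.eq_of_subset_of_card_le hsub2 hc.symm.le
        ext i
        have := Finset.ext_iff.1 heq i
        simp only [Finset.mem_image, Finset.mem_univ, true_and] at this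
        simp only [Set.mem_range]
        exact this.symm
      obtain ⟨i, ⟨j, hj⟩, hi⟩ := hex
      have h1 := congrFun hl i
      rw [hoff ι i hi, mul_zero, ← hj, hat] at h1
      exact hu _ h1
    have h1 := (hC p N (coef ι) (coef ι') s s (hne ι)).2 hind
    simp only [hform] at h1
    have h2 : ∑ x, I ι x * I ι' x = ((univ.filter fun x : Fin N → ZMod p =>
        ∑ j, u j * x (ι j) = s ∧ ∑ j, u j * x (ι' j) = s).card : ℝ) := by
      rw [Finset.card_filter]; push_cast
      apply Finset.sum_congr rfl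
      intro x _
      simp only [hI]
      by_cases c1 : ∑ j, u j * x (ι j) = s <;> by_cases c2 : ∑ j, u j * x (ι' j) = s <;> simp [c1, c2]
    rw [h2]
    have h3 : ((p ^ 2 * (univ.filter fun x : Fin N → ZMod p =>
        ∑ j, u j * x (ι j) = s ∧ ∑ j, u j * x (ι' j) = s).card : ℕ) : ℝ) = ((p ^ N : ℕ) : ℝ) := by
      rw [← h1]
    push_cast at h3
    exact h3
  have hI0 : ∀ ι x, 0 ≤ I ι x := by
    intro ι x; simp only [hI]; split_ifs <;> norm_num
  have hI1 : ∀ ι x, I ι x ≤ 1 := by
    intro ι x; simp only [hI]; split_ifs <;> norm_num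
  have hpR : (0 : ℝ) < p := by exact_mod_cast hp0
  set T : ℝ := (N.descFactorial m : ℝ) with hTd
  have hcardE : ((univ : Finset (Fin m ↪ Fin N)).card : ℝ) = T := by
    rw [Finset.card_univ, Fintype.card_embedding_eq, Fintype.card_fin, Fintype.card_fin]
  have hpair : ∀ ι ι' : Fin m ↪ Fin N, (p : ℝ) ^ 2 * ∑ x, I ι x * I ι' x ≤
      (p : ℝ) ^ N + (if Set.range ι' = Set.range ι then (p : ℝ) * (p : ℝ) ^ N else 0) := by
    intro ι ι'
    by_cases h : Set.range ι' = Set.range ι
    · rw [if_pos h]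
      have h1 : ∑ x, I ι x * I ι' x ≤ ∑ x, I ι x := by
        apply Finset.sum_le_sum
        intro x _
        have := hI0 ι x
        have := hI1 ι' x
        nlinarith
      have h2 := hsum1 ι
      have h3 : (p : ℝ) ^ 2 * ∑ x, I ι x * I ι' x ≤ (p : ℝ) * ((p : ℝ) * ∑ x, I ι x) := by
        have : 0 < (p : ℝ) ^ 2 := by positivity
        nlinarith
      rw [h2] at h3
      have : (0 : ℝ) ≤ (p : ℝ) ^ N := by positivity
      linarith
    · rw [if_neg h, hsum2 ι ι' (fun h' => h h'.symm), add_zero]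
  have hperm : ∀ ι : Fin m ↪ Fin N, ((univ.filter fun ι' : Fin m ↪ Fin N =>
      Set.range ι' = Set.range ι).card : ℝ) ≤ (m.factorial : ℝ) := by
    intro ι
    have hsub : (univ.filter fun ι' : Fin m ↪ Fin N => Set.range ι' = Set.range ι) ⊆
        (univ : Finset (Equiv.Perm (Fin m))).image (fun σ => σ.toEmbedding.trans ι) := by
      intro ι' hι'
      have hr := (Finset.mem_filter.1 hι').2
      have hch : ∀ j, ∃ k, ι k = ι' j := by
        intro j
        have : ι' j ∈ Set.range ι := by rw [← hr]; exact ⟨j, rfl⟩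
        exact this
      choose g hg using hch
      have hginj : Function.Injective g := by
        intro a b hab
        apply ι'.injective
        rw [← hg a, ← hg b, hab]
      rw [Finset.mem_image]
      refine ⟨Equiv.ofBijective g (Finite.injective_iff_bijective.1 hginj), Finset.mem_univ _, ?_⟩
      ext j
      simp [hg]
    have h1 := (Finset.card_le_card hsub).trans Finset.card_image_le
    rw [Finset.card_univ, Fintype.card_perm, Fintype.card_fin] at h1
    exact_mod_cast h1
  -- moments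
  set X : (Fin N → ZMod p) → ℝ := fun x => ∑ ι, I ι x with hX
  have hM1 : (p : ℝ) * ∑ x, X x = T * (p : ℝ) ^ N := by
    simp only [hX]
    rw [Finset.sum_comm, Finset.mul_sum, Finset.sum_congr rfl (fun ι _ => hsum1 ι), Finset.sum_const,
      nsmul_eq_mul, hcardE]
  have hM2 : (p : ℝ) ^ 2 * ∑ x, X x ^ 2 ≤ (T ^ 2 + T * m.factorial * p) * (p : ℝ) ^ N := by
    have h1 : ∑ x, X x ^ 2 = ∑ ι, ∑ ι', ∑ x, I ι x * I ι' x := by
      have : ∀ x, X x ^ 2 = ∑ ι, ∑ ι', I ι x * I ι' x := by
        intro x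
        simp only [hX, sq, Finset.sum_mul_sum]
      simp only [this]
      rw [Finset.sum_comm]
      apply Finset.sum_congr rfl
      intro ι _
      rw [Finset.sum_comm]
    rw [h1, Finset.mul_sum]
    have h2 : ∀ ι : Fin m ↪ Fin N, (p : ℝ) ^ 2 * ∑ ι', ∑ x, I ι x * I ι' x ≤
        T * (p : ℝ) ^ N + m.factorial * ((p : ℝ) * (p : ℝ) ^ N) := by
      intro ι
      rw [Finset.mul_sum]
      calc ∑ ι', (p : ℝ) ^ 2 * ∑ x, I ι x * I ι' x ≤ ∑ ι' : Fin m ↪ Fin N, ((p : ℝ) ^ N +
            (if Set.range ι' = Set.range ι then (p : ℝ) * (p : ℝ) ^ N else 0)) :=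
            Finset.sum_le_sum (fun ι' _ => hpair ι ι')
        _ = T * (p : ℝ) ^ N + ((univ.filter fun ι' : Fin m ↪ Fin N =>
            Set.range ι' = Set.range ι).card : ℝ) * ((p : ℝ) * (p : ℝ) ^ N) := by
            rw [Finset.sum_add_distrib, Finset.sum_const, nsmul_eq_mul, hcardE, ← Finset.sum_filter,
              Finset.sum_const, nsmul_eq_mul]
        _ ≤ _ := by
            have := hperm ι
            have h0 : (0 : ℝ) ≤ (p : ℝ) * (p : ℝ) ^ N := by positivity
            nlinarith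
    calc ∑ ι, (p : ℝ) ^ 2 * ∑ ι', ∑ x, I ι x * I ι' x ≤ ∑ _ι : Fin m ↪ Fin N,
          (T * (p : ℝ) ^ N + m.factorial * ((p : ℝ) * (p : ℝ) ^ N)) :=
          Finset.sum_le_sum (fun ι _ => h2 ι)
      _ = _ := by
          rw [Finset.sum_const, nsmul_eq_mul, hcardE]; ring
  set G := univ.filter fun x : Fin N → ZMod p => ∃ ι : Fin m ↪ Fin N, ∑ j, u j * x (ι j) = s with hG
  have hXG : ∑ x, X x = ∑ x ∈ G, X x := by
    symm
    apply Finset.sum_subset (Finset.subset_univ _)
    intro x _ hx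
    simp only [hX]
    apply Finset.sum_eq_zero
    intro ι _
    simp only [hI]
    rw [if_neg]
    intro h
    exact hx (Finset.mem_filter.2 ⟨Finset.mem_univ _, ι, h⟩)
  have hCS : (∑ x, X x) ^ 2 ≤ (G.card : ℝ) * ∑ x, X x ^ 2 := by
    rw [hXG]
    calc (∑ x ∈ G, X x) ^ 2 ≤ (G.card : ℝ) * ∑ x ∈ G, X x ^ 2 := sq_sum_le_card_mul_sum_sq
      _ ≤ _ := by
        apply mul_le_mul_of_nonneg_left _ (Nat.cast_nonneg _)
        apply Finset.sum_le_sum_of_subset_of_nonneg (Finset.subset_univ _)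
        intro x _ _
        positivity
  have hTpos : 0 < T := by
    have h1 : 0 < N.descFactorial m := by
      have : 0 < 8 * m.factorial * p := by
        have := m.factorial_pos
        positivity
      omega
    rw [hTd]; exact_mod_cast h1
  have hT' : 8 * (m.factorial : ℝ) * p ≤ T := by
    rw [hTd]; exact_mod_cast hT
  have hPN : (0 : ℝ) < (p : ℝ) ^ N := by positivity
  have key : T * (p : ℝ) ^ N ≤ (G.card : ℝ) * (T + m.factorial * p) := by
    have h1 : (T * (p : ℝ) ^ N) ^ 2 ≤ (G.card : ℝ) * ((T ^ 2 + T * m.factorial * p) * (p : ℝ) ^ N) := by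
      calc (T * (p : ℝ) ^ N) ^ 2 = (p : ℝ) ^ 2 * (∑ x, X x) ^ 2 := by rw [← hM1]; ring
        _ ≤ (p : ℝ) ^ 2 * ((G.card : ℝ) * ∑ x, X x ^ 2) := by
          apply mul_le_mul_of_nonneg_left hCS (by positivity)
        _ = (G.card : ℝ) * ((p : ℝ) ^ 2 * ∑ x, X x ^ 2) := by ring
        _ ≤ _ := mul_le_mul_of_nonneg_left hM2 (Nat.cast_nonneg _)
    have h2 : (T * (p : ℝ) ^ N) * (T * (p : ℝ) ^ N) ≤ (T * (p : ℝ) ^ N) * ((G.card : ℝ) * (T + m.factorial * p)) := by
      calc (T * (p : ℝ) ^ N) * (T * (p : ℝ) ^ N) = (T * (p : ℝ) ^ N) ^ 2 := by ring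
        _ ≤ _ := h1
        _ = _ := by ring
    exact le_of_mul_le_mul_left h2 (by positivity)
  -- complement
  have hcompl : ((univ.filter fun x : Fin N → ZMod p =>
      ¬ ∃ ι : Fin m ↪ Fin N, ∑ j, u j * x (ι j) = s).card : ℝ) + (G.card : ℝ) = (p : ℝ) ^ N := by
    have h1 := Finset.card_filter_add_card_filter_not (s := (univ : Finset (Fin N → ZMod p)))
      (fun x => ∃ ι : Fin m ↪ Fin N, ∑ j, u j * x (ι j) = s)
    have h2 : (univ : Finset (Fin N → ZMod p)).card = p ^ N := by
      rw [Finset.card_univ, Fintype.card_fun, ZMod.card, Fintype.card_fin]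
    rw [h2] at h1
    rw [hG]
    have h3 := congrArg (fun n : ℕ => (n : ℝ)) h1
    push_cast at h3
    rw [add_comm]
    convert h3 using 2
  set Z : ℝ := ((univ.filter fun x : Fin N → ZMod p =>
      ¬ ∃ ι : Fin m ↪ Fin N, ∑ j, u j * x (ι j) = s).card : ℝ) with hZ
  have hZ0 : 0 ≤ Z := Nat.cast_nonneg _
  have hfin : 8 * Z ≤ (p : ℝ) ^ N := by
    have hGe : (G.card : ℝ) = (p : ℝ) ^ N - Z := by linarith
    rw [hGe] at key
    have hmp : 0 ≤ (m.factorial : ℝ) * p := by positivity
    have h1 : Z * T ≤ (p : ℝ) ^ N * (m.factorial * p) := by nlinarith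
    have h2 : 8 * Z * T ≤ (p : ℝ) ^ N * T := by nlinarith
    exact le_of_mul_le_mul_right h2 hTpos
  have : ((8 * (univ.filter fun x : Fin N → ZMod p =>
      ¬ ∃ ι : Fin m ↪ Fin N, ∑ j, u j * x (ι j) = s).card : ℕ) : ℝ) ≤ ((p ^ N : ℕ) : ℝ) := by
    push_cast; exact hfin
  exact_mod_cast this

end Pool.Agent.X226.LF
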