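import Mathlib

open Finset Filter Topology

universe u

namespace Pool.Agent.X226.MinGrowth

/-- `IsNB G ℓ w` : the sequence `w 0, …, w ℓ` is a non-backtracking walk of length `ℓ` in `G`. -/
def IsNB {V : Type u} (G : SimpleGraph V) (ℓ : ℕ) (w : Fin (ℓ + 1) → V) : Prop :=
  (∀ i j : Fin (ℓ + 1), (j : ℕ) = i + 1 → G.Adj (w i) (w j)) ∧
  (∀ i j : Fin (ℓ + 1), (j : ℕ) = i + 2 → w i ≠ w j)

/-- The number of non-backtracking walks of length `ℓ` in `G`. -/
noncomputable def omega {V : Type u} (G : SimpleGraph V) (ℓ : ℕ) : ℕ :=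
  Nat.card {w : Fin (ℓ + 1) → V // IsNB G ℓ w}

section core

variable {V : Type u} [Fintype V] [DecidableEq V] (G : SimpleGraph V) [DecidableRel G.Adj]

/-- number of non-backtracking continuations by `ℓ` steps of the directed edge `(x,y)` -/
def nbN : ℕ → V → V → ℕ
  | 0, _, _ => 1
  | ℓ + 1, x, y => ∑ z ∈ (G.neighborFinset y).erase x, nbN ℓ y z

theorem log_step {ι : Type*} (s : Finset ι) (f n : ι → ℝ) (p : ℝ) (hf : ∀ i ∈ s, 0 < f i)
    (hn : ∀ i ∈ s, 0 < n i) (hp : 0 < p) (hs : ∑ i ∈ s, f i = p) :
    ∑ i ∈ s, (f i * Real.log (n i) + f i * Real.log (p / f i)) ≤ p * Real.log (∑ i ∈ s, n i) := by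
  have hne : s.Nonempty := by
    by_contra h
    rw [Finset.not_nonempty_iff_eq_empty] at h
    subst h
    simp at hs
    linarith
  have hN : 0 < ∑ i ∈ s, n i := Finset.sum_pos hn hne
  set N := ∑ i ∈ s, n i with hNdef
  have key : ∀ i ∈ s, f i * Real.log (n i) + f i * Real.log (p / f i) - f i * Real.log N
      ≤ n i * p / N - f i := by
    intro i hi
    have h1 := hf i hi
    have h2 := hn i hi
    have h3 : Real.log (n i * p / (f i * N)) ≤ n i * p / (f i * N) - 1 :=
      Real.log_le_sub_one_of_pos (by positivity)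
    have h4 : Real.log (n i * p / (f i * N)) = Real.log (n i) + Real.log (p / f i) - Real.log N := by
      rw [Real.log_div (by positivity) (by positivity), Real.log_mul (by positivity) (by positivity),
        Real.log_mul (by positivity) (by positivity), Real.log_div (by positivity) (by positivity)]
      ring
    have h5 : f i * (n i * p / (f i * N) - 1) = n i * p / N - f i := by
      field_simp
    calc f i * Real.log (n i) + f i * Real.log (p / f i) - f i * Real.log N
        = f i * (Real.log (n i * p / (f i * N))) := by rw [h4]; ring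
      _ ≤ f i * (n i * p / (f i * N) - 1) := mul_le_mul_of_nonneg_left h3 h1.le
      _ = _ := h5
  have hsum := Finset.sum_le_sum key
  rw [Finset.sum_sub_distrib, Finset.sum_sub_distrib, hs, ← Finset.sum_mul, hs,
    ← Finset.sum_div, ← Finset.sum_mul, ← hNdef] at hsum
  have : N * p / N = p := by field_simp
  rw [this] at hsum
  linarith

theorem nbN_pos (hne : ∀ x y, G.Adj x y → ((G.neighborFinset y).erase x).Nonempty) (ℓ : ℕ) :
    ∀ x y, G.Adj x y → 0 < nbN G ℓ x y := by
  induction ℓ with
  | zero => intro x y _; simp [nbN]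
  | succ ℓ ih =>
    intro x y h
    simp only [nbN]
    apply Finset.sum_pos _ (hne x y h)
    intro z hz
    apply ih
    simpa using (Finset.mem_of_mem_erase hz)

theorem flow_bound (p : V → V → ℝ) (f : V → V → V → ℝ)
    (hsymm : ∀ x y, p x y = p y x)
    (hp : ∀ x y, G.Adj x y → 0 < p x y)
    (hf : ∀ x y z, G.Adj x y → G.Adj y z → x ≠ z → 0 < f x y z)
    (hfs : ∀ x y z, f x y z = f z y x)
    (hsum : ∀ x y, G.Adj x y → ∑ z ∈ (G.neighborFinset y).erase x, f x y z = p x y) (ℓ : ℕ) :
    ℓ * (∑ y, ∑ x ∈ G.neighborFinset y, ∑ z ∈ (G.neighborFinset y).erase x,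
        f x y z * Real.log (p x y / f x y z)) ≤
      ∑ y, ∑ x ∈ G.neighborFinset y, p x y * Real.log (nbN G ℓ x y) := by
  have hne : ∀ x y, G.Adj x y → ((G.neighborFinset y).erase x).Nonempty := by
    intro x y h
    by_contra h'
    rw [Finset.not_nonempty_iff_eq_empty] at h'
    have h1 := hsum x y h
    rw [h'] at h1
    simp at h1
    have := hp x y h
    linarith
  induction ℓ with
  | zero => simp [nbN]
  | succ ℓ ih =>
    have step : ∀ y, ∀ x ∈ G.neighborFinset y,
        ∑ z ∈ (G.neighborFinset y).erase x, f x y z * Real.log (nbN G ℓ y z)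
        + ∑ z ∈ (G.neighborFinset y).erase x, f x y z * Real.log (p x y / f x y z)
        ≤ p x y * Real.log (nbN G (ℓ + 1) x y) := by
      intro y x hx
      have hxy : G.Adj x y := by
        rw [SimpleGraph.mem_neighborFinset] at hx
        exact hx.symm
      have := log_step ((G.neighborFinset y).erase x) (fun z => f x y z)
        (fun z => (nbN G ℓ y z : ℝ)) (p x y)
        (by
          intro z hz
          rw [Finset.mem_erase, SimpleGraph.mem_neighborFinset] at hz
          exact hf x y z hxy hz.2 (Ne.symm hz.1))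
        (by
          intro z hz
          rw [Finset.mem_erase, SimpleGraph.mem_neighborFinset] at hz
          exact_mod_cast nbN_pos G hne ℓ y z hz.2)
        (hp x y hxy) (hsum x y hxy)
      rw [Finset.sum_add_distrib] at this
      simp only [nbN]
      push_cast
      exact this
    have h1 : ∑ y, ∑ x ∈ G.neighborFinset y,
        (∑ z ∈ (G.neighborFinset y).erase x, f x y z * Real.log (nbN G ℓ y z)
        + ∑ z ∈ (G.neighborFinset y).erase x, f x y z * Real.log (p x y / f x y z))
        ≤ ∑ y, ∑ x ∈ G.neighborFinset y, p x y * Real.log (nbN G (ℓ + 1) x y) :=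
      Finset.sum_le_sum fun y _ => Finset.sum_le_sum fun x hx => step y x hx
    simp only [Finset.sum_add_distrib] at h1
    have h2 : ∑ y, ∑ x ∈ G.neighborFinset y,
        ∑ z ∈ (G.neighborFinset y).erase x, f x y z * Real.log (nbN G ℓ y z)
        = ∑ y, ∑ x ∈ G.neighborFinset y, p x y * Real.log (nbN G ℓ x y) := by
      have h3 : ∀ y, ∑ x ∈ G.neighborFinset y,
          ∑ z ∈ (G.neighborFinset y).erase x, f x y z * Real.log (nbN G ℓ y z)
          = ∑ z ∈ G.neighborFinset y, p y z * Real.log (nbN G ℓ y z) := by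
        intro y
        rw [Finset.sum_comm' (t' := G.neighborFinset y)
          (s' := fun z => (G.neighborFinset y).erase z)]
        · apply Finset.sum_congr rfl
          intro z hz
          rw [← Finset.sum_mul]
          congr 1
          rw [SimpleGraph.mem_neighborFinset] at hz
          rw [← hsymm z y, ← hsum z y hz.symm]
          apply Finset.sum_congr rfl
          intro x _
          exact hfs x y z
        · intro x z
          simp only [Finset.mem_erase]
          tauto
      simp only [h3]
      rw [Finset.sum_comm' (t' := Finset.univ) (s' := fun z => G.neighborFinset z)]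
      intro x z
      simp only [Finset.mem_univ, SimpleGraph.mem_neighborFinset, true_and, and_true]
      exact G.adj_comm x z
    rw [h2] at h1
    push_cast
    linarith

/-- from the entropy inequality to a lower bound for the number of walks -/
theorem exists_large (p : V → V → ℝ) (f : V → V → V → ℝ) (lam : ℝ)
    (hsymm : ∀ x y, p x y = p y x)
    (hp : ∀ x y, G.Adj x y → 0 < p x y)
    (hf : ∀ x y z, G.Adj x y → G.Adj y z → x ≠ z → 0 < f x y z)
    (hfs : ∀ x y z, f x y z = f z y x)
    (hsum : ∀ x y, G.Adj x y → ∑ z ∈ (G.neighborFinset y).erase x, f x y z = p x y)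
    (hex : ∃ x y, G.Adj x y)
    (hH : lam * (∑ y, ∑ x ∈ G.neighborFinset y, p x y) ≤
      ∑ y, ∑ x ∈ G.neighborFinset y, ∑ z ∈ (G.neighborFinset y).erase x,
        f x y z * Real.log (p x y / f x y z)) (ℓ : ℕ) :
    Real.exp lam ^ ℓ ≤ ((∑ y, ∑ x ∈ G.neighborFinset y, nbN G ℓ x y : ℕ) : ℝ) := by
  have hne : ∀ x y, G.Adj x y → ((G.neighborFinset y).erase x).Nonempty := by
    intro x y h
    by_contra h'
    rw [Finset.not_nonempty_iff_eq_empty] at h'
    have h1 := hsum x y h
    rw [h'] at h1
    simp at h1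
    have := hp x y h
    linarith
  have hb := flow_bound G p f hsymm hp hf hfs hsum ℓ
  have h1 : ∑ y, ∑ x ∈ G.neighborFinset y, p x y * (ℓ * lam) ≤
      ∑ y, ∑ x ∈ G.neighborFinset y, p x y * Real.log (nbN G ℓ x y) := by
    refine le_trans ?_ hb
    have : ∑ y, ∑ x ∈ G.neighborFinset y, p x y * (ℓ * lam)
        = ℓ * (lam * (∑ y, ∑ x ∈ G.neighborFinset y, p x y)) := by
      rw [Finset.mul_sum, Finset.mul_sum]
      apply Finset.sum_congr rfl
      intro y _
      rw [Finset.mul_sum, Finset.mul_sum]
      apply Finset.sum_congr rfl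
      intro x _
      ring
    rw [this]
    exact mul_le_mul_of_nonneg_left hH (Nat.cast_nonneg _)
  -- some dart is large
  obtain ⟨y, x, hxy, hle⟩ : ∃ y x, G.Adj x y ∧ ℓ * lam ≤ Real.log (nbN G ℓ x y) := by
    by_contra hcon
    push Not at hcon
    obtain ⟨x0, y0, h0⟩ := hex
    have hlt : ∑ y, ∑ x ∈ G.neighborFinset y, p x y * Real.log (nbN G ℓ x y) <
        ∑ y, ∑ x ∈ G.neighborFinset y, p x y * (ℓ * lam) := by
      apply Finset.sum_lt_sum
      · intro y _
        apply Finset.sum_le_sum
        intro x hx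
        rw [SimpleGraph.mem_neighborFinset] at hx
        exact mul_le_mul_of_nonneg_left (hcon y x hx.symm).le (hp x y hx.symm).le
      · refine ⟨y0, Finset.mem_univ _, ?_⟩
        apply Finset.sum_lt_sum
        · intro x hx
          rw [SimpleGraph.mem_neighborFinset] at hx
          exact mul_le_mul_of_nonneg_left (hcon y0 x hx.symm).le (hp x y0 hx.symm).le
        · refine ⟨x0, by rw [SimpleGraph.mem_neighborFinset]; exact h0.symm, ?_⟩
          exact mul_lt_mul_of_pos_left (hcon y0 x0 h0) (hp x0 y0 h0)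
    linarith
  have hpos : 0 < nbN G ℓ x y := nbN_pos G hne ℓ x y hxy
  have h2 : Real.exp lam ^ ℓ ≤ (nbN G ℓ x y : ℝ) := by
    rw [← Real.exp_nat_mul]
    have : (0 : ℝ) < nbN G ℓ x y := by exact_mod_cast hpos
    exact (Real.le_log_iff_exp_le this).1 hle
  refine le_trans h2 ?_
  have h3 : nbN G ℓ x y ≤ ∑ y, ∑ x ∈ G.neighborFinset y, nbN G ℓ x y := by
    calc nbN G ℓ x y ≤ ∑ x ∈ G.neighborFinset y, nbN G ℓ x y :=
          Finset.single_le_sum (f := fun x => nbN G ℓ x y) (fun _ _ => Nat.zero_le _)
            (by rw [SimpleGraph.mem_neighborFinset]; exact hxy.symm)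
      _ ≤ _ := Finset.single_le_sum
            (f := fun y => ∑ x ∈ G.neighborFinset y, nbN G ℓ x y) (fun _ _ => Nat.zero_le _)
            (Finset.mem_univ y)
  exact_mod_cast h3

end core

section numeric

noncomputable def phi (t : ℝ) : ℝ := t * Real.log t

noncomputable def Hloc (p q r : ℝ) : ℝ :=
  phi p + phi q + phi r - 2 * (phi ((p + q - r) / 2) + phi ((p + r - q) / 2) + phi ((q + r - p) / 2))

theorem Hloc_swap (p q r : ℝ) : Hloc p q r = Hloc q p r := by
  unfold Hloc
  rw [show p + q - r = q + p - r by ring]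
  ring

theorem Hloc_swap' (p q r : ℝ) : Hloc p q r = Hloc p r q := by
  unfold Hloc
  rw [show q + r - p = r + q - p by ring]
  ring

theorem phi_le {t u : ℝ} (ht : 0 < t) (h : Real.log t ≤ u) : phi t ≤ t * u :=
  mul_le_mul_of_nonneg_left h ht.le

theorem log85_up : Real.log (85/100) ≤ -1625/10000 := by
  have := Real.abs_log_sub_add_sum_range_le (x := 15/100) (by norm_num [abs_of_pos]) 6
  rw [abs_le] at this
  norm_num [Finset.sum_range_succ, abs_of_pos] at this
  norm_num
  linarith [this.2]

theorem log85_lo : -1626/10000 ≤ Real.log (85/100) := by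
  have := Real.abs_log_sub_add_sum_range_le (x := 15/100) (by norm_num [abs_of_pos]) 6
  rw [abs_le] at this
  norm_num [Finset.sum_range_succ, abs_of_pos] at this
  norm_num
  linarith [this.1]

theorem log_a0 : 12742/100000 ≤ Real.log (11359/10000) := by
  have := Real.abs_log_sub_add_sum_range_le (x := -1359/10000) (by rw [abs_lt]; norm_num) 7
  rw [abs_le] at this
  norm_num [Finset.sum_range_succ, abs_of_neg] at this
  norm_num
  linarith [this.1]

theorem log_a1 : Real.log (11360/10000) ≤ 12752/100000 := by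
  have := Real.abs_log_sub_add_sum_range_le (x := -1360/10000) (by rw [abs_lt]; norm_num) 7
  rw [abs_le] at this
  norm_num [Finset.sum_range_succ, abs_of_neg] at this
  norm_num
  linarith [this.2]

theorem log_1272 : Real.log (12720/10000) ≤ 24070/100000 := by
  have := Real.abs_log_sub_add_sum_range_le (x := -2720/10000) (by rw [abs_lt]; norm_num) 12
  rw [abs_le] at this
  norm_num [Finset.sum_range_succ, abs_of_neg] at this
  norm_num
  linarith [this.2]

theorem log_711 : Real.log (7110/10000) ≤ -34100/100000 := by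
  have := Real.abs_log_sub_add_sum_range_le (x := 2890/10000) (by rw [abs_lt]; norm_num) 10
  rw [abs_le] at this
  norm_num [Finset.sum_range_succ, abs_of_pos] at this
  norm_num
  linarith [this.2]

theorem log_1286 : Real.log (12860/10000) ≤ 25160/100000 := by
  have := Real.abs_log_sub_add_sum_range_le (x := -2860/10000) (by rw [abs_lt]; norm_num) 12
  rw [abs_le] at this
  norm_num [Finset.sum_range_succ, abs_of_neg] at this
  norm_num
  linarith [this.2]

theorem log_986 : Real.log (9860/10000) ≤ -1400/100000 := by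
  have := Real.abs_log_sub_add_sum_range_le (x := 140/10000) (by rw [abs_lt]; norm_num) 4
  rw [abs_le] at this
  norm_num [Finset.sum_range_succ, abs_of_pos] at this
  norm_num
  linarith [this.2]

theorem log_7141 : Real.log (7141/10000) ≤ -33670/100000 := by
  have := Real.abs_log_sub_add_sum_range_le (x := 2859/10000) (by rw [abs_lt]; norm_num) 10
  rw [abs_le] at this
  norm_num [Finset.sum_range_succ, abs_of_pos] at this
  norm_num
  linarith [this.2]

theorem log_11282 : Real.log (11282/10000) ≤ 12070/100000 := by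
  have := Real.abs_log_sub_add_sum_range_le (x := -1282/10000) (by rw [abs_lt]; norm_num) 6
  rw [abs_le] at this
  norm_num [Finset.sum_range_succ, abs_of_neg] at this
  norm_num
  linarith [this.2]

theorem log_115 : Real.log (11500/10000) ≤ 13980/100000 := by
  have := Real.abs_log_sub_add_sum_range_le (x := -1500/10000) (by rw [abs_lt]; norm_num) 7
  rw [abs_le] at this
  norm_num [Finset.sum_range_succ, abs_of_neg] at this
  norm_num
  linarith [this.2]

theorem log_7 : Real.log (7000/10000) ≤ -35660/100000 := by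
  have := Real.abs_log_sub_add_sum_range_le (x := 3000/10000) (by rw [abs_lt]; norm_num) 10
  rw [abs_le] at this
  norm_num [Finset.sum_range_succ, abs_of_pos] at this
  norm_num
  linarith [this.2]

/-- the parameters: `α`, `λ` with all the numerical facts that are used -/
structure Par (al lam : ℝ) : Prop where
  al0 : 11359/10000 ≤ al
  al1 : al ≤ 11360/10000
  hlog : Real.log al = 2 * Real.log 2 - 3 * lam
  hlog' : Real.log (1 - al / 2) = - 2 * lam

variable {al lam : ℝ}

theorem Par.lam0 (h : Par al lam) : 41959/100000 ≤ lam := by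
  have h1 := Real.log_le_log (by linarith [h.al0] : (0:ℝ) < al) h.al1
  rw [h.hlog] at h1
  linarith [log_a1, Real.log_two_gt_d9]

theorem Par.lam1 (h : Par al lam) : lam ≤ 41963/100000 := by
  have h1 := Real.log_le_log (by norm_num) h.al0
  rw [h.hlog] at h1
  linarith [log_a0, Real.log_two_lt_d9]

/-- the weight of an edge by its type (seen from a branch vertex) -/
noncomputable def P (al : ℝ) : Fin 3 → ℝ := ![al, 1, 85/100]

noncomputable def mu : ℝ := 4486/10000

noncomputable def Cc (al lam : ℝ) (i : Fin 3) : ℝ := ((i : ℕ) + 1) * (mu - lam * P al i)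

theorem log_half : Real.log (1/2) = - Real.log 2 := by
  rw [one_div, Real.log_inv]

theorem log_div_two' (t : ℝ) (ht : 0 < t) : Real.log (t / 2) = Real.log t - Real.log 2 :=
  Real.log_div ht.ne' (by norm_num)

theorem Par.loc111 (h : Par al lam) : 0 ≤ Hloc al al al - lam * (3 * al) - 2 * mu := by
  have a0 := h.al0
  have a1 := h.al1
  have l0 := h.lam0
  have l1 := h.lam1
  have L0 := Real.log_two_gt_d9
  have L1 := Real.log_two_lt_d9
  have e : Hloc al al al = 3 * (al * Real.log 2) := by
    unfold Hloc phi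
    rw [show (al + al - al) / 2 = al / 2 by ring, log_div_two' al (by linarith), h.hlog]
    ring
  rw [e]
  unfold mu
  nlinarith [mul_le_mul_of_nonneg_left l1 (by linarith : (0:ℝ) ≤ al),
    mul_le_mul_of_nonneg_left L0.le (by linarith : (0:ℝ) ≤ al)]

theorem Par.loc112 (h : Par al lam) : 0 ≤ Hloc al al 1 - lam * (2 * al + 2) - mu := by
  have a0 := h.al0
  have a1 := h.al1
  have l0 := h.lam0
  have l1 := h.lam1
  have L0 := Real.log_two_gt_d9
  have L1 := Real.log_two_lt_d9
  have u := log_1272
  have hu : Real.log (al - 1/2) ≤ Real.log (12720/10000) - Real.log 2 := by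
    rw [← log_div_two' _ (by norm_num)]
    exact Real.log_le_log (by linarith) (by linarith)
  have hu2 := phi_le (by linarith) (hu.trans (sub_le_sub_right u _))
  have e : Hloc al al 1 = 2 * (al * (2 * Real.log 2 - 3 * lam)) + 2 * Real.log 2
      - 2 * phi (al - 1/2) := by
    unfold Hloc
    rw [show (al + al - 1) / 2 = al - 1/2 by ring, show (al + 1 - al) / 2 = 1/2 by ring]
    unfold phi
    rw [h.hlog, log_half, Real.log_one]
    ring
  rw [e]
  unfold mu
  nlinarith [mul_le_mul_of_nonneg_left l1 (by linarith : (0:ℝ) ≤ al),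
    mul_le_mul_of_nonneg_left L0.le (by linarith : (0:ℝ) ≤ al)]

theorem Par.loc122 (h : Par al lam) : 0 ≤ Hloc al 1 1 - lam * (al + 4) := by
  have a0 := h.al0
  have a1 := h.al1
  have e : Hloc al 1 1 = lam * (al + 4) := by
    unfold Hloc phi
    rw [show (al + 1 - 1) / 2 = al / 2 by ring, show (1 + 1 - al) / 2 = 1 - al / 2 by ring,
      log_div_two' al (by linarith), h.hlog, h.hlog', Real.log_one]
    ring
  rw [e]
  simp

theorem Par.loc222 (h : Par al lam) : 0 ≤ Hloc 1 1 1 - lam * 6 + mu := by
  have l0 := h.lam0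
  have l1 := h.lam1
  have L0 := Real.log_two_gt_d9
  have L1 := Real.log_two_lt_d9
  have e : Hloc 1 1 1 = 3 * Real.log 2 := by
    unfold Hloc phi
    rw [show ((1:ℝ) + 1 - 1) / 2 = 1 / 2 by ring, log_half, Real.log_one]
    ring
  rw [e]
  unfold mu
  linarith

theorem Par.loc113 (h : Par al lam) :
    0 ≤ Hloc al al (85/100) - lam * (2 * al + 3 * (85/100)) := by
  have a0 := h.al0
  have a1 := h.al1
  have l0 := h.lam0
  have l1 := h.lam1
  have L0 := Real.log_two_gt_d9
  have L1 := Real.log_two_lt_d9
  have u := log_711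
  have hu : Real.log (al - 425/1000) ≤ Real.log (7110/10000) := 
    Real.log_le_log (by linarith) (by linarith)
  have hu2 := phi_le (by linarith) (hu.trans u)
  have g := log85_up
  have e : Hloc al al (85/100) = 2 * (al * (2 * Real.log 2 - 3 * lam)) 
      - 85/100 * Real.log (85/100) + 17/10 * Real.log 2
      - 2 * phi (al - 425/1000) := by
    unfold Hloc
    rw [show (al + al - 85/100) / 2 = al - 425/1000 by ring,
      show (al + 85/100 - al) / 2 = (85/100)/2 by ring]
    unfold phi
    rw [h.hlog, log_div_two' _ (by norm_num)]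
    ring
  rw [e]
  nlinarith [mul_le_mul_of_nonneg_left l1 (by linarith : (0:ℝ) ≤ al),
    mul_le_mul_of_nonneg_left L0.le (by linarith : (0:ℝ) ≤ al)]

theorem Par.loc123 (h : Par al lam) :
    0 ≤ Hloc al 1 (85/100) - lam * (al + 2 + 3 * (85/100)) + mu := by
  have a0 := h.al0
  have a1 := h.al1
  have l0 := h.lam0
  have l1 := h.lam1
  have L0 := Real.log_two_gt_d9
  have L1 := Real.log_two_lt_d9
  have hu1 : Real.log ((al + 15/100)/2) ≤ Real.log (12860/10000) - Real.log 2 := by
    rw [← log_div_two' _ (by norm_num)]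
    exact Real.log_le_log (by linarith) (by linarith)
  have hu1' := phi_le (by linarith) (hu1.trans (sub_le_sub_right log_1286 _))
  have hu2 : Real.log ((al - 15/100)/2) ≤ Real.log (9860/10000) - Real.log 2 := by
    rw [← log_div_two' _ (by norm_num)]
    exact Real.log_le_log (by linarith) (by linarith)
  have hu2' := phi_le (by linarith) (hu2.trans (sub_le_sub_right log_986 _))
  have hu3 : Real.log ((185/100 - al)/2) ≤ Real.log (7141/10000) - Real.log 2 := by
    rw [← log_div_two' _ (by norm_num)]
    exact Real.log_le_log (by linarith) (by linarith)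
  have hu3' := phi_le (by linarith) (hu3.trans (sub_le_sub_right log_7141 _))
  have g := log85_lo
  have e : Hloc al 1 (85/100) = al * (2 * Real.log 2 - 3 * lam)
      + 85/100 * Real.log (85/100)
      - 2 * (phi ((al + 15/100)/2) + phi ((al - 15/100)/2) + phi ((185/100 - al)/2)) := by
    unfold Hloc
    rw [show (al + 1 - 85/100) / 2 = (al + 15/100)/2 by ring,
      show (al + 85/100 - 1) / 2 = (al - 15/100)/2 by ring,
      show (1 + 85/100 - al) / 2 = (185/100 - al)/2 by ring]
    have : phi al = al * (2 * Real.log 2 - 3 * lam) := by unfold phi; rw [h.hlog]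
    rw [this]
    have : phi 1 = 0 := by unfold phi; simp
    rw [this]
    have : phi (85/100) = 85/100 * Real.log (85/100) := rfl
    rw [this]
    ring
  rw [e]
  unfold mu
  nlinarith [mul_le_mul_of_nonneg_left l1 (by linarith : (0:ℝ) ≤ al),
    mul_le_mul_of_nonneg_left L0.le (by linarith : (0:ℝ) ≤ al)]

theorem Par.loc133 (h : Par al lam) :
    0 ≤ Hloc al (85/100) (85/100) - lam * (al + 6 * (85/100)) + 2 * mu := by
  have a0 := h.al0
  have a1 := h.al1
  have l0 := h.lam0
  have l1 := h.lam1
  have L0 := Real.log_two_gt_d9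
  have L1 := Real.log_two_lt_d9
  have hu1 : Real.log ((85/100 - al/2)) ≤ Real.log (11282/10000) - Real.log 2 - Real.log 2 := by
    rw [← log_div_two' _ (by norm_num), ← log_div_two' _ (by norm_num)]
    exact Real.log_le_log (by linarith) (by linarith)
  have hu1' := phi_le (by linarith)
    (hu1.trans (sub_le_sub_right (sub_le_sub_right log_11282 _) _))
  have g := log85_lo
  have e : Hloc al (85/100) (85/100) = al * (2 * Real.log 2 - 3 * lam)
      + 17/10 * Real.log (85/100)
      - 2 * (al * (Real.log 2 - 3 * lam)) - 2 * phi (85/100 - al/2) := by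
    unfold Hloc
    rw [show (al + 85/100 - 85/100) / 2 = al/2 by ring,
      show (85/100 + 85/100 - al) / 2 = 85/100 - al/2 by ring]
    have : phi al = al * (2 * Real.log 2 - 3 * lam) := by unfold phi; rw [h.hlog]
    rw [this]
    have : phi (al/2) = al/2 * (Real.log 2 - 3 * lam) := by
      unfold phi; rw [log_div_two' _ (by linarith), h.hlog]; ring
    rw [this]
    have : phi (85/100) = 85/100 * Real.log (85/100) := rfl
    rw [this]
    ring
  rw [e]
  unfold mu
  nlinarith [mul_le_mul_of_nonneg_left l1 (by linarith : (0:ℝ) ≤ al),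
    mul_le_mul_of_nonneg_left L0.le (by linarith : (0:ℝ) ≤ al)]

theorem Par.loc223 (h : Par al lam) :
    0 ≤ Hloc 1 1 (85/100) - lam * (4 + 3 * (85/100)) + 2 * mu := by
  have l0 := h.lam0
  have l1 := h.lam1
  have L0 := Real.log_two_gt_d9
  have L1 := Real.log_two_lt_d9
  have g := log85_up
  have e : Hloc 1 1 (85/100) = - (85/100 * Real.log (85/100)) + 17/10 * Real.log 2
      - 115/100 * (Real.log (11500/10000) - Real.log 2) := by
    unfold Hloc
    rw [show ((1:ℝ) + 1 - 85/100) / 2 = (11500/10000)/2 by norm_num,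
      show ((1:ℝ) + 85/100 - 1) / 2 = (85/100)/2 by norm_num]
    unfold phi
    rw [log_div_two' _ (by norm_num), log_div_two' _ (by norm_num), Real.log_one]
    ring
  rw [e]
  unfold mu
  linarith [log_115]

theorem Par.loc233 (h : Par al lam) :
    0 ≤ Hloc 1 (85/100) (85/100) - lam * (2 + 6 * (85/100)) + 3 * mu := by
  have l0 := h.lam0
  have l1 := h.lam1
  have L0 := Real.log_two_gt_d9
  have L1 := Real.log_two_lt_d9
  have g := log85_lo
  have e : Hloc 1 (85/100) (85/100) = 17/10 * Real.log (85/100) + 2 * Real.log 2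
      - 7/10 * (Real.log (7000/10000) - Real.log 2) := by
    unfold Hloc
    rw [show ((1:ℝ) + 85/100 - 85/100) / 2 = 1/2 by norm_num,
      show ((85/100:ℝ) + 85/100 - 1) / 2 = (7000/10000)/2 by norm_num]
    unfold phi
    rw [log_half, log_div_two' (7000/10000) (by norm_num), Real.log_one]
    ring
  rw [e]
  unfold mu
  linarith [log_7]

theorem Par.loc333 (h : Par al lam) :
    0 ≤ Hloc (85/100) (85/100) (85/100) - lam * (9 * (85/100)) + 4 * mu := by
  have l0 := h.lam0
  have l1 := h.lam1
  have L0 := Real.log_two_gt_d9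
  have L1 := Real.log_two_lt_d9
  have e : Hloc (85/100) (85/100) (85/100) = 3 * (85/100) * Real.log 2 := by
    unfold Hloc
    rw [show ((85/100:ℝ) + 85/100 - 85/100) / 2 = (85/100)/2 by norm_num]
    unfold phi
    rw [log_div_two' _ (by norm_num)]
    ring
  rw [e]
  unfold mu
  linarith

theorem Par.loc_sorted (h : Par al lam) (i j k : Fin 3) (hij : i ≤ j) (hjk : j ≤ k) :
    5 * mu ≤ Hloc (P al i) (P al j) (P al k) + Cc al lam i + Cc al lam j + Cc al lam k := by
  fin_cases i <;> fin_cases j <;> fin_cases k <;> first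
    | (exfalso; revert hij hjk; decide)
    | (simp [P, Cc]
       first
         | linarith [h.loc111] | linarith [h.loc112] | linarith [h.loc113] | linarith [h.loc122]
         | linarith [h.loc123] | linarith [h.loc133] | linarith [h.loc222] | linarith [h.loc223]
         | linarith [h.loc233] | linarith [h.loc333])

theorem Par.loc (h : Par al lam) (i j k : Fin 3) :
    5 * mu ≤ Hloc (P al i) (P al j) (P al k) + Cc al lam i + Cc al lam j + Cc al lam k := by
  rcases le_total i j with h1 | h1 <;> rcases le_total j k with h2 | h2 <;>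
    rcases le_total i k with h3 | h3
  · exact h.loc_sorted i j k h1 h2
  · exact h.loc_sorted i j k h1 h2
  · have := h.loc_sorted i k j h3 h2
    rw [Hloc_swap'] ; linarith
  · have := h.loc_sorted k i j h3 h1
    rw [Hloc_swap', Hloc_swap]; linarith
  · have := h.loc_sorted j i k h1 h3
    rw [Hloc_swap]; linarith
  · have := h.loc_sorted j k i h2 h3
    rw [Hloc_swap, Hloc_swap']; linarith
  · have := h.loc_sorted k j i h2 h1
    rw [Hloc_swap, Hloc_swap', Hloc_swap]; linarith
  · have := h.loc_sorted k j i h2 h1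
    rw [Hloc_swap, Hloc_swap', Hloc_swap]; linarith

end numeric


section graph

set_option linter.unusedSectionVars false

variable {V : Type u} [Fintype V] [DecidableEq V] (G : SimpleGraph V) [DecidableRel G.Adj]

/-- `w` is the middle vertex of a suspended path of length two -/
def IsMid (w : V) : Prop := G.degree w = 2 ∧ ∀ z, G.Adj w z → G.degree z = 3

open Classical in
/-- edge weights -/
noncomputable def pw (al : ℝ) (u v : V) : ℝ :=
  if G.degree u = 3 ∧ G.degree v = 3 then al else if IsMid G u ∨ IsMid G v then 1 else 85/100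

open Classical in
/-- type of a neighbour of a branch vertex -/
noncomputable def ty (w : V) : Fin 3 :=
  if G.degree w = 3 then 0 else if IsMid G w then 1 else 2

noncomputable def SS (al : ℝ) (v : V) : ℝ := ∑ z ∈ G.neighborFinset v, pw G al z v

noncomputable def fl (al : ℝ) (x y z : V) : ℝ := pw G al x y + pw G al y z - SS G al y / 2

theorem pw_symm (al : ℝ) (u v : V) : pw G al u v = pw G al v u := by
  unfold pw
  split_ifs <;> first | rfl | (exfalso; tauto)

theorem pw_branch (al : ℝ) {v : V} (hv : G.degree v = 3) (w : V) :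
    pw G al w v = P al (ty G w) := by
  unfold pw ty
  have hM : ¬ IsMid G v := by
    intro h
    rw [h.1] at hv
    omega
  by_cases h1 : G.degree w = 3
  · simp [h1, hv, P]
  · by_cases h2 : IsMid G w
    · simp [h1, h2, P]
    · simp [h1, h2, hM, P]

open Classical in
theorem pw_two (al : ℝ) {w x : V} (hw : G.degree w = 2) (hx : G.Adj w x) :
    pw G al x w = if IsMid G w then 1 else 85/100 := by
  unfold pw
  have hM : ¬ IsMid G x := by
    intro h
    have := h.2 w hx.symm
    omega
  simp [hw, hM]

variable {G}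

theorem P_bounds {al lam : ℝ} (h : Par al lam) (i : Fin 3) :
    85/100 ≤ P al i ∧ P al i ≤ 1136/1000 := by
  have h1 := h.al0
  have h2 := h.al1
  fin_cases i
  · simp only [P]; exact ⟨by simp; linarith, by simp; linarith⟩
  · simp only [P]; exact ⟨by simp; norm_num, by simp; norm_num⟩
  · simp only [P]; exact ⟨by simp, by simp; norm_num⟩

theorem pw_pos {al lam : ℝ} (h : Par al lam) (u v : V) : 0 < pw G al u v := by
  unfold pw
  have h1 := h.al0
  split_ifs <;> linarith

/-- structure of a branch vertex -/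
theorem branch_nbr {v : V} (hv : G.degree v = 3) :
    ∃ a b c, a ≠ b ∧ a ≠ c ∧ b ≠ c ∧ G.neighborFinset v = {a, b, c} := by
  rw [← SimpleGraph.card_neighborFinset_eq_degree] at hv
  exact Finset.card_eq_three.1 hv

theorem two_nbr {v : V} (hv : G.degree v = 2) :
    ∃ a b, a ≠ b ∧ G.neighborFinset v = {a, b} := by
  rw [← SimpleGraph.card_neighborFinset_eq_degree] at hv
  exact Finset.card_eq_two.1 hv

theorem erase1 {a b c : V} (hab : a ≠ b) (hac : a ≠ c) : ({a, b, c} : Finset V).erase a = {b, c} := by
  ext t; simp only [Finset.mem_erase, Finset.mem_insert, Finset.mem_singleton]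
  constructor
  · rintro ⟨h1, h2⟩; tauto
  · rintro (h | h) <;> subst h
    · exact ⟨hab.symm, by simp⟩
    · exact ⟨hac.symm, by simp⟩

theorem erase2 {a b c : V} (hab : a ≠ b) (hbc : b ≠ c) : ({a, b, c} : Finset V).erase b = {a, c} := by
  ext t; simp only [Finset.mem_erase, Finset.mem_insert, Finset.mem_singleton]
  constructor
  · rintro ⟨h1, h2⟩; tauto
  · rintro (h | h) <;> subst h
    · exact ⟨hab, by simp⟩
    · exact ⟨hbc.symm, by simp⟩

theorem erase3 {a b c : V} (hac : a ≠ c) (hbc : b ≠ c) : ({a, b, c} : Finset V).erase c = {a, b} := by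
  ext t; simp only [Finset.mem_erase, Finset.mem_insert, Finset.mem_singleton]
  constructor
  · rintro ⟨h1, h2⟩; tauto
  · rintro (h | h) <;> subst h
    · exact ⟨hac, by simp⟩
    · exact ⟨hbc, by simp⟩

theorem fl_branch (al : ℝ) {v a b c : V} 
    (hab : a ≠ b) (hac : a ≠ c) (hbc : b ≠ c) (hn : G.neighborFinset v = {a, b, c}) :
    fl G al a v b = (pw G al a v + pw G al b v - pw G al c v) / 2 := by
  unfold fl SS
  rw [hn, Finset.sum_insert (by simp [hab, hac]), Finset.sum_insert (by simp [hbc]),
    Finset.sum_singleton, pw_symm G al v b]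
  ring

theorem fl_two (al : ℝ) {v a b : V} (hv : G.degree v = 2)
    (hab : a ≠ b) (hn : G.neighborFinset v = {a, b}) :
    fl G al a v b = pw G al a v := by
  have ha : G.Adj v a := by rw [← SimpleGraph.mem_neighborFinset, hn]; simp
  have hb : G.Adj v b := by rw [← SimpleGraph.mem_neighborFinset, hn]; simp
  unfold fl SS
  rw [hn, Finset.sum_insert (by simp [hab]), Finset.sum_singleton, pw_symm G al v b,
    pw_two G al hv ha, pw_two G al hv hb]
  ring

theorem fl_symm (al : ℝ) (x y z : V) : fl G al x y z = fl G al z y x := by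
  unfold fl
  rw [pw_symm G al x y, pw_symm G al y z]
  ring

theorem fl_sum {al : ℝ} (hd : ∀ v, G.degree v = 2 ∨ G.degree v = 3) (x y : V) (hxy : G.Adj x y) :
    ∑ z ∈ (G.neighborFinset y).erase x, fl G al x y z = pw G al x y := by
  have hx : x ∈ G.neighborFinset y := by rw [SimpleGraph.mem_neighborFinset]; exact hxy.symm
  rcases hd y with h | h
  · obtain ⟨a, b, hab, hn⟩ := two_nbr h
    rw [hn] at hx ⊢
    simp only [Finset.mem_insert, Finset.mem_singleton] at hx
    rcases hx with rfl | rfl
    · rw [show ({x, b} : Finset V).erase x = {b} by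
        ext t; simp only [Finset.mem_erase, Finset.mem_insert, Finset.mem_singleton]
        constructor
        · tauto
        · rintro rfl; exact ⟨hab.symm, by simp⟩]
      rw [Finset.sum_singleton, fl_two al h hab hn]
    · rw [show ({a, x} : Finset V).erase x = {a} by
        ext t; simp only [Finset.mem_erase, Finset.mem_insert, Finset.mem_singleton]
        constructor
        · tauto
        · rintro rfl; exact ⟨hab, by simp⟩]
      rw [Finset.sum_singleton, fl_two al h hab.symm (by rw [hn, Finset.pair_comm])]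
  · have h1 : ∑ z ∈ (G.neighborFinset y).erase x, fl G al x y z
        = ∑ z ∈ (G.neighborFinset y).erase x, (pw G al x y - SS G al y / 2)
          + ∑ z ∈ (G.neighborFinset y).erase x, pw G al z y := by
      rw [← Finset.sum_add_distrib]
      apply Finset.sum_congr rfl
      intro z _
      unfold fl
      rw [pw_symm G al y z]
      ring
    have h2 : ∑ z ∈ (G.neighborFinset y).erase x, pw G al z y = SS G al y - pw G al x y := by
      unfold SS
      rw [← Finset.add_sum_erase _ _ hx]
      ring
    rw [h1, h2, Finset.sum_const, Finset.card_erase_of_mem hx,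
      SimpleGraph.card_neighborFinset_eq_degree, h]
    norm_num
    ring

theorem fl_pos {al lam : ℝ} (h : Par al lam) (hd : ∀ v, G.degree v = 2 ∨ G.degree v = 3)
    (x y z : V) (hxy : G.Adj x y) (hyz : G.Adj y z) (hxz : x ≠ z) : 0 < fl G al x y z := by
  have hx : x ∈ G.neighborFinset y := by rw [SimpleGraph.mem_neighborFinset]; exact hxy.symm
  have hz : z ∈ G.neighborFinset y := by rw [SimpleGraph.mem_neighborFinset]; exact hyz
  rcases hd y with h2 | h3
  · obtain ⟨a, b, hab, hn⟩ := two_nbr h2
    have hn' : G.neighborFinset y = {x, z} := by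
      rw [hn] at hx hz ⊢
      simp only [Finset.mem_insert, Finset.mem_singleton] at hx hz
      rcases hx with rfl | rfl <;> rcases hz with rfl | rfl
      · exact absurd rfl hxz
      · rfl
      · exact Finset.pair_comm _ _
      · exact absurd rfl hxz
    rw [fl_two al h2 hxz hn']
    exact pw_pos h x y
  · -- third neighbour
    have hc : ((G.neighborFinset y).erase x).erase z ≠ ∅ := by
      intro h0
      have h1 : (((G.neighborFinset y).erase x).erase z).card = 1 := by
        rw [Finset.card_erase_of_mem (by simp [hxz.symm]; exact hyz), Finset.card_erase_of_mem hx,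
          SimpleGraph.card_neighborFinset_eq_degree, h3]
      rw [h0] at h1
      simp at h1
    obtain ⟨t, ht⟩ := Finset.nonempty_iff_ne_empty.2 hc
    simp only [Finset.mem_erase] at ht
    have hn : G.neighborFinset y = {x, z, t} := by
      symm
      apply Finset.eq_of_subset_of_card_le
      · intro s hs
        simp only [Finset.mem_insert, Finset.mem_singleton] at hs
        rcases hs with rfl | rfl | rfl
        · exact hx
        · exact hz
        · exact ht.2.2
      · rw [SimpleGraph.card_neighborFinset_eq_degree, h3,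
          Finset.card_insert_of_notMem (by simp [hxz, ht.2.1.symm]),
          Finset.card_insert_of_notMem (by simp [ht.1.symm])]
        simp
    rw [fl_branch al hxz ht.2.1.symm ht.1.symm hn, pw_branch G al h3, pw_branch G al h3,
      pw_branch G al h3]
    have b1 := P_bounds h (ty G x)
    have b2 := P_bounds h (ty G z)
    have b3 := P_bounds h (ty G t)
    linarith

/-- entropy at a vertex -/
noncomputable def HH (G : SimpleGraph V) [DecidableRel G.Adj] (al : ℝ) (y : V) : ℝ :=
  ∑ x ∈ G.neighborFinset y, ∑ z ∈ (G.neighborFinset y).erase x,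
    fl G al x y z * Real.log (pw G al x y / fl G al x y z)

theorem HH_two {al lam : ℝ} (h : Par al lam) {y : V} (hy : G.degree y = 2) : HH G al y = 0 := by
  obtain ⟨a, b, hab, hn⟩ := two_nbr hy
  unfold HH
  apply Finset.sum_eq_zero
  intro x hx
  apply Finset.sum_eq_zero
  intro z hz
  have hn' : G.neighborFinset y = {x, z} := by
    rw [hn] at hx hz ⊢
    simp only [Finset.mem_erase, Finset.mem_insert, Finset.mem_singleton] at hx hz
    rcases hx with rfl | rfl <;> rcases hz with ⟨h1, rfl | rfl⟩
    · exact absurd rfl h1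
    · rfl
    · exact Finset.pair_comm _ _
    · exact absurd rfl h1
  have hxz : x ≠ z := by
    rw [Finset.mem_erase] at hz
    exact hz.1.symm
  rw [fl_two al hy hxz hn', div_self (pw_pos h x y).ne', Real.log_one, mul_zero]

theorem HH_three {al lam : ℝ} (h : Par al lam) {y a b c : V} (hy : G.degree y = 3)
    (hab : a ≠ b) (hac : a ≠ c) (hbc : b ≠ c) (hn : G.neighborFinset y = {a, b, c}) :
    HH G al y = Hloc (P al (ty G a)) (P al (ty G b)) (P al (ty G c)) := by
  have fab := fl_branch al hab hac hbc hn
  have fac := fl_branch al hac hab hbc.symm (v := y) (by rw [hn, Finset.pair_comm])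
  have fbc := fl_branch al hbc hab.symm hac.symm (v := y)
    (by rw [hn]; ext t; simp; tauto)
  have fba := fl_symm (G := G) al b y a
  have fca := fl_symm (G := G) al c y a
  have fcb := fl_symm (G := G) al c y b
  rw [pw_branch G al hy, pw_branch G al hy, pw_branch G al hy] at fab fac fbc
  have b1 := P_bounds h (ty G a)
  have b2 := P_bounds h (ty G b)
  have b3 := P_bounds h (ty G c)
  unfold HH
  rw [hn, Finset.sum_insert (by simp [hab, hac]), Finset.sum_insert (by simp [hbc]),
    Finset.sum_singleton, erase1 hab hac, erase2 hab hbc, erase3 hac hbc,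
    Finset.sum_pair hbc, Finset.sum_pair hac, Finset.sum_pair hab,
    fba, fca, fcb, fab, fac, fbc, pw_branch G al hy, pw_branch G al hy, pw_branch G al hy]
  set p := P al (ty G a)
  set q := P al (ty G b)
  set r := P al (ty G c)
  have e1 : (p + q - r) / 2 ≠ 0 := by
    have : 0 < (p + q - r) / 2 := by linarith
    exact this.ne'
  have e2 : (p + r - q) / 2 ≠ 0 := by
    have : 0 < (p + r - q) / 2 := by linarith
    exact this.ne'
  have e3 : (q + r - p) / 2 ≠ 0 := by
    have : 0 < (q + r - p) / 2 := by linarith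
    exact this.ne'
  have p0 : p ≠ 0 := by
    have : 0 < p := by linarith
    exact this.ne'
  have q0 : q ≠ 0 := by
    have : 0 < q := by linarith
    exact this.ne'
  have r0 : r ≠ 0 := by
    have : 0 < r := by linarith
    exact this.ne'
  rw [Real.log_div p0 e1, Real.log_div p0 e2, Real.log_div q0 e1, Real.log_div q0 e3,
    Real.log_div r0 e2, Real.log_div r0 e3]
  unfold Hloc phi
  ring

open Classical in
/-- the charge which a vertex of degree two sends to a neighbouring branch vertex -/
noncomputable def send (G : SimpleGraph V) [DecidableRel G.Adj] (lam : ℝ) (w : V) : ℝ :=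
  if G.degree w = 2 then (if IsMid G w then mu - lam else 2 * (mu - lam * (85/100))) else 0

theorem local_charge {al lam : ℝ} (h : Par al lam) (hd : ∀ v, G.degree v = 2 ∨ G.degree v = 3)
    (y : V) :
    (if G.degree y = 3 then 5 * mu else 0) ≤
      (HH G al y + ∑ x ∈ G.neighborFinset y, (mu - lam * pw G al x y))
      + (∑ w ∈ G.neighborFinset y, if G.degree y = 3 then send G lam w else 0)
      - ∑ v ∈ G.neighborFinset y, if G.degree v = 3 then send G lam y else 0 := by
  classical
  rcases hd y with h2 | h3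
  · obtain ⟨a, b, hab, hn⟩ := two_nbr h2
    have ha : G.Adj y a := by rw [← SimpleGraph.mem_neighborFinset, hn]; simp
    have hb : G.Adj y b := by rw [← SimpleGraph.mem_neighborFinset, hn]; simp
    rw [HH_two h h2, hn]
    rw [Finset.sum_pair hab, Finset.sum_pair hab, Finset.sum_pair hab, pw_two G al h2 ha,
      pw_two G al h2 hb]
    have hl := h.lam1
    by_cases hM : IsMid G y
    · have ha3 := hM.2 a ha
      have hb3 := hM.2 b hb
      simp [h2, ha3, hb3, send, hM]
    · have hab3 : ¬ (G.degree a = 3 ∧ G.degree b = 3) := by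
        rintro ⟨h5, h6⟩
        apply hM
        refine ⟨h2, fun z hz => ?_⟩
        rw [← SimpleGraph.mem_neighborFinset, hn] at hz
        simp only [Finset.mem_insert, Finset.mem_singleton] at hz
        rcases hz with rfl | rfl <;> assumption
      simp only [h2, send, hM, if_false, if_true]
      have hmu : 0 ≤ mu - lam * (85/100) := by
        unfold mu
        linarith
      by_cases ha3 : G.degree a = 3
      · have hb3 : ¬ G.degree b = 3 := fun h' => hab3 ⟨ha3, h'⟩
        simp [ha3, hb3]
        linarith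
      · by_cases hb3 : G.degree b = 3
        · simp [ha3, hb3]
          linarith
        · simp [ha3, hb3]
          linarith
  · obtain ⟨a, b, c, hab, hac, hbc, hn⟩ := branch_nbr h3
    have hs : send G lam y = 0 := by unfold send; simp [h3]
    rw [HH_three h h3 hab hac hbc hn, hs]
    simp only [h3, if_true, ite_self, Finset.sum_const_zero, sub_zero]
    have key : ∀ w, G.degree w = 2 ∨ G.degree w = 3 →
        (mu - lam * pw G al w y) + send G lam w = Cc al lam (ty G w) := by
      intro w hw
      rw [pw_branch G al h3]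
      unfold send ty Cc
      rcases hw with h5 | h5
      · by_cases hM : IsMid G w
        · simp [h5, hM, P]; ring
        · simp [h5, hM, P]; ring
      · simp [h5, P]
    have e : ∑ x ∈ G.neighborFinset y, (mu - lam * pw G al x y)
        + ∑ w ∈ G.neighborFinset y, send G lam w
        = Cc al lam (ty G a) + Cc al lam (ty G b) + Cc al lam (ty G c) := by
      rw [← Finset.sum_add_distrib, Finset.sum_congr rfl (fun w _ => key w (hd w)), hn,
        Finset.sum_insert (by simp [hab, hac]), Finset.sum_insert (by simp [hbc]),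
        Finset.sum_singleton]
      ring
    have := h.loc (ty G a) (ty G b) (ty G c)
    linarith

theorem global_ineq {al lam : ℝ} (h : Par al lam) (hd : ∀ v, G.degree v = 2 ∨ G.degree v = 3)
    (hc : (Finset.univ.filter fun v => G.degree v = 2).card =
      (Finset.univ.filter fun v => G.degree v = 3).card) :
    lam * (∑ y, ∑ x ∈ G.neighborFinset y, pw G al x y) ≤ ∑ y, HH G al y := by
  have h1 := Finset.sum_le_sum (s := Finset.univ) fun y _ => local_charge h hd y
  rw [Finset.sum_sub_distrib, Finset.sum_add_distrib, Finset.sum_add_distrib] at h1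
  have h2 : ∑ y, ∑ w ∈ G.neighborFinset y, (if G.degree y = 3 then send G lam w else 0)
      = ∑ y, ∑ v ∈ G.neighborFinset y, (if G.degree v = 3 then send G lam y else 0) := by
    rw [Finset.sum_comm' (t' := Finset.univ) (s' := fun z => G.neighborFinset z)]
    intro x z
    simp only [Finset.mem_univ, SimpleGraph.mem_neighborFinset, true_and, and_true]
    exact G.adj_comm x z
  rw [h2] at h1
  have h3 : ∑ y, ∑ x ∈ G.neighborFinset y, (mu - lam * pw G al x y)
      = (∑ y, (G.degree y : ℝ)) * mu - lam * (∑ y, ∑ x ∈ G.neighborFinset y, pw G al x y) := by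
    rw [Finset.sum_mul, Finset.mul_sum, ← Finset.sum_sub_distrib]
    apply Finset.sum_congr rfl
    intro y _
    rw [Finset.sum_sub_distrib, Finset.sum_const, SimpleGraph.card_neighborFinset_eq_degree,
      Finset.mul_sum, nsmul_eq_mul]
  rw [h3] at h1
  have h4 : ∑ y, (if G.degree y = 3 then 5 * mu else 0)
      = ((Finset.univ.filter fun v => G.degree v = 3).card : ℝ) * (5 * mu) := by
    rw [← Finset.sum_filter, Finset.sum_const, nsmul_eq_mul]
  have h5 : ∑ y, (G.degree y : ℝ) = 5 * ((Finset.univ.filter fun v => G.degree v = 3).card : ℝ) := by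
    have : ∀ y, (G.degree y : ℝ) = (if G.degree y = 2 then 2 else 0) + (if G.degree y = 3 then 3 else 0) := by
      intro y
      rcases hd y with h' | h' <;> simp [h']
    rw [Finset.sum_congr rfl fun y _ => this y, Finset.sum_add_distrib, ← Finset.sum_filter,
      ← Finset.sum_filter, Finset.sum_const, Finset.sum_const, hc]
    simp only [nsmul_eq_mul]
    ring
  rw [h4, h5] at h1
  linarith

end graph


section count

variable {V : Type u} (G : SimpleGraph V)

theorem isNB_cons {ℓ : ℕ} (x : V) (w : Fin (ℓ + 2) → V) :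
    IsNB G (ℓ + 2) (Fin.cons x w : Fin (ℓ + 3) → V) ↔
      G.Adj x (w 0) ∧ x ≠ w 1 ∧ IsNB G (ℓ + 1) w := by
  constructor
  · rintro ⟨h1, h2⟩
    refine ⟨?_, ?_, ?_, ?_⟩
    · exact h1 0 (Fin.succ 0) (by simp)
    · exact h2 0 (Fin.succ 1) (by simp)
    · intro i j hij
      exact h1 i.succ j.succ (by simp [hij])
    · intro i j hij
      exact h2 i.succ j.succ (by simp [hij])
  · rintro ⟨h0, h1, h2, h3⟩
    refine ⟨?_, ?_⟩
    · intro i j hij
      induction i using Fin.cases with
      | zero =>
        have : j = Fin.succ 0 := by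
          apply Fin.ext; simpa using hij
        subst this
        exact h0
      | succ i =>
        induction j using Fin.cases with
        | zero => simp at hij
        | succ j => exact h2 i j (by simp at hij; omega)
    · intro i j hij
      induction i using Fin.cases with
      | zero =>
        have h5 : ((Fin.succ (1 : Fin (ℓ + 2)) : Fin (ℓ + 3)) : ℕ) = 2 := by
          rw [Fin.val_succ, Fin.val_one]
        have : j = Fin.succ 1 := by
          apply Fin.ext
          rw [h5, hij]
          simp
        subst this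
        exact h1
      | succ i =>
        induction j using Fin.cases with
        | zero => simp at hij
        | succ j => exact h3 i j (by simp at hij; omega)

theorem isNB_one (w : Fin 2 → V) : IsNB G 1 w ↔ G.Adj (w 0) (w 1) := by
  constructor
  · rintro ⟨h1, _⟩
    exact h1 0 1 (by simp)
  · intro h
    refine ⟨?_, ?_⟩
    · intro i j hij
      have hi : i = 0 := by apply Fin.ext; simp; omega
      have hj : j = 1 := by apply Fin.ext; simp; omega
      rw [hi, hj]; exact h
    · intro i j hij
      exfalso; omega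

theorem sum_cons [Fintype V] {n : ℕ} (g : (Fin (n + 1) → V) → ℕ) :
    ∑ w, g w = ∑ z, ∑ w', g (Fin.cons z w' : Fin (n + 1) → V) := by
  rw [← (Fin.consEquiv (fun _ : Fin (n + 1) => V)).sum_comp g, Fintype.sum_prod_type]
  rfl

variable [Fintype V] [DecidableEq V] [DecidableRel G.Adj]

open Classical in
theorem count_cons (ℓ : ℕ) : ∀ x y : V,
    (∑ w : Fin ℓ → V, if IsNB G (ℓ + 1) (Fin.cons x (Fin.cons y w : Fin (ℓ + 1) → V)) then 1 else 0)
      = if G.Adj x y then nbN G ℓ x y else 0 := by
  induction ℓ with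
  | zero =>
    intro x y
    rw [Fintype.sum_unique]
    have : IsNB G (0 + 1) (Fin.cons x (Fin.cons y (default : Fin 0 → V) : Fin (0 + 1) → V) :
        Fin (0 + 1 + 1) → V) ↔ G.Adj x y := by
      exact isNB_one G _
    by_cases h : G.Adj x y
    · rw [if_pos (this.2 h), if_pos h]; rfl
    · rw [if_neg (fun h' => h (this.1 h')), if_neg h]
  | succ ℓ ih =>
    intro x y
    rw [sum_cons]
    have e : ∀ z : V, ∀ w' : Fin ℓ → V,
        IsNB G (ℓ + 1 + 1) (Fin.cons x (Fin.cons y (Fin.cons z w' : Fin (ℓ + 1) → V) :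
          Fin (ℓ + 1 + 1) → V)) ↔ (G.Adj x y ∧ x ≠ z) ∧
          IsNB G (ℓ + 1) (Fin.cons y (Fin.cons z w' : Fin (ℓ + 1) → V)) := by
      intro z w'
      rw [isNB_cons]
      constructor
      · rintro ⟨h1, h2, h3⟩; exact ⟨⟨h1, h2⟩, h3⟩
      · rintro ⟨⟨h1, h2⟩, h3⟩; exact ⟨h1, h2, h3⟩
    by_cases h : G.Adj x y
    · rw [if_pos h]
      simp only [nbN]
      have h1 : ∀ z : V, (∑ w' : Fin ℓ → V,
          if IsNB G (ℓ + 1 + 1) (Fin.cons x (Fin.cons y (Fin.cons z w' : Fin (ℓ + 1) → V) :
          Fin (ℓ + 1 + 1) → V)) then 1 else 0) =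
          if z ∈ (G.neighborFinset y).erase x then nbN G ℓ y z else 0 := by
        intro z
        by_cases hz : x = z
        · subst hz
          simp only [Finset.mem_erase, ne_eq, not_true_eq_false, false_and, if_false]
          apply Finset.sum_eq_zero
          intro w' _
          rw [if_neg]
          intro h'
          exact ((e x w').1 h').1.2 rfl
        · have : ∀ w' : Fin ℓ → V, (if IsNB G (ℓ + 1 + 1) (Fin.cons x (Fin.cons y
              (Fin.cons z w' : Fin (ℓ + 1) → V) : Fin (ℓ + 1 + 1) → V)) then 1 else 0) =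
              if IsNB G (ℓ + 1) (Fin.cons y (Fin.cons z w' : Fin (ℓ + 1) → V)) then 1 else 0 := by
            intro w'
            by_cases h2 : IsNB G (ℓ + 1) (Fin.cons y (Fin.cons z w' : Fin (ℓ + 1) → V))
            · rw [if_pos h2, if_pos ((e z w').2 ⟨⟨h, hz⟩, h2⟩)]
            · rw [if_neg h2, if_neg (fun h' => h2 ((e z w').1 h').2)]
          rw [Finset.sum_congr rfl fun w' _ => this w', ih y z]
          have : z ∈ (G.neighborFinset y).erase x ↔ G.Adj y z := by
            rw [Finset.mem_erase, SimpleGraph.mem_neighborFinset]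
            constructor
            · exact fun h => h.2
            · exact fun h => ⟨fun h' => hz h'.symm, h⟩
          by_cases h3 : G.Adj y z
          · rw [if_pos h3, if_pos (this.2 h3)]
          · rw [if_neg h3, if_neg (fun h' => h3 (this.1 h'))]
      rw [Finset.sum_congr rfl fun z _ => h1 z, Finset.sum_ite_mem, Finset.univ_inter]
    · rw [if_neg h]
      apply Finset.sum_eq_zero
      intro z _
      apply Finset.sum_eq_zero
      intro w' _
      rw [if_neg]
      intro h'
      exact h ((e z w').1 h').1.1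

theorem omega_succ (ℓ : ℕ) :
    omega G (ℓ + 1) = ∑ y, ∑ x ∈ G.neighborFinset y, nbN G ℓ x y := by
  classical
  have h1 : omega G (ℓ + 1) = ∑ w : Fin (ℓ + 1 + 1) → V, if IsNB G (ℓ + 1) w then 1 else 0 := by
    unfold omega
    rw [Nat.card_eq_fintype_card, Fintype.card_subtype, Finset.card_filter]
  rw [h1, sum_cons]
  have h2 : ∀ x : V, (∑ w' : Fin (ℓ + 1) → V,
      if IsNB G (ℓ + 1) (Fin.cons x w' : Fin (ℓ + 1 + 1) → V) then 1 else 0)
      = ∑ y, if G.Adj x y then nbN G ℓ x y else 0 := by
    intro x
    rw [sum_cons]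
    exact Finset.sum_congr rfl fun y _ => count_cons G ℓ x y
  rw [Finset.sum_congr rfl fun x _ => h2 x, Finset.sum_comm]
  apply Finset.sum_congr rfl
  intro y _
  rw [← Finset.sum_filter]
  apply Finset.sum_congr _ (fun _ _ => rfl)
  ext x
  simp [SimpleGraph.mem_neighborFinset, G.adj_comm]

end count

section submul

variable {V : Type u} [Finite V] (G : SimpleGraph V)

theorem omega_add (m n : ℕ) : omega G (m + n) ≤ omega G m * omega G n := by
  unfold omega
  rw [← Nat.card_prod]
  let F : {w : Fin (m + n + 1) → V // IsNB G (m + n) w} →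
      {w : Fin (m + 1) → V // IsNB G m w} × {w : Fin (n + 1) → V // IsNB G n w} := fun w =>
    (⟨fun i => w.1 ⟨i, by omega⟩, fun i j h => w.2.1 _ _ h, fun i j h => w.2.2 _ _ h⟩,
     ⟨fun i => w.1 ⟨m + i, by omega⟩, fun i j h => w.2.1 _ _ (by simp; omega),
      fun i j h => w.2.2 _ _ (by simp; omega)⟩)
  apply Nat.card_le_card_of_injective F
  intro w w' h
  apply Subtype.ext
  funext k
  have ha := congrArg (fun t => t.1.1) h
  have hb := congrArg (fun t => t.2.1) h
  simp only [F] at ha hb
  by_cases hk : (k : ℕ) ≤ m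
  · have := congrFun ha ⟨k, by omega⟩
    simpa using this
  · have h2 := congrFun hb ⟨k - m, by omega⟩
    have h3 : (⟨m + (k - m), by omega⟩ : Fin (m + n + 1)) = k := by
      apply Fin.ext; simp; omega
    simp only [h3] at h2
    exact h2

/-- the growth rate `ρ(G) = lim |Ω_ℓ|^{1/ℓ}` -/
noncomputable def rho (G : SimpleGraph V) : ℝ :=
  limUnder atTop (fun ℓ : ℕ => (omega G ℓ : ℝ) ^ (1 / (ℓ : ℝ)))

theorem tendsto_aux (hpos : ∀ ℓ, 0 < omega G ℓ) :
    ∃ L : ℝ, Tendsto (fun n : ℕ => Real.log (omega G n) / n) atTop (𝓝 L) ∧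
      Tendsto (fun ℓ : ℕ => (omega G ℓ : ℝ) ^ (1 / (ℓ : ℝ))) atTop (𝓝 (Real.exp L)) := by
  have hsub : Subadditive (fun n => Real.log (omega G n)) := by
    intro m n
    have hm : (0:ℝ) < omega G m := by exact_mod_cast hpos m
    have hn : (0:ℝ) < omega G n := by exact_mod_cast hpos n
    have hmn : (0:ℝ) < omega G (m + n) := by exact_mod_cast hpos (m + n)
    rw [← Real.log_mul hm.ne' hn.ne']
    apply Real.log_le_log hmn
    exact_mod_cast omega_add G m n
  have hbdd : BddBelow (Set.range fun n : ℕ => Real.log (omega G n) / n) := by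
    refine ⟨0, ?_⟩
    rintro _ ⟨n, rfl⟩
    have h1 : (1:ℝ) ≤ omega G n := by exact_mod_cast hpos n
    exact div_nonneg (Real.log_nonneg h1) (Nat.cast_nonneg _)
  refine ⟨hsub.lim, hsub.tendsto_lim hbdd, ?_⟩
  have h2 := (Real.continuous_exp.tendsto _).comp (hsub.tendsto_lim hbdd)
  refine h2.congr fun n => ?_
  have hn : (0:ℝ) < omega G n := by exact_mod_cast hpos n
  rw [Real.rpow_def_of_pos hn]
  simp only [Function.comp]
  congr 1
  ring

end submul


/-- The class `𝒢_{2,3}`: connected simple graphs all of whose degrees are `2` or `3`, with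
equally many vertices of degree `2` and of degree `3`. -/
def G23 {V : Type u} (G : SimpleGraph V) : Prop :=
  G.Connected ∧ (∀ v, (G.neighborSet v).ncard = 2 ∨ (G.neighborSet v).ncard = 3) ∧
    {v | (G.neighborSet v).ncard = 2}.ncard = {v | (G.neighborSet v).ncard = 3}.ncard

/-- `K₄` minus an edge. -/
def K4m : SimpleGraph (Fin 4) := (⊤ : SimpleGraph (Fin 4)).deleteEdges {s(2, 3)}

section final

/-- the real root of `t³ = t + 2` -/
theorem exists_root : ∃ r : ℝ, 15212/10000 ≤ r ∧ r ≤ 15214/10000 ∧ r ^ 3 = r + 2 := by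
  have hc : ContinuousOn (fun t : ℝ => t ^ 3 - t - 2) (Set.Icc (15212/10000) (15214/10000)) := by
    fun_prop
  have := intermediate_value_Icc (by norm_num : (15212/10000 : ℝ) ≤ 15214/10000) hc
  have h0 : (0:ℝ) ∈ Set.Icc ((fun t : ℝ => t ^ 3 - t - 2) (15212/10000))
      ((fun t : ℝ => t ^ 3 - t - 2) (15214/10000)) := by
    constructor <;> norm_num
  obtain ⟨r, hr, hr2⟩ := this h0
  exact ⟨r, hr.1, hr.2, by simp only at hr2; linarith⟩

theorem par_of_root {r : ℝ} (h0 : 15212/10000 ≤ r) (h1 : r ≤ 15214/10000) (h : r ^ 3 = r + 2) :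
    Par (4 / (r + 2)) (Real.log r) := by
  have hr : 0 < r := by linarith
  refine ⟨?_, ?_, ?_, ?_⟩
  · rw [le_div_iff₀ (by linarith)]; linarith
  · rw [div_le_iff₀ (by linarith)]; linarith
  · rw [← h, Real.log_div (by norm_num) (by positivity), Real.log_pow,
      show (4:ℝ) = 2 ^ 2 by norm_num, Real.log_pow]
    push_cast; ring
  · have : 1 - 4 / (r + 2) / 2 = (r ^ 2)⁻¹ := by
      have h2 : r + 2 ≠ 0 := by linarith
      field_simp
      nlinarith [h]
    rw [this, Real.log_inv, Real.log_pow]
    push_cast; ring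

theorem lower_bound {V : Type u} [Finite V] (G : SimpleGraph V) (hG : G23 G) {r : ℝ}
    (h0 : 15212/10000 ≤ r) (h1 : r ≤ 15214/10000) (h : r ^ 3 = r + 2) (ℓ : ℕ) :
    r ^ ℓ ≤ (omega G (ℓ + 1) : ℝ) := by
  classical
  haveI : Fintype V := Fintype.ofFinite V
  have hdeg : ∀ v, (G.neighborSet v).ncard = G.degree v := by
    intro v
    rw [Set.ncard_eq_toFinset_card']
    rfl
  obtain ⟨hconn, hd, hcard⟩ := hG
  simp only [hdeg] at hd hcard
  have hc : (Finset.univ.filter fun v => G.degree v = 2).card =
      (Finset.univ.filter fun v => G.degree v = 3).card := by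
    rw [Set.ncard_eq_toFinset_card', Set.ncard_eq_toFinset_card'] at hcard
    simpa using hcard
  have hP := par_of_root h0 h1 h
  haveI := hconn.nonempty
  have hex : ∃ x y, G.Adj x y := by
    obtain ⟨v⟩ := hconn.nonempty
    have : 0 < G.degree v := by rcases hd v with h' | h' <;> omega
    rw [← SimpleGraph.card_neighborFinset_eq_degree, Finset.card_pos] at this
    obtain ⟨w, hw⟩ := this
    exact ⟨v, w, by simpa using hw⟩
  have := exists_large G (pw G (4 / (r + 2))) (fl G (4 / (r + 2))) (Real.log r)
    (pw_symm G _) (fun x y _ => pw_pos hP x y) (fun x y z => fl_pos hP hd x y z)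
    (fl_symm _) (fun x y hxy => fl_sum hd x y hxy) hex
    (global_ineq hP hd hc) ℓ
  rw [Real.exp_log (by linarith)] at this
  rw [omega_succ]
  exact this

theorem omega_pos {V : Type u} [Finite V] (G : SimpleGraph V) (hG : G23 G) (ℓ : ℕ) :
    0 < omega G ℓ := by
  cases ℓ with
  | zero =>
    unfold omega
    haveI := hG.1.nonempty
    obtain ⟨v⟩ := hG.1.nonempty
    have : Nonempty {w : Fin (0 + 1) → V // IsNB G 0 w} :=
      ⟨⟨fun _ => v, fun i j hij => by omega, fun i j hij => by omega⟩⟩
    exact Nat.card_pos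
  | succ ℓ =>
    obtain ⟨r, h0, h1, h⟩ := exists_root
    have := lower_bound G hG h0 h1 h ℓ
    have h2 : 0 < r ^ ℓ := by apply pow_pos; linarith
    have h3 : (0:ℝ) < omega G (ℓ + 1) := by linarith
    exact_mod_cast h3

theorem rho_ge {V : Type u} [Finite V] (G : SimpleGraph V) (hG : G23 G) {r : ℝ}
    (h0 : 15212/10000 ≤ r) (h1 : r ≤ 15214/10000) (h : r ^ 3 = r + 2) : r ≤ rho G := by
  obtain ⟨L, hL, hL2⟩ := tendsto_aux G (omega_pos G hG)
  have : rho G = Real.exp L := hL2.limUnder_eq
  rw [this]
  have hr : 0 < r := by linarith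
  rw [← Real.exp_log hr]
  apply Real.exp_le_exp.2
  -- shift
  have h3 : Tendsto (fun n : ℕ => Real.log (omega G (n + 1)) / ((n + 1 : ℕ) : ℝ)) atTop (𝓝 L) :=
    (tendsto_add_atTop_iff_nat 1).2 hL
  have h4 : Tendsto (fun n : ℕ => Real.log r * ((n : ℝ) / ((n + 1 : ℕ) : ℝ))) atTop
      (𝓝 (Real.log r * 1)) := by
    apply Tendsto.const_mul
    have := tendsto_natCast_div_add_atTop (1 : ℝ)
    simpa using this
  rw [mul_one] at h4
  refine le_of_tendsto_of_tendsto' h4 h3 fun n => ?_
  have h5 := lower_bound G hG h0 h1 h n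
  have h6 : (n : ℝ) * Real.log r ≤ Real.log (omega G (n + 1)) := by
    rw [← Real.log_pow]
    exact Real.log_le_log (pow_pos hr n) h5
  rw [← mul_div_assoc]
  apply div_le_div_of_nonneg_right _ (Nat.cast_nonneg _)
  linarith

instance : DecidableRel K4m.Adj := fun a b =>
  decidable_of_iff (a ≠ b ∧ s(a, b) ≠ s(2, 3)) (by
    unfold K4m
    rw [SimpleGraph.deleteEdges_adj]
    simp)

theorem K4m_G23 : G23 K4m := by
  classical
  have hdeg : ∀ v, (K4m.neighborSet v).ncard = K4m.degree v := by
    intro v
    rw [Set.ncard_eq_toFinset_card']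
    rfl
  have hd : ∀ v, K4m.degree v = 2 ∨ K4m.degree v = 3 := by decide
  refine ⟨?_, ?_, ?_⟩
  · rw [SimpleGraph.connected_iff]
    refine ⟨?_, ⟨0⟩⟩
    have h0 : ∀ v, K4m.Reachable 0 v := by
      intro v
      by_cases hv : v = 0
      · subst hv; exact SimpleGraph.Reachable.refl _
      · apply SimpleGraph.Adj.reachable
        revert v
        decide
    intro u v
    exact (h0 u).symm.trans (h0 v)
  · intro v; rw [hdeg]; exact hd v
  · simp only [hdeg]
    rw [Set.ncard_eq_toFinset_card', Set.ncard_eq_toFinset_card']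
    simp only [Set.toFinset_setOf]
    decide

/-- an eigenvector -/
noncomputable def ev (r : ℝ) (x y : Fin 4) : ℝ :=
  if (x : ℕ) ≤ 1 ∧ (y : ℕ) ≤ 1 then 2 else if (y : ℕ) ≤ 1 then r ^ 2 else r

theorem K4m_adj (a b : Fin 4) : K4m.Adj a b ↔ (a ≠ b ∧ s(a, b) ≠ s(2, 3)) := by
  unfold K4m
  rw [SimpleGraph.deleteEdges_adj]
  simp

theorem ev_step {r : ℝ} (h : r ^ 3 = r + 2) : ∀ x y : Fin 4, K4m.Adj x y →
    ∑ z ∈ (K4m.neighborFinset y).erase x, ev r y z = r * ev r x y := by
  intro x y hxy
  have h1 : ∑ z ∈ (K4m.neighborFinset y).erase x, ev r y z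
      = ∑ z : Fin 4, if (K4m.Adj y z ∧ z ≠ x) then ev r y z else 0 := by
    rw [← Finset.sum_filter]
    apply Finset.sum_congr _ (fun _ _ => rfl)
    ext z
    simp [and_comm]
  rw [h1, Fin.sum_univ_four]
  simp only [K4m_adj] at hxy ⊢
  fin_cases x <;> fin_cases y <;> first
    | exact absurd hxy (by decide)
    | (simp [ev]; try nlinarith [h])

theorem ev_ge {r : ℝ} (h0 : 15212/10000 ≤ r) (x y : Fin 4) : 1 ≤ ev r x y := by
  unfold ev
  split_ifs
  · norm_num
  · nlinarith
  · linarith

theorem ev_le {r : ℝ} (h0 : 15212/10000 ≤ r) (h1 : r ≤ 15214/10000) (x y : Fin 4) :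
    ev r x y ≤ 3 := by
  unfold ev
  split_ifs
  · norm_num
  · nlinarith
  · linarith

theorem nbN_le {r : ℝ} (h0 : 15212/10000 ≤ r) (h : r ^ 3 = r + 2) (ℓ : ℕ) :
    ∀ x y : Fin 4, K4m.Adj x y → (nbN K4m ℓ x y : ℝ) ≤ ev r x y * r ^ ℓ := by
  induction ℓ with
  | zero =>
    intro x y _
    simp only [nbN, pow_zero, mul_one, Nat.cast_one]
    exact ev_ge h0 x y
  | succ ℓ ih =>
    intro x y hxy
    simp only [nbN]
    push_cast
    calc ∑ z ∈ (K4m.neighborFinset y).erase x, (nbN K4m ℓ y z : ℝ)
        ≤ ∑ z ∈ (K4m.neighborFinset y).erase x, ev r y z * r ^ ℓ := by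
          apply Finset.sum_le_sum
          intro z hz
          rw [Finset.mem_erase, SimpleGraph.mem_neighborFinset] at hz
          exact ih y z hz.2
      _ = ev r x y * r ^ (ℓ + 1) := by
          rw [← Finset.sum_mul, ev_step h x y hxy]
          ring

theorem K4m_upper {r : ℝ} (h0 : 15212/10000 ≤ r) (h1 : r ≤ 15214/10000) (h : r ^ 3 = r + 2)
    (ℓ : ℕ) : (omega K4m (ℓ + 1) : ℝ) ≤ 48 * r ^ ℓ := by
  rw [omega_succ]
  push_cast
  have hr : 0 < r ^ ℓ := by apply pow_pos; linarith
  calc ∑ y : Fin 4, ∑ x ∈ K4m.neighborFinset y, (nbN K4m ℓ x y : ℝ)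
      ≤ ∑ y : Fin 4, ∑ x ∈ K4m.neighborFinset y, 3 * r ^ ℓ := by
        apply Finset.sum_le_sum
        intro y _
        apply Finset.sum_le_sum
        intro x hx
        rw [SimpleGraph.mem_neighborFinset] at hx
        exact (nbN_le h0 h ℓ x y hx.symm).trans
          (mul_le_mul_of_nonneg_right (ev_le h0 h1 x y) hr.le)
    _ ≤ ∑ y : Fin 4, (4 : ℝ) * (3 * r ^ ℓ) := by
        apply Finset.sum_le_sum
        intro y _
        rw [Finset.sum_const, nsmul_eq_mul]
        apply mul_le_mul_of_nonneg_right _ (by positivity)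
        have : (K4m.neighborFinset y).card ≤ 4 := (Finset.card_le_univ _).trans (by simp)
        exact_mod_cast this
    _ = 48 * r ^ ℓ := by
        rw [Finset.sum_const]
        simp
        ring

theorem rho_K4m {r : ℝ} (h0 : 15212/10000 ≤ r) (h1 : r ≤ 15214/10000) (h : r ^ 3 = r + 2) :
    rho K4m = r := by
  apply le_antisymm _ (rho_ge K4m K4m_G23 h0 h1 h)
  obtain ⟨L, hL, hL2⟩ := tendsto_aux K4m (omega_pos K4m K4m_G23)
  have : rho K4m = Real.exp L := hL2.limUnder_eq
  rw [this]
  have hr : 0 < r := by linarith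
  conv_rhs => rw [← Real.exp_log hr]
  apply Real.exp_le_exp.2
  have h3 : Tendsto (fun n : ℕ => Real.log (omega K4m (n + 1)) / ((n + 1 : ℕ) : ℝ)) atTop (𝓝 L) :=
    (tendsto_add_atTop_iff_nat 1).2 hL
  have h4 : Tendsto (fun n : ℕ => Real.log r * ((n : ℝ) / ((n + 1 : ℕ) : ℝ))
      + Real.log 48 * (1 / ((n : ℝ) + 1))) atTop (𝓝 (Real.log r * 1 + Real.log 48 * 0)) := by
    apply Tendsto.add
    · apply Tendsto.const_mul
      have := tendsto_natCast_div_add_atTop (1 : ℝ)
      simpa using this
    · apply Tendsto.const_mul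
      exact tendsto_one_div_add_atTop_nhds_zero_nat
  rw [mul_one, mul_zero, add_zero] at h4
  refine le_of_tendsto_of_tendsto' h3 h4 fun n => ?_
  have h5 := K4m_upper h0 h1 h n
  have hp : (0:ℝ) < omega K4m (n + 1) := by exact_mod_cast omega_pos K4m K4m_G23 (n + 1)
  have h6 : Real.log (omega K4m (n + 1)) ≤ (n : ℝ) * Real.log r + Real.log 48 := by
    rw [← Real.log_pow, ← Real.log_mul (pow_pos hr n).ne' (by norm_num)]
    apply Real.log_le_log hp
    linarith
  have h7 : Real.log r * ((n : ℝ) / ((n + 1 : ℕ) : ℝ)) + Real.log 48 * (1 / ((n : ℝ) + 1))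
      = ((n : ℝ) * Real.log r + Real.log 48) / ((n + 1 : ℕ) : ℝ) := by
    push_cast
    ring
  rw [h7]
  exact div_le_div_of_nonneg_right h6 (Nat.cast_nonneg _)

end final

/-- **The conjecture holds**: among all graphs of `𝒢_{2,3}` the growth rate of the universal
cover is smallest for `K₄` minus an edge, where it is the real root of `t³ = t + 2`. -/
theorem result :
    (∀ (V : Type u) [Finite V] (G : SimpleGraph V), G23 G →
      Tendsto (fun ℓ : ℕ => (omega G ℓ : ℝ) ^ (1 / (ℓ : ℝ))) atTop (𝓝 (rho G))) ∧
    G23 K4m ∧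
    Tendsto (fun ℓ : ℕ => (omega K4m ℓ : ℝ) ^ (1 / (ℓ : ℝ))) atTop (𝓝 (rho K4m)) ∧
    rho K4m ^ 3 = rho K4m + 2 ∧
    (∀ (V : Type u) [Finite V] (G : SimpleGraph V), G23 G →
      rho K4m ≤ rho G ∧ ∀ ℓ : ℕ, rho K4m ^ ℓ ≤ (omega G (ℓ + 1) : ℝ)) := by
  obtain ⟨r, h0, h1, h⟩ := exists_root
  have hK := rho_K4m h0 h1 h
  refine ⟨?_, K4m_G23, ?_, ?_, ?_⟩
  · intro V _ G hG
    obtain ⟨L, hL, hL2⟩ := tendsto_aux G (omega_pos G hG)
    have : rho G = Real.exp L := hL2.limUnder_eq
    rw [this]
    exact hL2
  · obtain ⟨L, hL, hL2⟩ := tendsto_aux K4m (omega_pos K4m K4m_G23)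
    have : rho K4m = Real.exp L := hL2.limUnder_eq
    rw [this]
    exact hL2
  · rw [hK]; exact h
  · intro V _ G hG
    rw [hK]
    exact ⟨rho_ge G hG h0 h1 h, lower_bound G hG h0 h1 h⟩


end Pool.Agent.X226.MinGrowth
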