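import Pool.Agent.X226.PdDef

set_option autoImplicit false

namespace Pool.Agent.X226.Pd

open Finset Matrix
open scoped Classical

variable {n r : ℕ}

noncomputable section

/-- The matrix of the events `]i, j] ⊆ S_{f(i)}` at a sample point; the last row consists of ones. -/
def NN (f : Fin n → Fin r) (S : Fin r → Finset (Fin (n + 1))) :
    Matrix (Fin (n + 1)) (Fin (n + 1)) ℝ := fun i j =>
  Fin.lastCases (motive := fun _ => ℝ) 1 (fun i' => if arc i'.castSucc j ⊆ S (f i') then 1 else 0) i

@[simp] theorem NN_last (f : Fin n → Fin r) (S : Fin r → Finset (Fin (n + 1))) (j : Fin (n + 1)) :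
    NN f S (Fin.last n) j = 1 := by simp [NN]

@[simp] theorem NN_cast (f : Fin n → Fin r) (S : Fin r → Finset (Fin (n + 1))) (i : Fin n)
    (j : Fin (n + 1)) : NN f S i.castSucc j = if arc i.castSucc j ⊆ S (f i) then 1 else 0 := by
  simp [NN]

/-- add `b` to the set with index `f b` -/
def ins (f : Fin n → Fin r) (S : Fin r → Finset (Fin (n + 1))) (b : Fin n) :
    Fin r → Finset (Fin (n + 1)) := fun t => if t = f b then insert b.castSucc (S t) else S t

theorem arc_sub_ins {i b j : Fin (n + 1)} (hib : i ≠ b) {A : Finset (Fin (n + 1))} (hbA : b ∉ A)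
    (hex : A ≠ Finset.univ.erase b) :
    (if arc i j ⊆ insert b A then (1 : ℝ) else 0) = (if arc i j ⊆ A then 1 else 0) +
      (if arc i b ⊆ insert b A then 1 else 0) * (if arc b j ⊆ A then 1 else 0) := by
  have hi := i.isLt
  have hb := b.isLt
  have hj := j.isLt
  have hv : i.val ≠ b.val := fun h => hib (Fin.ext h)
  -- complement not contained
  obtain ⟨c, hc1, hc2⟩ : ∃ c, c ≠ b ∧ c ∉ A := by
    by_contra hcon
    push Not at hcon
    apply hex
    ext c
    rw [Finset.mem_erase]
    constructor
    · intro h; exact ⟨fun h' => hbA (h' ▸ h), Finset.mem_univ _⟩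
    · intro h; exact hcon c h.1
  have hc := c.isLt
  have hcv : c.val ≠ b.val := fun h => hc1 (Fin.ext h)
  by_cases hbj : b ∈ arc i j
  · have h1 : ¬ arc i j ⊆ A := fun h => hbA (h hbj)
    rw [if_neg h1, zero_add]
    have key : arc i j ⊆ insert b A ↔ arc i b ⊆ insert b A ∧ arc b j ⊆ A := by
      constructor
      · intro H
        constructor
        · intro m hm
          apply H
          have := m.isLt
          rw [mem_arc] at hm hbj ⊢
          simp only [cd] at hm hbj ⊢
          split_ifs at * <;> omega
        · intro m hm
          have hm1 : m ∈ arc i j := by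
            have := m.isLt
            rw [mem_arc] at hm hbj ⊢
            simp only [cd] at hm hbj ⊢
            split_ifs at * <;> omega
          have hm2 : m ≠ b := by
            rintro rfl
            rw [mem_arc] at hm
            simp only [cd] at hm
            split_ifs at * <;> omega
          exact (Finset.mem_insert.1 (H hm1)).resolve_left hm2
      · rintro ⟨H1, H2⟩ m hm
        by_cases hm1 : m ∈ arc i b
        · exact H1 hm1
        · apply Finset.mem_insert_of_mem
          apply H2
          have := m.isLt
          rw [mem_arc] at hm hbj hm1 ⊢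
          simp only [cd] at hm hbj hm1 ⊢
          split_ifs at * <;> omega
    by_cases c1 : arc i b ⊆ insert b A
    · by_cases c2 : arc b j ⊆ A
      · rw [if_pos (key.2 ⟨c1, c2⟩), if_pos c1, if_pos c2, one_mul]
      · rw [if_neg (fun h => c2 (key.1 h).2), if_neg c2, mul_zero]
    · rw [if_neg (fun h => c1 (key.1 h).1), if_neg c1, zero_mul]
  · have h1 : arc i j ⊆ insert b A ↔ arc i j ⊆ A := by
      constructor
      · intro H m hm
        refine (Finset.mem_insert.1 (H hm)).resolve_left ?_
        rintro rfl
        exact hbj hm
      · intro H m hm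
        exact Finset.mem_insert_of_mem (H hm)
    rw [if_congr h1 rfl rfl]
    have h2 : (if arc i b ⊆ insert b A then (1 : ℝ) else 0) * (if arc b j ⊆ A then 1 else 0) = 0 := by
      by_cases c1 : arc i b ⊆ insert b A
      · by_cases c2 : arc b j ⊆ A
        · exfalso
          -- c is in arc i b or arc b j
          by_cases hcib : c ∈ arc i b
          · exact hc2 ((Finset.mem_insert.1 (c1 hcib)).resolve_left hc1)
          · apply hc2
            apply c2
            rw [mem_arc] at hbj hcib ⊢
            simp only [cd] at hbj hcib ⊢
            split_ifs at * <;> omega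
        · rw [if_neg c2, mul_zero]
      · rw [if_neg c1, zero_mul]
    rw [h2, add_zero]

theorem detN_ins (f : Fin n → Fin r) (S : Fin r → Finset (Fin (n + 1))) (b : Fin n) :
    (NN f (ins f S b)).det = (NN f S).det := by
  by_cases hb : b.castSucc ∈ S (f b)
  · congr 2
    funext t
    unfold ins
    split_ifs with h
    · subst h; exact Finset.insert_eq_of_mem hb
    · rfl
  have hbl : b.castSucc ≠ Fin.last n := (Fin.castSucc_lt_last b).ne
  have hbb : ∀ j, b.castSucc ∉ arc b.castSucc j := by
    intro j hj
    rw [mem_arc] at hj
    simp only [cd] at hj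
    split_ifs at hj <;> omega
  have hrow : ∀ j, NN f (ins f S b) b.castSucc j = NN f S b.castSucc j := by
    intro j
    rw [NN_cast, NN_cast]
    unfold ins
    rw [if_pos rfl]
    have h1 : arc b.castSucc j ⊆ insert b.castSucc (S (f b)) ↔ arc b.castSucc j ⊆ S (f b) := by
      constructor
      · intro H m hm
        refine (Finset.mem_insert.1 (H hm)).resolve_left ?_
        rintro rfl
        exact hbb j hm
      · intro H m hm
        exact Finset.mem_insert_of_mem (H hm)
    rw [if_congr h1 rfl rfl]
  by_cases hex : S (f b) = Finset.univ.erase b.castSucc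
  · have hall : ∀ j, NN f S b.castSucc j = 1 := by
      intro j
      rw [NN_cast, if_pos]
      rw [hex]
      intro m hm
      rw [Finset.mem_erase]
      refine ⟨?_, Finset.mem_univ _⟩
      rintro rfl
      exact hbb j hm
    rw [Matrix.det_zero_of_row_eq hbl (by funext j; rw [hrow, hall, NN_last]),
      Matrix.det_zero_of_row_eq hbl (by funext j; rw [hall, NN_last])]
  · apply Matrix.det_eq_of_forall_row_eq_smul_add_const
      (fun i => Fin.lastCases (motive := fun _ => ℝ) 0 (fun i' => if i' ≠ b ∧ f i' = f b then
        (if arc i'.castSucc b.castSucc ⊆ insert b.castSucc (S (f b)) then 1 else 0) else 0) i)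
      b.castSucc
    · simp
    · intro i j
      refine Fin.lastCases ?_ (fun i => ?_) i
      · simp
      · rw [Fin.lastCases_castSucc]
        by_cases hib : i = b
        · subst hib
          rw [hrow]; simp
        · by_cases hf : f i = f b
          · rw [if_pos ⟨hib, hf⟩, NN_cast, NN_cast, NN_cast]
            unfold ins
            rw [if_pos hf, hf]
            have hib' : i.castSucc ≠ b.castSucc := fun h => hib (Fin.castSucc_injective _ h)
            exact arc_sub_ins hib' hb hex
          · rw [if_neg (fun h => hf h.2), NN_cast, NN_cast]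
            unfold ins
            rw [if_neg hf]; ring

/-- add all elements of `L` -/
def insL (f : Fin n → Fin r) (S : Fin r → Finset (Fin (n + 1))) (L : Finset (Fin n)) :
    Fin r → Finset (Fin (n + 1)) := fun t => S t ∪ (L.filter fun b => f b = t).map Fin.castSuccEmb

theorem detN_insL (f : Fin n → Fin r) (S : Fin r → Finset (Fin (n + 1))) (L : Finset (Fin n)) :
    (NN f (insL f S L)).det = (NN f S).det := by
  induction L using Finset.induction_on with
  | empty =>
    congr 2
    funext t
    simp [insL]
  | insert b L hb ih =>
    rw [← ih, ← detN_ins f (insL f S L) b]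
    congr 2
    funext t
    unfold insL ins
    ext m
    by_cases ht : t = f b
    · subst ht
      simp only [Finset.mem_union, Finset.mem_map, Finset.mem_filter, Finset.mem_insert,
        if_true, Fin.castSuccEmb_apply]
      constructor
      · rintro (h | ⟨c, ⟨rfl | hc, hc2⟩, rfl⟩)
        · right; left; exact h
        · left; rfl
        · right; right; exact ⟨c, ⟨hc, hc2⟩, rfl⟩
      · rintro (rfl | h | ⟨c, ⟨hc, hc2⟩, rfl⟩)
        · right; exact ⟨b, ⟨Or.inl rfl, rfl⟩, rfl⟩
        · left; exact h
        · right; exact ⟨c, ⟨Or.inr hc, hc2⟩, rfl⟩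
    · rw [if_neg ht]
      simp only [Finset.mem_union, Finset.mem_map, Finset.mem_filter, Finset.mem_insert,
        Fin.castSuccEmb_apply]
      constructor
      · rintro (h | ⟨c, ⟨rfl | hc, hc2⟩, rfl⟩)
        · left; exact h
        · exact absurd hc2.symm ht
        · right; exact ⟨c, ⟨hc, hc2⟩, rfl⟩
      · rintro (h | ⟨c, ⟨hc, hc2⟩, rfl⟩)
        · left; exact h
        · right; exact ⟨c, ⟨Or.inr hc, hc2⟩, rfl⟩

/-- remove the block -/
def rem (f : Fin n → Fin r) (S : Fin r → Finset (Fin (n + 1))) :
    Fin r → Finset (Fin (n + 1)) := fun t => (S t).filter fun m => Fb f m ≠ some t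

theorem detN_rem (f : Fin n → Fin r) (S : Fin r → Finset (Fin (n + 1))) :
    (NN f (rem f S)).det = (NN f S).det := by
  rw [← detN_insL f S Finset.univ, ← detN_insL f (rem f S) Finset.univ]
  congr 2
  funext t
  ext m
  simp only [insL, rem, Finset.mem_union, Finset.mem_map, Finset.mem_filter, Finset.mem_univ,
    true_and, Fin.castSuccEmb_apply]
  constructor
  · rintro (⟨h, _⟩ | h)
    · exact Or.inl h
    · exact Or.inr h
  · rintro (h | h)
    · by_cases hm : Fb f m = some t
      · right
        revert hm
        refine Fin.lastCases ?_ (fun c => ?_) m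
        · intro hm; simp at hm
        · intro hm
          exact ⟨c, by simpa using hm, rfl⟩
      · exact Or.inl ⟨h, hm⟩
    · exact Or.inr h

end

end Pool.Agent.X226.Pd
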