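import Pool.Agent.X226.PdDef

set_option autoImplicit false

namespace Pool.Agent.X226.Pd

open Finset Matrix
open scoped Classical

variable {n r : ℕ}

noncomputable section

/-- entries of the scaled matrix -/
def aa (F : Fin (n + 1) → Option (Fin r)) (q : ℝ) (i j : Fin (n + 1)) : ℝ :=
  if Av F i j then (if i ≤ j then 1 else q) else 0

def TT (n : ℕ) (q : ℝ) : Matrix (Fin (n + 1)) (Fin (n + 1)) ℝ := fun l j =>
  (if l.val + 1 = j.val then 1 else 0) + (if l.val = n ∧ j.val = 0 then q else 0) -
    (if l = j then 1 else 0)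

def VV (F : Fin (n + 1) → Option (Fin r)) : Matrix (Fin (n + 1)) (Fin (n + 1)) ℝ := fun l j =>
  if F l = F j ∧ l ≤ j then 1 else 0

theorem mulT (A : Matrix (Fin (n + 1)) (Fin (n + 1)) ℝ) (q : ℝ) (i j : Fin (n + 1)) :
    (A * TT n q) i j = (if h : 0 < j.val then A i ⟨j.val - 1, by omega⟩ else q * A i (Fin.last n))
      - A i j := by
  rw [Matrix.mul_apply]
  have h1 : ∀ l : Fin (n + 1), A i l * TT n q l j =
      A i l * (if l.val + 1 = j.val then 1 else 0) + A i l * (if l.val = n ∧ j.val = 0 then q else 0)
        - A i l * (if l = j then 1 else 0) := by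
    intro l; unfold TT; ring
  simp only [h1, Finset.sum_sub_distrib, Finset.sum_add_distrib]
  have h3 : ∑ l, A i l * (if l = j then (1 : ℝ) else 0) = A i j := by simp
  rw [h3]
  congr 1
  split_ifs with h
  · have e1 : ∑ l : Fin (n + 1), A i l * (if l.val + 1 = j.val then (1 : ℝ) else 0)
        = A i ⟨j.val - 1, by omega⟩ := by
      rw [Finset.sum_eq_single (⟨j.val - 1, by omega⟩ : Fin (n + 1))]
      · have : (j.val - 1) + 1 = j.val := by omega
        simp [this]
      · intro b _ hb
        have : ¬ (b.val + 1 = j.val) := by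
          intro hc; apply hb; ext; simp; omega
        simp [this]
      · simp
    have e2 : ∑ l : Fin (n + 1), A i l * (if l.val = n ∧ j.val = 0 then q else 0) = 0 := by
      apply Finset.sum_eq_zero
      intro l _
      have : ¬ (l.val = n ∧ j.val = 0) := by omega
      rw [if_neg this, mul_zero]
    rw [e1, e2, add_zero]
  · have e1 : ∑ l : Fin (n + 1), A i l * (if l.val + 1 = j.val then (1 : ℝ) else 0) = 0 := by
      apply Finset.sum_eq_zero
      intro l _
      have : ¬ (l.val + 1 = j.val) := by omega
      simp [this]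
    have e2 : ∑ l : Fin (n + 1), A i l * (if l.val = n ∧ j.val = 0 then q else 0)
        = q * A i (Fin.last n) := by
      rw [Finset.sum_eq_single (Fin.last n)]
      · have : j.val = 0 := by omega
        simp [this, mul_comm]
      · intro b _ hb
        have : ¬ (b.val = n) := by
          intro hc; apply hb; ext; simp [hc]
        simp [this]
      · simp
    rw [e1, e2, zero_add]

theorem detT (q : ℝ) : (TT n q).det = (-1) ^ n * (q - 1) := by
  -- multiply by the upper triangular matrix of ones
  set U : Matrix (Fin (n + 1)) (Fin (n + 1)) ℝ := fun l j => if l ≤ j then 1 else 0 with hU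
  have hUd : U.det = 1 := by
    rw [Matrix.det_of_isUpperTriangular]
    · simp [hU]
    · intro i j hij
      have : ¬ (i ≤ j) := not_le.mpr hij
      simp [hU, this]
  have hm : ∀ i j : Fin (n + 1), (TT n q * U) i j =
      if i.val < n then (if i = j then -1 else 0) else (q - if i = j then 1 else 0) := by
    intro i j
    rw [Matrix.mul_apply]
    have h1 : ∀ l : Fin (n + 1), TT n q i l * U l j =
        (if i.val + 1 = l.val then (if l ≤ j then 1 else 0) else 0) +
        (if i.val = n ∧ l.val = 0 then q * (if l ≤ j then 1 else 0) else 0) -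
        (if i = l then (if l ≤ j then 1 else 0) else 0) := by
      intro l
      simp only [TT, hU]
      split_ifs <;> ring
    simp only [h1, Finset.sum_sub_distrib, Finset.sum_add_distrib]
    have e3 : ∑ l : Fin (n + 1), (if i = l then (if l ≤ j then (1 : ℝ) else 0) else 0) =
        if i ≤ j then 1 else 0 := by simp
    rw [e3]
    by_cases hi : i.val < n
    · have e1 : ∑ l : Fin (n + 1), (if i.val + 1 = l.val then (if l ≤ j then (1 : ℝ) else 0) else 0)
          = if i < j then 1 else 0 := by
        rw [Finset.sum_eq_single (⟨i.val + 1, by omega⟩ : Fin (n + 1))]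
        · rw [if_pos rfl]
          have : ((⟨i.val + 1, by omega⟩ : Fin (n + 1)) ≤ j) ↔ i < j := by
            rw [Fin.le_def, Fin.lt_def]
            constructor
            · intro h; have h' : i.val + 1 ≤ j.val := h; omega
            · intro h; show i.val + 1 ≤ j.val; omega
          simp only [this]
        · intro b _ hb
          have : ¬ (i.val + 1 = b.val) := by
            intro hc; apply hb; ext; simp [hc]
          simp [this]
        · simp
      have e2 : ∑ l : Fin (n + 1), (if i.val = n ∧ l.val = 0 then q * (if l ≤ j then 1 else 0) else 0)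
          = 0 := by
        apply Finset.sum_eq_zero
        intro l _
        have : ¬ (i.val = n ∧ l.val = 0) := by omega
        rw [if_neg this]
      rw [e1, e2, if_pos hi]
      rcases lt_trichotomy i j with h | h | h
      · simp [h, h.le, h.ne]
      · subst h; simp
      · simp [h.not_gt, not_le.mpr h, h.ne']
    · have e1 : ∑ l : Fin (n + 1), (if i.val + 1 = l.val then (if l ≤ j then (1 : ℝ) else 0) else 0)
          = 0 := by
        apply Finset.sum_eq_zero
        intro l _
        have : ¬ (i.val + 1 = l.val) := by omega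
        simp [this]
      have e2 : ∑ l : Fin (n + 1), (if i.val = n ∧ l.val = 0 then q * (if l ≤ j then 1 else 0) else 0)
          = q := by
        rw [Finset.sum_eq_single (0 : Fin (n + 1))]
        · have : i.val = n := by omega
          simp [this]
        · intro b _ hb
          have : ¬ (b.val = 0) := by
            intro hc; apply hb; ext; simp [hc]
          simp [this]
        · simp
      rw [e1, e2, if_neg hi]
      have hil : i = Fin.last n := by ext; simp; omega
      subst hil
      by_cases hj : Fin.last n = j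
      · subst hj; simp
      · have : ¬ (Fin.last n ≤ j) := by
          intro hc; exact hj (le_antisymm hc (Fin.le_last j))
        simp [this, hj]
  have hdet : (TT n q * U).det = (-1) ^ n * (q - 1) := by
    rw [Matrix.det_of_isLowerTriangular]
    · rw [Fin.prod_univ_castSucc]
      simp [hm]
    · intro i j hij
      have hij' : i < j := by simpa using hij
      have h1 : i.val < n := by have := hij'; rw [Fin.lt_def] at this; omega
      rw [hm, if_pos h1, if_neg hij'.ne]
  rw [Matrix.det_mul, hUd, mul_one] at hdet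
  exact hdet

theorem detV (F : Fin (n + 1) → Option (Fin r)) : (VV F).det = 1 := by
  rw [Matrix.det_of_isUpperTriangular]
  · simp [VV]
  · intro i j hij
    have : ¬ (i ≤ j) := not_le.mpr hij
    simp [VV, this]

theorem arc_pred {i l : Fin (n + 1)} (hl : 0 < l.val) (hil : l ≠ i) (b : Fin (n + 1)) :
    b ∈ arc i l ↔ b ∈ arc i ⟨l.val - 1, by omega⟩ ∨ b = l := by
  have h1 : l.val ≠ i.val := fun h => hil (Fin.ext h)
  have h2 : b = l ↔ b.val = l.val := Fin.ext_iff
  have := b.isLt
  have := l.isLt
  have := i.isLt
  rw [h2]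
  simp only [mem_arc, cd]
  split_ifs <;> omega

theorem arc_zero {i l : Fin (n + 1)} (hl : l.val = 0) (hil : l ≠ i) (b : Fin (n + 1)) :
    b ∈ arc i l ↔ b ∈ arc i (Fin.last n) ∨ b = l := by
  have h1 : l.val ≠ i.val := fun h => hil (Fin.ext h)
  have h2 : b = l ↔ b.val = l.val := Fin.ext_iff
  have := b.isLt
  have := l.isLt
  have := i.isLt
  rw [h2]
  simp only [mem_arc, cd, Fin.val_last]
  split_ifs <;> omega

theorem Av_congr {F : Fin (n + 1) → Option (Fin r)} {i l l' : Fin (n + 1)}
    (h : ∀ b, b ∈ arc i l ↔ b ∈ arc i l' ∨ b = l) (hF : F l ≠ F i) :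
    Av F i l ↔ Av F i l' := by
  constructor
  · intro H b hb hb'
    exact H b hb ((h b).2 (Or.inl hb'))
  · intro H b hb hb'
    rcases (h b).1 hb' with h1 | h1
    · exact H b hb h1
    · subst h1; exact hF hb

/-- the difference of consecutive entries vanishes outside of the block -/
theorem diff_zero (F : Fin (n + 1) → Option (Fin r)) (q : ℝ) {i l : Fin (n + 1)}
    (hF : F l ≠ F i) :
    (if h : 0 < l.val then aa F q i ⟨l.val - 1, by omega⟩ else q * aa F q i (Fin.last n))
      - aa F q i l = 0 := by
  have hli : l ≠ i := by rintro rfl; exact hF rfl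
  have h1 : l.val ≠ i.val := fun h => hli (Fin.ext h)
  split_ifs with h
  · have hA := Av_congr (arc_pred h hli) hF
    unfold aa
    rw [if_congr hA rfl rfl]
    have h2 : (i ≤ (⟨l.val - 1, by omega⟩ : Fin (n + 1))) ↔ i ≤ l := by
      rw [Fin.le_def, Fin.le_def]
      constructor
      · intro h'; have h'' : i.val ≤ l.val - 1 := h'; omega
      · intro h'; show i.val ≤ l.val - 1; omega
    rw [if_congr h2 rfl rfl]
    ring
  · have hl0 : l.val = 0 := by omega
    have hA := Av_congr (arc_zero hl0 hli) hF
    unfold aa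
    rw [if_congr hA rfl rfl]
    have h2 : ¬ (i ≤ l) := by rw [Fin.le_def]; omega
    rw [if_neg h2, if_pos (Fin.le_last i)]
    split_ifs <;> ring

/-- telescoping -/
theorem tele (F : Fin (n + 1) → Option (Fin r)) (q : ℝ) (i : Fin (n + 1)) :
    ∀ j : ℕ, ∀ hj : j < n + 1, ∑ l : Fin (n + 1), (if l.val ≤ j then
      ((if h : 0 < l.val then aa F q i ⟨l.val - 1, by omega⟩ else q * aa F q i (Fin.last n))
      - aa F q i l) else 0) = q * aa F q i (Fin.last n) - aa F q i ⟨j, hj⟩ := by
  intro j
  induction j with
  | zero =>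
    intro hj
    rw [Finset.sum_eq_single (0 : Fin (n + 1))]
    · simp
    · intro b _ hb
      have : ¬ (b.val ≤ 0) := by
        intro hc; apply hb; apply Fin.ext; have := Nat.le_zero.mp hc; rw [this]; rfl
      rw [if_neg this]
    · simp
  | succ j ih =>
    intro hj
    have ih' := ih (by omega)
    have key : ∀ l : Fin (n + 1), (if l.val ≤ j + 1 then
      ((if h : 0 < l.val then aa F q i ⟨l.val - 1, by omega⟩ else q * aa F q i (Fin.last n))
      - aa F q i l) else 0) = (if l.val ≤ j then
      ((if h : 0 < l.val then aa F q i ⟨l.val - 1, by omega⟩ else q * aa F q i (Fin.last n))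
      - aa F q i l) else 0) + (if l = ⟨j + 1, hj⟩ then
      ((if h : 0 < l.val then aa F q i ⟨l.val - 1, by omega⟩ else q * aa F q i (Fin.last n))
      - aa F q i l) else 0) := by
      intro l
      have h2 : l = (⟨j + 1, hj⟩ : Fin (n + 1)) ↔ l.val = j + 1 := by
        rw [Fin.ext_iff]
      by_cases h3 : l.val = j + 1
      · rw [if_pos (by omega : l.val ≤ j + 1), if_neg (by omega : ¬ l.val ≤ j), if_pos (h2.2 h3),
          zero_add]
      · rw [if_neg (fun h => h3 (h2.1 h)), add_zero]
        by_cases h4 : l.val ≤ j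
        · rw [if_pos h4, if_pos (by omega)]
        · rw [if_neg h4, if_neg (by omega)]
    rw [Finset.sum_congr rfl (fun l _ => key l), Finset.sum_add_distrib, ih',
      Finset.sum_ite_eq' Finset.univ, if_pos (Finset.mem_univ _)]
    simp

/-- the product of a non-last row with `T V` -/
theorem rowTV (F : Fin (n + 1) → Option (Fin r)) (q : ℝ) (A : Matrix (Fin (n + 1)) (Fin (n + 1)) ℝ)
    (i : Fin (n + 1)) (hA : ∀ j, A i j = aa F q i j) (j : Fin (n + 1)) :
    (A * TT n q * VV F) i j =
      if F j = F i then q * aa F q i (Fin.last n) - aa F q i j else 0 := by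
  rw [Matrix.mul_apply]
  simp only [mulT, hA]
  by_cases hj : F j = F i
  · rw [if_pos hj, ← tele F q i j.val j.isLt]
    apply Finset.sum_congr rfl
    intro l _
    by_cases hl : F l = F i
    · unfold VV
      by_cases hlj : l.val ≤ j.val
      · rw [if_pos ⟨hl.trans hj.symm, hlj⟩, if_pos hlj, mul_one]
      · rw [if_neg (fun h => hlj h.2), if_neg hlj, mul_zero]
    · rw [diff_zero F q hl, zero_mul]
      split_ifs <;> rfl
  · rw [if_neg hj]
    apply Finset.sum_eq_zero
    intro l _
    unfold VV
    by_cases hlj : F l = F j ∧ l ≤ j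
    · have hl : F l ≠ F i := by rw [hlj.1]; exact hj
      rw [diff_zero F q hl, zero_mul]
    · rw [if_neg hlj, mul_zero]

theorem aa_block (F : Fin (n + 1) → Option (Fin r)) (q : ℝ) {i j : Fin (n + 1)} (h : F j = F i) :
    aa F q i j = if j = i then 1 else 0 := by
  unfold aa
  by_cases hij : j = i
  · subst hij
    have : Av F j j := by
      intro b _ hb
      rw [mem_arc] at hb
      simp only [cd] at hb
      split_ifs at hb <;> omega
    simp [this]
  · have : ¬ Av F i j := by
      intro H
      apply H j h
      rw [mem_arc]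
      have h1 : j.val ≠ i.val := fun h => hij (Fin.ext h)
      simp only [cd]
      split_ifs <;> omega
    rw [if_neg this, if_neg hij]

theorem aa_last (F : Fin (n + 1) → Option (Fin r)) (q : ℝ) (i : Fin (n + 1)) :
    aa F q i (Fin.last n) = if (∀ b, F b = F i → b ≤ i) then 1 else 0 := by
  unfold aa
  rw [if_pos (Fin.le_last i)]
  have : Av F i (Fin.last n) ↔ ∀ b, F b = F i → b ≤ i := by
    unfold Av
    refine forall_congr' fun b => imp_congr_right fun hb => ?_
    rw [mem_arc, Fin.le_def]
    have := b.isLt
    have := i.isLt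
    simp only [cd, Fin.val_last]
    split_ifs <;> omega
  rw [if_congr this rfl rfl]

/-- the maxima of the blocks -/
def mx (f : Fin n → Fin r) (i : Fin n) : Prop := ∀ b : Fin n, f b = f i → b ≤ i

theorem card_mx (f : Fin n → Fin r) (hf : Function.Surjective f) :
    (Finset.univ.filter fun i => mx f i).card = r := by
  have h : (Finset.univ.filter fun i => mx f i).card = (Finset.univ : Finset (Fin r)).card := by
    apply Finset.card_bij (fun i _ => f i)
    · intro i _; exact Finset.mem_univ _
    · intro i hi j hj hij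
      have h1 := (Finset.mem_filter.1 hi).2
      have h2 := (Finset.mem_filter.1 hj).2
      exact le_antisymm (h2 i hij) (h1 j hij.symm)
    · intro t _
      obtain ⟨i0, hi0⟩ := hf t
      have hne : (Finset.univ.filter fun i => f i = t).Nonempty := ⟨i0, by simp [hi0]⟩
      refine ⟨(Finset.univ.filter fun i => f i = t).max' hne, ?_, ?_⟩
      · have hm := Finset.max'_mem _ hne
        rw [Finset.mem_filter] at hm
        rw [Finset.mem_filter]
        refine ⟨Finset.mem_univ _, fun b hb => ?_⟩
        apply Finset.le_max'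
        rw [Finset.mem_filter]
        exact ⟨Finset.mem_univ _, hb.trans hm.2⟩
      · have hm := Finset.max'_mem _ hne
        rw [Finset.mem_filter] at hm
        exact hm.2
  rw [h, Finset.card_univ, Fintype.card_fin]

theorem prod_mx (f : Fin n → Fin r) (hf : Function.Surjective f) (q : ℝ) :
    ∏ i : Fin n, ((q * if mx f i then 1 else 0) - 1) = (q - 1) ^ r * (-1) ^ (n - r) := by
  have h1 : ∀ i : Fin n, ((q * if mx f i then 1 else 0) - 1) =
      if mx f i then (q - 1) else (-1) := by
    intro i; split_ifs <;> ring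
  simp only [h1]
  rw [Finset.prod_ite, Finset.prod_const, Finset.prod_const, card_mx f hf]
  congr 2
  have h2 := Finset.card_filter_add_card_filter_not (s := (Finset.univ : Finset (Fin n))) (fun i => mx f i)
  rw [card_mx f hf, Finset.card_univ, Fintype.card_fin] at h2
  omega

/-- potentials -/
def GG (ρ : Fin (n + 1) → ℝ) (j : Fin (n + 1)) : ℝ := ∏ m, if m ≤ j then ρ m else 1

theorem GG_last (ρ : Fin (n + 1) → ℝ) : GG ρ (Fin.last n) = ∏ m, ρ m := by
  unfold GG
  apply Finset.prod_congr rfl
  intro m _
  rw [if_pos (Fin.le_last m)]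

theorem prod_arc (ρ : Fin (n + 1) → ℝ) (i j : Fin (n + 1)) :
    (∏ m ∈ arc i j, ρ m) * GG ρ i = (if i ≤ j then 1 else ∏ m, ρ m) * GG ρ j := by
  have e : ∏ m ∈ arc i j, ρ m = ∏ m, if m ∈ arc i j then ρ m else 1 := by
    rw [Finset.prod_ite_mem, Finset.univ_inter]
  rw [e]
  unfold GG
  rw [← Finset.prod_mul_distrib]
  split_ifs with h
  · rw [one_mul]
    apply Finset.prod_congr rfl
    intro m _
    rw [Fin.le_def] at h
    have h1 := m.isLt
    have h2 : m ∈ arc i j ↔ i.val < m.val ∧ m.val ≤ j.val := by
      rw [mem_arc]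
      simp only [cd]
      split_ifs <;> omega
    simp only [h2, Fin.le_def]
    by_cases c1 : m.val ≤ i.val
    · rw [if_neg (by omega), if_pos c1, if_pos (by omega), one_mul]
    · by_cases c2 : m.val ≤ j.val
      · rw [if_pos (by omega), if_neg c1, if_pos c2, mul_one]
      · rw [if_neg (by omega), if_neg c1, if_neg c2, mul_one]
  · rw [← Finset.prod_mul_distrib]
    apply Finset.prod_congr rfl
    intro m _
    rw [Fin.le_def] at h
    have h1 := m.isLt
    have h2 : m ∈ arc i j ↔ i.val < m.val ∨ m.val ≤ j.val := by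
      rw [mem_arc]
      simp only [cd]
      split_ifs <;> omega
    simp only [h2, Fin.le_def]
    by_cases c1 : m.val ≤ i.val
    · by_cases c2 : m.val ≤ j.val
      · rw [if_pos (by omega), if_pos c1, if_pos c2]
      · rw [if_neg (by omega), if_pos c1, if_neg c2]; ring
    · rw [if_pos (by omega), if_neg c1, if_neg (by omega)]

/-- The expected rows. -/
def ww (F : Fin (n + 1) → Option (Fin r)) (ρ : Fin (n + 1) → ℝ) (i j : Fin (n + 1)) : ℝ :=
  if Av F i j then ∏ m ∈ arc i j, ρ m else 0

def Wm (f : Fin n → Fin r) (ρ : Fin (n + 1) → ℝ) : Matrix (Fin (n + 1)) (Fin (n + 1)) ℝ :=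
  fun i j => if i = Fin.last n then 1 else ww (Fb f) ρ i j

def Ah (f : Fin n → Fin r) (ρ : Fin (n + 1) → ℝ) : Matrix (Fin (n + 1)) (Fin (n + 1)) ℝ :=
  fun i j => if i = Fin.last n then (GG ρ j)⁻¹ else aa (Fb f) (∏ m, ρ m) i j

theorem GG_ne {ρ : Fin (n + 1) → ℝ} (hρ : ∀ m, ρ m ≠ 0) (j : Fin (n + 1)) : GG ρ j ≠ 0 := by
  unfold GG
  rw [Finset.prod_ne_zero_iff]
  intro m _
  split_ifs
  · exact hρ m
  · exact one_ne_zero

theorem detW_eq (f : Fin n → Fin r) {ρ : Fin (n + 1) → ℝ} (hρ : ∀ m, ρ m ≠ 0) :
    (Wm f ρ).det = (∏ m, ρ m) * (Ah f ρ).det := by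
  have h1 : Wm f ρ = Matrix.of (fun i j => (if i = Fin.last n then 1 else (GG ρ i)⁻¹) *
      (Matrix.of (fun i j => GG ρ j * Ah f ρ i j)) i j) := by
    ext i j
    simp only [Matrix.of_apply, Wm, Ah]
    by_cases hi : i = Fin.last n
    · rw [if_pos hi, if_pos hi, if_pos hi]
      rw [mul_inv_cancel₀ (GG_ne hρ j)]; ring
    · rw [if_neg hi, if_neg hi, if_neg hi]
      unfold ww aa
      split_ifs with h2 h3
      · have := prod_arc ρ i j
        rw [if_pos h3] at this
        have hG := GG_ne hρ i
        field_simp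
        linarith
      · have := prod_arc ρ i j
        rw [if_neg h3] at this
        have hG := GG_ne hρ i
        field_simp
        linarith
      · ring
  rw [h1, Matrix.det_mul_column, Matrix.det_mul_row, ← mul_assoc]
  congr 1
  rw [Fin.prod_univ_castSucc, Fin.prod_univ_castSucc (f := fun i => GG ρ i)]
  have h2 : ∀ i : Fin n, (if i.castSucc = Fin.last n then (1 : ℝ) else (GG ρ i.castSucc)⁻¹) =
      (GG ρ i.castSucc)⁻¹ := by
    intro i
    rw [if_neg (Fin.castSucc_lt_last i).ne]
  simp only [h2, if_true]
  rw [GG_last, mul_one, ← mul_assoc, ← Finset.prod_mul_distrib]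
  have h3 : ∀ i : Fin n, (GG ρ i.castSucc)⁻¹ * GG ρ i.castSucc = 1 := fun i =>
    inv_mul_cancel₀ (GG_ne hρ _)
  simp only [h3, Finset.prod_const_one, one_mul]

theorem detA (f : Fin n → Fin r) (hf : Function.Surjective f) (hr : 1 ≤ r) {ρ : Fin (n + 1) → ℝ}
    (hρ : ∀ m, ρ m ≠ 0) :
    (Ah f ρ).det * ((-1) ^ n * ((∏ m, ρ m) - 1)) * (∏ m, ρ m) =
      (((∏ m, ρ m) - 1) ^ r * (-1) ^ (n - r)) * (ρ (Fin.last n) - 1) := by
  set q := ∏ m, ρ m with hq
  have hn : 0 < n := by
    rcases Nat.eq_zero_or_pos n with h | h
    · subst h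
      obtain ⟨i, _⟩ := hf ⟨0, hr⟩
      exact i.elim0
    · exact h
  have hne : ∀ i : Fin n, i.castSucc ≠ Fin.last n := fun i => (Fin.castSucc_lt_last i).ne
  have hrow : ∀ (i : Fin n) (j : Fin (n + 1)), (Ah f ρ * TT n q * VV (Fb f)) i.castSucc j =
      if Fb f j = Fb f i.castSucc then (q * if mx f i then 1 else 0) - (if j = i.castSucc then 1 else 0)
      else 0 := by
    intro i j
    rw [rowTV (Fb f) q (Ah f ρ) i.castSucc (fun j => by simp only [Ah, if_neg (hne i), hq])]
    by_cases hj : Fb f j = Fb f i.castSucc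
    · rw [if_pos hj, if_pos hj, aa_block _ _ hj, aa_last]
      have : (∀ b, Fb f b = Fb f i.castSucc → b ≤ i.castSucc) ↔ mx f i := by
        constructor
        · intro H b hb
          have := H b.castSucc (by simp [hb])
          simpa using this
        · intro H b hb
          revert hb
          refine Fin.lastCases ?_ (fun b => ?_) b
          · intro hb; simp at hb
          · intro hb
            have : f b = f i := by simpa using hb
            simpa using H b this
      rw [if_congr this rfl rfl]
    · rw [if_neg hj, if_neg hj]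
  have hlast : (Ah f ρ * TT n q * VV (Fb f)) (Fin.last n) (Fin.last n) * q = ρ (Fin.last n) - 1 := by
    rw [Matrix.mul_apply, Finset.sum_eq_single (Fin.last n)]
    · rw [mulT, dif_pos (by simpa using hn)]
      have h1 : Ah f ρ (Fin.last n) (Fin.last n) = q⁻¹ := by
        simp only [Ah, if_true, GG_last, hq]
      have h2 : Ah f ρ (Fin.last n) ⟨(Fin.last n).val - 1, by omega⟩ = ρ (Fin.last n) * q⁻¹ := by
        simp only [Ah, if_true]
        have h3 : GG ρ (⟨(Fin.last n).val - 1, by omega⟩ : Fin (n + 1)) * ρ (Fin.last n) = q := by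
          rw [hq]
          unfold GG
          rw [Fin.prod_univ_castSucc, Fin.prod_univ_castSucc (f := ρ)]
          rw [if_neg, mul_one]
          · congr 1
            apply Finset.prod_congr rfl
            intro m _
            rw [if_pos]
            rw [Fin.le_def]
            have := m.isLt
            show m.val ≤ n - 1
            omega
          · rw [Fin.le_def]
            show ¬ (n ≤ n - 1)
            omega
        have h4 := GG_ne hρ (⟨(Fin.last n).val - 1, by omega⟩ : Fin (n + 1))
        rw [← h3]
        have h5 := hρ (Fin.last n)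
        field_simp
      rw [h1, h2]
      have hq0 : q ≠ 0 := by
        rw [hq]; exact Finset.prod_ne_zero_iff.2 (fun m _ => hρ m)
      have hV : VV (Fb f) (Fin.last n) (Fin.last n) = 1 := by simp [VV]
      rw [hV]
      field_simp
    · intro l _ hl
      have : VV (Fb f) l (Fin.last n) = 0 := by
        unfold VV
        rw [if_neg]
        rintro ⟨h1, _⟩
        revert h1 hl
        refine Fin.lastCases ?_ (fun b => ?_) l
        · intro hl; exact absurd rfl hl
        · intro _ h1; simp at h1
      rw [this, mul_zero]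
    · simp
  have hdet : (Ah f ρ * TT n q * VV (Fb f)).det =
      (∏ i : Fin n, ((q * if mx f i then 1 else 0) - 1)) *
        (Ah f ρ * TT n q * VV (Fb f)) (Fin.last n) (Fin.last n) := by
    rw [Matrix.det_of_isLowerTriangular]
    · rw [Fin.prod_univ_castSucc]
      congr 1
      apply Finset.prod_congr rfl
      intro i _
      rw [hrow, if_pos rfl, if_pos rfl]
    · intro i j hij
      have hij' : i < j := by simpa using hij
      revert hij'
      refine Fin.lastCases ?_ (fun i => ?_) i
      · intro h; exact absurd h (not_lt.mpr (Fin.le_last j))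
      · intro h
        rw [hrow]
        by_cases hj : Fb f j = Fb f i.castSucc
        · rw [if_pos hj, if_neg h.ne', if_neg]
          · ring
          · intro H
            revert hj h
            refine Fin.lastCases ?_ (fun b => ?_) j
            · intro _ hj; simp at hj
            · intro hb hj
              have h1 : f b = f i := by simpa using hj
              have h2 := H b h1
              rw [Fin.lt_def] at hb
              rw [Fin.le_def] at h2
              simp at hb
              omega
        · rw [if_neg hj]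
  rw [Matrix.det_mul, Matrix.det_mul, detT, detV, mul_one, prod_mx f hf] at hdet
  rw [hdet, mul_assoc, hlast]

/-- **The determinant of the expected matrix.** -/
theorem detW (f : Fin n → Fin r) (hf : Function.Surjective f) (hr : 1 ≤ r) {ρ : Fin (n + 1) → ℝ}
    (hρ : ∀ m, ρ m ≠ 0) (hq : ∏ m, ρ m ≠ 1) :
    (Wm f ρ).det = (1 - ∏ m, ρ m) ^ (r - 1) * (1 - ρ (Fin.last n)) := by
  have h1 := detA f hf hr hρ
  rw [detW_eq f hρ]
  set q := ∏ m, ρ m with hqd
  have hrn : r ≤ n := by
    have := Fintype.card_le_of_surjective f hf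
    simpa using this
  obtain ⟨r', rfl⟩ : ∃ r', r = r' + 1 := ⟨r - 1, by omega⟩
  obtain ⟨e, rfl⟩ : ∃ e, n = r' + 1 + e := ⟨n - (r' + 1), by omega⟩
  have h2 : q - 1 ≠ 0 := sub_ne_zero.2 hq
  have h3 : r' + 1 + e - (r' + 1) = e := by omega
  rw [h3] at h1
  have h4 : ((-1 : ℝ) ^ e) ≠ 0 := pow_ne_zero _ (by norm_num)
  have h5 : (r' + 1 - 1) = r' := by omega
  rw [h5]
  have h6 : ((q - 1) * (-1) ^ e) * (q * (Ah f ρ).det * (-1) ^ (r' + 1)) =
      ((q - 1) * (-1) ^ e) * ((q - 1) ^ r' * (ρ (Fin.last (r' + 1 + e)) - 1)) := by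
    rw [pow_add] at h1
    linear_combination h1
  have h7 := mul_left_cancel₀ (mul_ne_zero h2 h4) h6
  have h8 : ((-1 : ℝ) ^ (r' + 1)) * (-1) ^ (r' + 1) = 1 := by
    rw [← mul_pow]; norm_num
  have h9 : (1 - q) ^ r' = (-1) ^ r' * (q - 1) ^ r' := by
    rw [← mul_pow]; congr 1; ring
  rw [h9]
  calc q * (Ah f ρ).det = (q * (Ah f ρ).det * (-1) ^ (r' + 1)) * (-1) ^ (r' + 1) := by
        rw [mul_assoc, h8, mul_one]
    _ = _ := by rw [h7, pow_succ]; ring

end

end Pool.Agent.X226.Pd
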