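import Pool.Agent.X226.PdA
import Pool.Agent.X226.PdB

set_option autoImplicit false

namespace Pool.Agent.X226.Pd

open Finset Matrix
open scoped Classical

variable {n r : ℕ}

noncomputable section

theorem det_rows (M : Matrix (Fin (n + 1)) (Fin (n + 1)) ℝ) :
    M.det = ∑ σ : Equiv.Perm (Fin (n + 1)), ((Equiv.Perm.sign σ : ℤ) : ℝ) * ∏ i, M i (σ i) := by
  rw [← Matrix.det_transpose, Matrix.det_apply']
  rfl

/-- weight of a set -/
theorem sum_sets (x : Fin (n + 1) → ℝ) (U : Finset (Fin (n + 1))) :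
    ∑ A : Finset (Fin (n + 1)), (∏ m ∈ A, x m) * (if U ⊆ A then 1 else 0) =
      ∏ m, (x m + if m ∈ U then 0 else 1) := by
  rw [Finset.prod_add, Finset.powerset_univ]
  apply Finset.sum_congr rfl
  intro A _
  congr 1
  split_ifs with h
  · symm
    apply Finset.prod_eq_one
    intro m hm
    rw [if_neg]
    intro hmU
    exact (Finset.mem_sdiff.1 hm).2 (h hmU)
  · symm
    rw [Finset.not_subset] at h
    obtain ⟨m, hm, hmA⟩ := h
    apply Finset.prod_eq_zero (Finset.mem_sdiff.2 ⟨Finset.mem_univ m, hmA⟩)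
    rw [if_pos hm]

theorem sum_tuples (x : Fin (n + 1) → ℝ) (U : Fin r → Finset (Fin (n + 1))) :
    ∑ S : Fin r → Finset (Fin (n + 1)), (∏ t, ∏ m ∈ S t, x m) * (if ∀ t, U t ⊆ S t then 1 else 0) =
      ∏ t, ∏ m, (x m + if m ∈ U t then 0 else 1) := by
  have h1 : ∀ t, ∏ m, (x m + if m ∈ U t then 0 else 1) =
      ∑ A : Finset (Fin (n + 1)), (∏ m ∈ A, x m) * (if U t ⊆ A then 1 else 0) :=
    fun t => (sum_sets x (U t)).symm
  simp only [h1]
  rw [Finset.prod_univ_sum, Fintype.piFinset_univ]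
  apply Finset.sum_congr rfl
  intro S _
  rw [Finset.prod_mul_distrib]
  congr 1
  by_cases h : ∀ t, U t ⊆ S t
  · rw [if_pos h]
    symm
    apply Finset.prod_eq_one
    intro t _
    rw [if_pos (h t)]
  · rw [if_neg h]
    push Not at h
    obtain ⟨t, ht⟩ := h
    symm
    apply Finset.prod_eq_zero (Finset.mem_univ t)
    rw [if_neg ht]

/-- the union of the constraints -/
def UU (f : Fin n → Fin r) (D : Finset (Fin n)) (σ : Equiv.Perm (Fin (n + 1))) (t : Fin r) :
    Finset (Fin (n + 1)) :=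
  Finset.univ.filter fun m => (∃ i : Fin n, f i = t ∧ i ∈ D ∧ m = i.castSucc) ∨
    (∃ i : Fin n, f i = t ∧ m ∈ arc i.castSucc (σ i.castSucc))

theorem arc_disj (f : Fin n → Fin r) (σ : Equiv.Perm (Fin (n + 1)))
    (hav : ∀ i : Fin n, Av (Fb f) i.castSucc (σ i.castSucc)) {i i' : Fin n} (h : f i = f i')
    {m : Fin (n + 1)} (h1 : m ∈ arc i.castSucc (σ i.castSucc))
    (h2 : m ∈ arc i'.castSucc (σ i'.castSucc)) : i = i' := by
  by_contra hne
  have hv : i.val ≠ i'.val := fun h => hne (Fin.ext h)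
  have a1 := hav i i'.castSucc (by simp [h])
  have a2 := hav i' i.castSucc (by simp [h])
  have := m.isLt
  have := i.isLt
  have := i'.isLt
  have := (σ i.castSucc).isLt
  have := (σ i'.castSucc).isLt
  rw [mem_arc] at h1 h2 a1 a2
  simp only [cd, Fin.val_castSucc] at h1 h2 a1 a2
  split_ifs at * <;> omega

theorem factor (f : Fin n → Fin r) (D : Finset (Fin n)) (σ : Equiv.Perm (Fin (n + 1)))
    (hav : ∀ i : Fin n, Av (Fb f) i.castSucc (σ i.castSucc)) (ρ : Fin (n + 1) → ℝ)
    (t : Fin r) (m : Fin (n + 1)) :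
    (if m ∈ UU f D σ t then ρ m else 1) =
      (∏ i : Fin n, if f i = t ∧ i ∈ D ∧ m = i.castSucc then ρ m else 1) *
      (∏ i : Fin n, if f i = t ∧ m ∈ arc i.castSucc (σ i.castSucc) then ρ m else 1) := by
  by_cases hA : ∃ i : Fin n, f i = t ∧ i ∈ D ∧ m = i.castSucc
  · obtain ⟨i, hi⟩ := hA
    rw [if_pos (by unfold UU; rw [Finset.mem_filter]; exact ⟨Finset.mem_univ _, Or.inl ⟨i, hi⟩⟩)]
    rw [Finset.prod_eq_single i, if_pos hi, Finset.prod_eq_one, mul_one]
    · intro i' _
      rw [if_neg]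
      rintro ⟨h1, h2⟩
      apply hav i' m _ h2
      rw [hi.2.2, Fb_cast, Fb_cast, hi.1, h1]
    · intro i' _ hne
      rw [if_neg]
      rintro ⟨_, _, h3⟩
      apply hne
      rw [hi.2.2] at h3
      exact (Fin.castSucc_injective _ h3).symm
    · intro h; exact absurd (Finset.mem_univ _) h
  · by_cases hB : ∃ i : Fin n, f i = t ∧ m ∈ arc i.castSucc (σ i.castSucc)
    · obtain ⟨i, hi⟩ := hB
      rw [if_pos (by unfold UU; rw [Finset.mem_filter]; exact ⟨Finset.mem_univ _, Or.inr ⟨i, hi⟩⟩)]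
      rw [Finset.prod_eq_one, one_mul, Finset.prod_eq_single i, if_pos hi]
      · intro i' _ hne
        rw [if_neg]
        rintro ⟨h1, h2⟩
        exact hne (arc_disj f σ hav (h1.trans hi.1.symm) h2 hi.2)
      · intro h; exact absurd (Finset.mem_univ _) h
      · intro i' _
        rw [if_neg (fun h => hA ⟨i', h⟩)]
    · rw [if_neg, Finset.prod_eq_one, Finset.prod_eq_one, one_mul]
      · intro i' _
        rw [if_neg (fun h => hB ⟨i', h⟩)]
      · intro i' _
        rw [if_neg (fun h => hA ⟨i', h⟩)]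
      · unfold UU
        rw [Finset.mem_filter]
        rintro ⟨_, h | h⟩
        · exact hA h
        · exact hB h

theorem factor_prod (f : Fin n → Fin r) (D : Finset (Fin n)) (σ : Equiv.Perm (Fin (n + 1)))
    (hav : ∀ i : Fin n, Av (Fb f) i.castSucc (σ i.castSucc)) (ρ : Fin (n + 1) → ℝ) :
    ∏ t, ∏ m, (if m ∈ UU f D σ t then ρ m else 1) =
      (∏ i ∈ D, ρ i.castSucc) * ∏ i : Fin n, ∏ m ∈ arc i.castSucc (σ i.castSucc), ρ m := by
  simp only [factor f D σ hav ρ, Finset.prod_mul_distrib]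
  congr 1
  · have h1 : ∀ t : Fin r, ∏ m : Fin (n + 1), ∏ i : Fin n,
        (if f i = t ∧ i ∈ D ∧ m = i.castSucc then ρ m else 1) =
        ∏ i : Fin n, ∏ m : Fin (n + 1), (if f i = t ∧ i ∈ D ∧ m = i.castSucc then ρ m else 1) :=
      fun t => Finset.prod_comm
    simp only [h1]
    rw [Finset.prod_comm]
    have h2 : ∀ i : Fin n, ∏ t : Fin r, ∏ m : Fin (n + 1),
        (if f i = t ∧ i ∈ D ∧ m = i.castSucc then ρ m else 1) =
        if i ∈ D then ρ i.castSucc else 1 := by
      intro i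
      rw [Finset.prod_eq_single (f i)]
      · rw [Finset.prod_eq_single i.castSucc]
        · simp
        · intro m _ hm
          rw [if_neg (fun h => hm h.2.2)]
        · intro h; exact absurd (Finset.mem_univ _) h
      · intro t _ ht
        apply Finset.prod_eq_one
        intro m _
        rw [if_neg (fun h => ht h.1.symm)]
      · intro h; exact absurd (Finset.mem_univ _) h
    simp only [h2]
    rw [Finset.prod_ite_mem, Finset.univ_inter]
  · have h1 : ∀ t : Fin r, ∏ m : Fin (n + 1), ∏ i : Fin n,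
        (if f i = t ∧ m ∈ arc i.castSucc (σ i.castSucc) then ρ m else 1) =
        ∏ i : Fin n, ∏ m : Fin (n + 1), (if f i = t ∧ m ∈ arc i.castSucc (σ i.castSucc) then ρ m else 1) :=
      fun t => Finset.prod_comm
    simp only [h1]
    rw [Finset.prod_comm]
    apply Finset.prod_congr rfl
    intro i _
    rw [Finset.prod_eq_single (f i)]
    · have h3 : ∀ m : Fin (n + 1), (if f i = f i ∧ m ∈ arc i.castSucc (σ i.castSucc) then ρ m else 1) =
        if m ∈ arc i.castSucc (σ i.castSucc) then ρ m else 1 := by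
        intro m; simp
      rw [Finset.prod_congr rfl (fun m _ => h3 m), Finset.prod_ite_mem, Finset.univ_inter]
    · intro t _ ht
      apply Finset.prod_eq_one
      intro m _
      rw [if_neg (fun h => ht h.1.symm)]
    · intro h; exact absurd (Finset.mem_univ _) h

theorem ind_mul (P Q : Prop) [Decidable P] [Decidable Q] :
    (if P then (1 : ℝ) else 0) * (if Q then 1 else 0) = if P ∧ Q then 1 else 0 := by
  by_cases hP : P <;> by_cases hQ : Q <;> simp [hP, hQ]

theorem expand (f : Fin n → Fin r) (D : Finset (Fin n)) (S : Fin r → Finset (Fin (n + 1)))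
    (σ : Equiv.Perm (Fin (n + 1))) :
    (if ∀ i ∈ D, i.castSucc ∈ S (f i) then (1 : ℝ) else 0) * ∏ i, NN f (rem f S) i (σ i) =
      (if ∀ i : Fin n, Av (Fb f) i.castSucc (σ i.castSucc) then 1 else 0) *
      (if ∀ t, UU f D σ t ⊆ S t then 1 else 0) := by
  rw [Fin.prod_univ_castSucc, NN_last, mul_one]
  simp only [NN_cast]
  have h1 : ∏ i : Fin n, (if arc i.castSucc (σ i.castSucc) ⊆ rem f S (f i) then (1 : ℝ) else 0) =
      if ∀ i : Fin n, arc i.castSucc (σ i.castSucc) ⊆ rem f S (f i) then 1 else 0 := by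
    by_cases h : ∀ i : Fin n, arc i.castSucc (σ i.castSucc) ⊆ rem f S (f i)
    · rw [if_pos h]
      apply Finset.prod_eq_one
      intro i _
      rw [if_pos (h i)]
    · rw [if_neg h]
      push Not at h
      obtain ⟨i, hi⟩ := h
      apply Finset.prod_eq_zero (Finset.mem_univ i)
      rw [if_neg hi]
  rw [h1, ind_mul, ind_mul]
  apply if_congr _ rfl rfl
  constructor
  · rintro ⟨hD, ha⟩
    refine ⟨?_, ?_⟩
    · intro i b hb hbm
      have h2 := ha i hbm
      unfold rem at h2
      rw [Finset.mem_filter] at h2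
      apply h2.2
      rw [hb, Fb_cast]
    · intro t m hm
      unfold UU at hm
      rw [Finset.mem_filter] at hm
      rcases hm.2 with ⟨i, h1, h2, rfl⟩ | ⟨i, h1, h2⟩
      · rw [← h1]; exact hD i h2
      · rw [← h1]
        have h3 := ha i h2
        unfold rem at h3
        exact (Finset.mem_filter.1 h3).1
  · rintro ⟨hav, hU⟩
    refine ⟨?_, ?_⟩
    · intro i hi
      apply hU (f i)
      unfold UU
      rw [Finset.mem_filter]
      exact ⟨Finset.mem_univ _, Or.inl ⟨i, rfl, hi, rfl⟩⟩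
    · intro i m hm
      unfold rem
      rw [Finset.mem_filter]
      refine ⟨hU (f i) ?_, ?_⟩
      · unfold UU
        rw [Finset.mem_filter]
        exact ⟨Finset.mem_univ _, Or.inr ⟨i, rfl, hm⟩⟩
      · intro h
        exact hav i m (by rw [h, Fb_cast]) hm

/-- **The generating function for a fixed `f`.** -/
theorem gen (f : Fin n → Fin r) (hf : Function.Surjective f) (hr : 1 ≤ r) (D : Finset (Fin n))
    (x : Fin (n + 1) → ℝ) (hx : ∀ m, 0 < x m) :
    ∑ S : Fin r → Finset (Fin (n + 1)), (∏ t, ∏ m ∈ S t, x m) *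
      ((if ∀ i ∈ D, i.castSucc ∈ S (f i) then (1 : ℝ) else 0) * (NN f S).det) =
    (∏ m, (x m + 1)) ^ r * (∏ i ∈ D, x i.castSucc / (x i.castSucc + 1)) *
      ((1 - ∏ m, x m / (x m + 1)) ^ (r - 1) * (1 - x (Fin.last n) / (x (Fin.last n) + 1))) := by
  have hz : ∀ m, 0 < x m + 1 := fun m => by linarith [hx m]
  set ρ : Fin (n + 1) → ℝ := fun m => x m / (x m + 1) with hρd
  have hρ : ∀ m, ρ m ≠ 0 := fun m => (div_pos (hx m) (hz m)).ne'
  have hρ1 : ∀ m, ρ m < 1 := fun m => by
    rw [hρd]; simp only; rw [div_lt_one (hz m)]; linarith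
  have hρ0 : ∀ m, 0 < ρ m := fun m => div_pos (hx m) (hz m)
  have hq : ∏ m, ρ m ≠ 1 := by
    apply ne_of_lt
    calc ∏ m, ρ m < ∏ m : Fin (n + 1), (1 : ℝ) := by
          apply Finset.prod_lt_prod_of_nonempty
          · intro i _; exact hρ0 i
          · intro i _; exact hρ1 i
          · exact Finset.univ_nonempty
      _ = 1 := by simp
  have hW := detW f hf hr hρ hq
  show _ = (∏ m, (x m + 1)) ^ r * (∏ i ∈ D, ρ i.castSucc) *
      ((1 - ∏ m, ρ m) ^ (r - 1) * (1 - ρ (Fin.last n)))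
  rw [← hW]
  have h1 : ∀ S : Fin r → Finset (Fin (n + 1)), (∏ t, ∏ m ∈ S t, x m) *
      ((if ∀ i ∈ D, i.castSucc ∈ S (f i) then (1 : ℝ) else 0) * (NN f S).det) =
      ∑ σ : Equiv.Perm (Fin (n + 1)), ((Equiv.Perm.sign σ : ℤ) : ℝ) *
        ((if ∀ i : Fin n, Av (Fb f) i.castSucc (σ i.castSucc) then 1 else 0) *
        ((∏ t, ∏ m ∈ S t, x m) * (if ∀ t, UU f D σ t ⊆ S t then 1 else 0))) := by
    intro S
    rw [← detN_rem f S, det_rows, Finset.mul_sum, Finset.mul_sum]
    apply Finset.sum_congr rfl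
    intro σ _
    have := expand f D S σ
    linear_combination ((∏ t, ∏ m ∈ S t, x m) * ((Equiv.Perm.sign σ : ℤ) : ℝ)) * this
  simp only [h1]
  rw [Finset.sum_comm, det_rows, Finset.mul_sum]
  apply Finset.sum_congr rfl
  intro σ _
  rw [← Finset.mul_sum, ← Finset.mul_sum, sum_tuples]
  have h2 : ∏ i, Wm f ρ i (σ i) = (if ∀ i : Fin n, Av (Fb f) i.castSucc (σ i.castSucc) then 1 else 0) *
      ∏ i : Fin n, ∏ m ∈ arc i.castSucc (σ i.castSucc), ρ m := by
    rw [Fin.prod_univ_castSucc]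
    have h3 : Wm f ρ (Fin.last n) (σ (Fin.last n)) = 1 := by simp [Wm]
    have h4 : ∀ i : Fin n, Wm f ρ i.castSucc (σ i.castSucc) =
        if Av (Fb f) i.castSucc (σ i.castSucc) then ∏ m ∈ arc i.castSucc (σ i.castSucc), ρ m else 0 := by
      intro i
      simp only [Wm, ww, if_neg (Fin.castSucc_lt_last i).ne]
    rw [h3, mul_one]
    simp only [h4]
    by_cases h : ∀ i : Fin n, Av (Fb f) i.castSucc (σ i.castSucc)
    · rw [if_pos h, one_mul]
      apply Finset.prod_congr rfl
      intro i _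
      rw [if_pos (h i)]
    · rw [if_neg h, zero_mul]
      push Not at h
      obtain ⟨i, hi⟩ := h
      apply Finset.prod_eq_zero (Finset.mem_univ i)
      rw [if_neg hi]
  rw [h2]
  by_cases h : ∀ i : Fin n, Av (Fb f) i.castSucc (σ i.castSucc)
  · rw [if_pos h]
    have h5 : ∏ t : Fin r, ∏ m, (x m + if m ∈ UU f D σ t then 0 else 1) =
        (∏ m, (x m + 1)) ^ r * ∏ t : Fin r, ∏ m, (if m ∈ UU f D σ t then ρ m else 1) := by
      have h6 : (∏ m, (x m + 1)) ^ r = ∏ t : Fin r, ∏ m, (x m + 1) := by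
        rw [Finset.prod_const, Finset.card_univ, Fintype.card_fin]
      rw [h6, ← Finset.prod_mul_distrib]
      apply Finset.prod_congr rfl
      intro t _
      rw [← Finset.prod_mul_distrib]
      apply Finset.prod_congr rfl
      intro m _
      have := (hz m).ne'
      split_ifs
      · rw [hρd]; simp only; field_simp; ring
      · ring
    rw [h5, factor_prod f D σ h]
    ring
  · rw [if_neg h]; ring

end

end Pool.Agent.X226.Pd
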