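import Mathlib

set_option autoImplicit false

namespace Pool.Agent.X226.Pd

/-- The cyclic distance from `i` to `m` on the cycle `0, 1, ..., k - 1`: the number of steps
`+ 1 (mod k)` leading from `i` to `m`. -/
def cd (k i m : ℕ) : ℕ := if i ≤ m then m - i else k + m - i

variable {n r : ℕ}

/-- The cyclic interval `]i, j] = {i + 1, ..., j}` (mod `n + 1`), with `]i, i] = ∅`. -/
def arc (i j : Fin (n + 1)) : Finset (Fin (n + 1)) :=
  Finset.univ.filter fun m => 0 < cd (n + 1) i m ∧ cd (n + 1) i m ≤ cd (n + 1) i j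

theorem mem_arc {i j m : Fin (n + 1)} :
    m ∈ arc i j ↔ 0 < cd (n + 1) i m ∧ cd (n + 1) i m ≤ cd (n + 1) i j := by
  simp [arc]

/-- The blocks: `some (f i)` for `i < n`, `none` for the last element. -/
def Fb (f : Fin n → Fin r) : Fin (n + 1) → Option (Fin r) :=
  Fin.lastCases none (fun i => some (f i))

@[simp] theorem Fb_last (f : Fin n → Fin r) : Fb f (Fin.last n) = none := by simp [Fb]
@[simp] theorem Fb_cast (f : Fin n → Fin r) (i : Fin n) : Fb f i.castSucc = some (f i) := by
  simp [Fb]

/-- No other element of the block of `i` lies in `]i, j]`. -/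
def Av (F : Fin (n + 1) → Option (Fin r)) (i j : Fin (n + 1)) : Prop :=
  ∀ b, F b = F i → b ∉ arc i j

end Pool.Agent.X226.Pd
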