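import Pool.Agent.X226.PdC

set_option autoImplicit false

namespace Pool.Agent.X226.Pd

open Finset Matrix
open scoped Classical

variable {n r : ℕ}

noncomputable section

theorem sumU (x : Fin (n + 1) → ℝ) (hx : ∀ m, 0 < x m) (U : Finset (Fin (n + 1))) :
    ∑ A : Finset (Fin (n + 1)), (∏ m ∈ A, x m) * (if U ⊆ A then 1 else 0) =
      (∏ m, (x m + 1)) * ∏ m ∈ U, x m / (x m + 1) := by
  rw [sum_sets]
  have : ∏ m ∈ U, x m / (x m + 1) = ∏ m, if m ∈ U then x m / (x m + 1) else 1 := by
    rw [Finset.prod_ite_mem, Finset.univ_inter]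
  rw [this, ← Finset.prod_mul_distrib]
  apply Finset.prod_congr rfl
  intro m _
  have : x m + 1 ≠ 0 := by linarith [hx m]
  split_ifs
  · field_simp; ring
  · ring

theorem prod_split (t0 : Fin r) (a b : ℝ) :
    ∏ t : Fin r, (if t = t0 then a else b) = a * b ^ (r - 1) := by
  rw [← Finset.mul_prod_erase Finset.univ _ (Finset.mem_univ t0), if_pos rfl]
  congr 1
  rw [Finset.prod_congr rfl (g := fun _ => b), Finset.prod_const,
    Finset.card_erase_of_mem (Finset.mem_univ _), Finset.card_univ, Fintype.card_fin]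
  intro t ht
  rw [if_neg (Finset.ne_of_mem_erase ht)]

/-- the right hand side -/
theorem genR (t0 : Fin r) (D : Finset (Fin n)) (x : Fin (n + 1) → ℝ) (hx : ∀ m, 0 < x m) :
    ∑ S : Fin r → Finset (Fin (n + 1)), (∏ t, ∏ m ∈ S t, x m) *
      (if (∀ t, S t ≠ Finset.univ) ∧ Fin.last n ∉ S t0 ∧ ∀ i ∈ D, i.castSucc ∈ S t0 then (1 : ℝ) else 0) =
    (∏ m, (x m + 1)) ^ r * (∏ i ∈ D, x i.castSucc / (x i.castSucc + 1)) *
      ((1 - ∏ m, x m / (x m + 1)) ^ (r - 1) * (1 - x (Fin.last n) / (x (Fin.last n) + 1))) := by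
  set D' : Finset (Fin (n + 1)) := D.map Fin.castSuccEmb with hD'
  have hD'm : ∀ A : Finset (Fin (n + 1)), D' ⊆ A ↔ ∀ i ∈ D, i.castSucc ∈ A := by
    intro A
    rw [hD', Finset.map_subset_iff_subset_preimage]
    constructor
    · intro h i hi
      have := h hi
      rw [Finset.mem_preimage] at this
      exact this
    · intro h i hi
      rw [Finset.mem_preimage]
      exact h i hi
  have hlD : Fin.last n ∉ D' := by
    rw [hD', Finset.mem_map]
    rintro ⟨i, _, hi⟩
    exact (Fin.castSucc_lt_last i).ne hi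
  set h : Fin r → Finset (Fin (n + 1)) → ℝ := fun t A =>
    if t = t0 then ((if D' ⊆ A then 1 else 0) - (if insert (Fin.last n) D' ⊆ A then 1 else 0))
    else (1 - (if Finset.univ ⊆ A then 1 else 0)) with hh
  have h1 : ∀ S : Fin r → Finset (Fin (n + 1)),
      (if (∀ t, S t ≠ Finset.univ) ∧ Fin.last n ∉ S t0 ∧ ∀ i ∈ D, i.castSucc ∈ S t0 then (1 : ℝ) else 0)
      = ∏ t, h t (S t) := by
    intro S
    simp only [← hD'm]
    have e0 : h t0 (S t0) = if Fin.last n ∉ S t0 ∧ D' ⊆ S t0 then 1 else 0 := by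
      rw [hh]; simp only [if_true, Finset.insert_subset_iff]
      by_cases c1 : D' ⊆ S t0 <;> by_cases c2 : Fin.last n ∈ S t0 <;> simp [c1, c2]
    have e1 : ∀ t, t ≠ t0 → h t (S t) = if S t ≠ Finset.univ then 1 else 0 := by
      intro t ht
      rw [hh]; simp only [if_neg ht, Finset.univ_subset_iff]
      by_cases c1 : S t = Finset.univ <;> simp [c1]
    by_cases c : (∀ t, S t ≠ Finset.univ) ∧ Fin.last n ∉ S t0 ∧ D' ⊆ S t0
    · rw [if_pos c]
      symm
      apply Finset.prod_eq_one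
      intro t _
      by_cases ht : t = t0
      · rw [ht, e0, if_pos c.2]
      · rw [e1 t ht, if_pos (c.1 t)]
    · rw [if_neg c]
      symm
      by_cases c2 : Fin.last n ∉ S t0 ∧ D' ⊆ S t0
      · have c3 : ¬ ∀ t, S t ≠ Finset.univ := fun h' => c ⟨h', c2⟩
        push Not at c3
        obtain ⟨t, ht⟩ := c3
        have htt : t ≠ t0 := by
          rintro rfl
          exact c2.1 (by rw [ht]; exact Finset.mem_univ _)
        apply Finset.prod_eq_zero (Finset.mem_univ t)
        rw [e1 t htt, if_neg (fun h' => h' ht)]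
      · apply Finset.prod_eq_zero (Finset.mem_univ t0)
        rw [e0, if_neg c2]
  simp only [h1]
  have h2 : ∀ S : Fin r → Finset (Fin (n + 1)), (∏ t, ∏ m ∈ S t, x m) * ∏ t, h t (S t) =
      ∏ t, ((∏ m ∈ S t, x m) * h t (S t)) := fun S => (Finset.prod_mul_distrib).symm
  simp only [h2]
  have h3 := (Finset.prod_univ_sum (fun _ : Fin r => (Finset.univ : Finset (Finset (Fin (n + 1)))))
    (fun t A => (∏ m ∈ A, x m) * h t A)).symm
  rw [Fintype.piFinset_univ] at h3
  rw [h3]
  have h4 : ∀ t : Fin r, ∑ A : Finset (Fin (n + 1)), (∏ m ∈ A, x m) * h t A =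
      if t = t0 then (∏ m, (x m + 1)) * (∏ i ∈ D, x i.castSucc / (x i.castSucc + 1)) *
        (1 - x (Fin.last n) / (x (Fin.last n) + 1))
      else (∏ m, (x m + 1)) * (1 - ∏ m, x m / (x m + 1)) := by
    intro t
    by_cases ht : t = t0
    · rw [if_pos ht]
      have : ∀ A : Finset (Fin (n + 1)), (∏ m ∈ A, x m) * h t A =
          (∏ m ∈ A, x m) * (if D' ⊆ A then 1 else 0) -
          (∏ m ∈ A, x m) * (if insert (Fin.last n) D' ⊆ A then 1 else 0) := by
        intro A
        rw [hh]; simp only [if_pos ht]; ring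
      simp only [this]
      rw [Finset.sum_sub_distrib, sumU x hx, sumU x hx, Finset.prod_insert hlD, hD', Finset.prod_map]
      simp only [Fin.castSuccEmb_apply]
      ring
    · rw [if_neg ht]
      have : ∀ A : Finset (Fin (n + 1)), (∏ m ∈ A, x m) * h t A =
          (∏ m ∈ A, x m) * (if (∅ : Finset (Fin (n + 1))) ⊆ A then 1 else 0) -
          (∏ m ∈ A, x m) * (if Finset.univ ⊆ A then 1 else 0) := by
        intro A
        rw [hh]; simp only [if_neg ht, Finset.empty_subset, if_true]; ring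
      simp only [this]
      rw [Finset.sum_sub_distrib, sumU x hx, sumU x hx, Finset.prod_empty]
      ring
  simp only [h4]
  rw [prod_split]
  rw [mul_pow]
  obtain ⟨r', hr'⟩ : ∃ r', r = r' + 1 := ⟨r - 1, by have := t0.isLt; omega⟩
  subst hr'
  rw [Nat.add_sub_cancel, pow_succ]
  ring

/-- the degree vector of a tuple -/
def dg (S : Fin r → Finset (Fin (n + 1))) (m : Fin (n + 1)) : ℕ :=
  (Finset.univ.filter fun t => m ∈ S t).card

theorem prod_dg (S : Fin r → Finset (Fin (n + 1))) (x : Fin (n + 1) → ℝ) :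
    ∏ t, ∏ m ∈ S t, x m = ∏ m, x m ^ dg S m := by
  have h1 : ∀ t, ∏ m ∈ S t, x m = ∏ m, if m ∈ S t then x m else 1 := by
    intro t
    rw [Finset.prod_ite_mem, Finset.univ_inter]
  simp only [h1]
  rw [Finset.prod_comm]
  apply Finset.prod_congr rfl
  intro m _
  rw [Finset.prod_ite, Finset.prod_const, Finset.prod_const_one, mul_one]
  rfl

/-- comparison of coefficients -/
theorem coeffs (e : (Fin r → Finset (Fin (n + 1))) → ℝ)
    (h : ∀ x : Fin (n + 1) → ℝ, (∀ m, 0 < x m) →
      ∑ S : Fin r → Finset (Fin (n + 1)), (∏ t, ∏ m ∈ S t, x m) * e S = 0)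
    (p : Fin (n + 1) → ℕ) :
    ∑ S ∈ Finset.univ.filter (fun S : Fin r → Finset (Fin (n + 1)) => dg S = p), e S = 0 := by
  set P : MvPolynomial (Fin (n + 1)) ℝ := ∑ S : Fin r → Finset (Fin (n + 1)),
    MvPolynomial.monomial (Finsupp.equivFunOnFinite.symm (dg S)) (e S) with hP
  have hP0 : P = 0 := by
    apply MvPolynomial.funext_set (fun _ => Set.Ioi (0 : ℝ)) (fun _ => Set.Ioi_infinite 0)
    intro x hx
    have hx' : ∀ m, 0 < x m := fun m => hx m (Set.mem_univ m)
    rw [map_zero, hP, map_sum, ← h x hx']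
    apply Finset.sum_congr rfl
    intro S _
    rw [MvPolynomial.eval_monomial, prod_dg, mul_comm]
    congr 1
    rw [Finsupp.prod_fintype]
    · rfl
    · intro i; exact pow_zero _
  have h2 : MvPolynomial.coeff (Finsupp.equivFunOnFinite.symm p) P = 0 := by rw [hP0]; simp
  rw [hP, MvPolynomial.coeff_sum] at h2
  rw [Finset.sum_filter]
  refine Eq.trans ?_ h2
  apply Finset.sum_congr rfl
  intro S _
  rw [MvPolynomial.coeff_monomial]
  apply if_congr _ rfl rfl
  constructor
  · intro h; rw [h]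
  · intro h; exact Finsupp.equivFunOnFinite.symm.injective h

/-- **The identity for a fixed surjective `f`.** -/
theorem fixed (f : Fin n → Fin r) (hf : Function.Surjective f) (t0 : Fin r) (D : Finset (Fin n))
    (p : Fin (n + 1) → ℕ) :
    ∑ S ∈ Finset.univ.filter (fun S : Fin r → Finset (Fin (n + 1)) => dg S = p),
      ((if ∀ i ∈ D, i.castSucc ∈ S (f i) then (1 : ℝ) else 0) * (NN f S).det) =
    ((Finset.univ.filter (fun S : Fin r → Finset (Fin (n + 1)) => dg S = p)).filter
      (fun S => (∀ t, S t ≠ Finset.univ) ∧ Fin.last n ∉ S t0 ∧ ∀ i ∈ D, i.castSucc ∈ S t0)).card := by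
  have hr : 1 ≤ r := by have := t0.isLt; omega
  have h := coeffs (n := n) (r := r) (fun S =>
    ((if ∀ i ∈ D, i.castSucc ∈ S (f i) then (1 : ℝ) else 0) * (NN f S).det) -
    (if (∀ t, S t ≠ Finset.univ) ∧ Fin.last n ∉ S t0 ∧ ∀ i ∈ D, i.castSucc ∈ S t0 then (1 : ℝ) else 0))
    (by
      intro x hx
      simp only [mul_sub, Finset.sum_sub_distrib]
      rw [gen f hf hr D x hx, genR t0 D x hx, sub_self]) p
  rw [Finset.sum_sub_distrib, sub_eq_zero] at h
  rw [h, Finset.card_filter]
  push_cast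
  rfl

end

end Pool.Agent.X226.Pd
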